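import Pool.Agent.Lib.H66TW.Token

/-!
# The core argument
-/

set_option autoImplicit false

namespace Pool.Agent.H66TW

open Finset

variable {V : Type*} [DecidableEq V] {G : SimpleGraph V}

theorem gap [Fintype V] {t w s b : ℕ} (hw' : ¬ TW G (w - 1) univ)
    (H : ∀ D, TW G t D ∨ TW G (w - s - 1) Dᶜ) {D X : Finset V}
    (hs : Sepr G D X) (hX : X.card ≤ s) (hb : TW G b D)
    (hbX : b + X.card < w) : TW G t (D ∪ X) := by
  rcases H (D ∪ X) with h | h
  · exact h
  · exfalso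
    apply hw'
    have := TW.glue_sep (b := w - 1) (X := X) h hb (by
      rw [disjoint_left]
      intro v hv hv'
      rw [mem_compl, mem_union] at hv
      exact hv (Or.inl hv')) (by
      intro u hu v hv huv
      rw [mem_compl] at hu
      exact hu (hs v hv u huv.symm)) (by omega) (by omega)
    have e : (D ∪ X)ᶜ ∪ D ∪ X = univ := by
      ext x
      simp only [mem_union, mem_compl, mem_univ, iff_true]
      tauto
    rwa [e] at this

theorem cov_TW [Fintype V] {t w s c : ℕ} (hw' : ¬ TW G (w - 1) univ)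
    (H : ∀ D, TW G t D ∨ TW G (w - s - 1) Dᶜ) {S : Finset V} (hS : Cov G t S c)
    (hc : c ≤ s) (hcw : t + c < w) : TW G t S := by
  obtain ⟨D, X, h1, h2, h3, h4, h5⟩ := hS
  exact (gap hw' H h4 (h3.trans hc) h5 (by omega)).subset h2

/-- disjoint nontouching sets of small treewidth -/
theorem tw_biUnion {b : ℕ} (K : Finset (Finset V)) (h : ∀ S ∈ K, TW G b S)
    (hd : ∀ S ∈ K, ∀ S' ∈ K, S ≠ S' → Disjoint S S' ∧ ¬ Touch G S S') :
    TW G b (K.biUnion id) := by
  classical
  induction K using Finset.induction_on with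
  | empty => rw [biUnion_empty]; exact TW.empty b
  | insert S K hS ih =>
    rw [biUnion_insert]
    have key : ∀ S' ∈ K, Disjoint S S' ∧ ¬ Touch G S S' := by
      intro S' hS'
      exact hd S (mem_insert_self _ _) S' (mem_insert_of_mem hS') (fun h => hS (h ▸ hS'))
    refine TW.union (h S (mem_insert_self _ _))
      (ih (fun T hT => h T (mem_insert_of_mem hT))
        (fun T hT T' hT' => hd T (mem_insert_of_mem hT) T' (mem_insert_of_mem hT'))) ?_ ?_
    · intro u hu v hv huv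
      have hv' := (mem_sdiff.mp hv).1
      rw [mem_biUnion] at hv'
      obtain ⟨S', hS', hvS'⟩ := hv'
      exact (key S' hS').2 ⟨u, (mem_sdiff.mp hu).1, v, hvS', huv⟩
    · rw [disjoint_left]
      intro v hv hv'
      rw [mem_biUnion] at hv'
      obtain ⟨S', hS', hvS'⟩ := hv'
      exact (disjoint_left.mp (key S' hS').1 hv) hvS'

/-- adding a closed pair to a set of small treewidth -/
theorem tw_add_pair {b : ℕ} {D X R : Finset V} (hs : Sepr G D X) (hD : TW G b D)
    (hR : TW G b (R \ (D ∪ X))) : TW G (b + X.card) R := by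
  have := TW.glue_sep (b := b + X.card) (X := X) hD hR (by
    rw [disjoint_left]
    intro v hv hv'
    rw [mem_sdiff, mem_union] at hv'
    exact hv'.2 (Or.inl hv)) (by
    intro u hu v hv huv
    rw [mem_sdiff] at hv
    exact hv.2 (hs u hu v huv)) le_rfl le_rfl
  refine this.subset ?_
  intro x hx
  simp only [mem_union, mem_sdiff]
  tauto

/-- a cheap model of a complete graph in the token graph is impossible -/
theorem no_cheap_model [Fintype V] {t w s ω : ℕ} (hw' : ¬ TW G (w - 1) univ)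
    (H : ∀ D, TW G t D ∨ TW G (w - s - 1) Dᶜ) {A B : Finset V} {F Hd U : Finset (Finset V)}
    (hT : Tokens G t A B F Hd U) (hω : (3 * t + 1) * ((t + 1) * ω) ≤ s) (hsw : s + t < w) :
    ¬ ∃ W : Fin (t + 1) → Finset (Finset V), (∀ i, W i ⊆ U) ∧
      (∀ i, Conn (tokenGraph G) (W i)) ∧
      (∀ i j, i ≠ j → Disjoint (W i) (W j)) ∧
      (∀ i j, i ≠ j → Touch (tokenGraph G) (W i) (W j)) ∧ ∀ i, (W i).card ≤ ω := by
  classical
  rintro ⟨W, h1, h2, h3, h4, h5⟩
  set Tot := (univ : Finset (Fin (t + 1))).biUnion W with hTot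
  have hTU : Tot ⊆ U := by
    intro S hS
    rw [hTot, mem_biUnion] at hS
    obtain ⟨i, _, hi⟩ := hS
    exact h1 i hi
  have hcard : Tot.card ≤ (t + 1) * ω := by
    have := card_biUnion_le_card_mul (univ : Finset (Fin (t + 1))) W ω (fun i _ => h5 i)
    simpa using this
  have hcov : Cov G t (Tot.biUnion id) (Tot.card * (3 * t + 1)) :=
    Cov.biUnion Tot (fun S hS => hT.cov S (hTU hS))
  have hle : Tot.card * (3 * t + 1) ≤ s := by
    calc Tot.card * (3 * t + 1) ≤ ((t + 1) * ω) * (3 * t + 1) := Nat.mul_le_mul_right _ hcard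
      _ = (3 * t + 1) * ((t + 1) * ω) := Nat.mul_comm _ _
      _ ≤ s := hω
  obtain ⟨β, hTD⟩ := cov_TW hw' H hcov hle (by omega)
  have := hTD.clique_le (t + 1) (fun i => (W i).biUnion id) ?_ ?_ ?_ ?_
  · omega
  · intro i
    exact conn_biUnion (h2 i) (fun S hS => hT.conn S (h1 i hS))
  · intro i j hij
    rw [disjoint_left]
    intro v hv hv'
    rw [mem_biUnion] at hv hv'
    obtain ⟨S, hS, hvS⟩ := hv
    obtain ⟨S', hS', hvS'⟩ := hv'
    have hne : S ≠ S' := by
      rintro rfl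
      exact (disjoint_left.mp (h3 i j hij) hS) hS'
    exact (disjoint_left.mp (hT.disj S (h1 i hS) S' (h1 j hS') hne) hvS) hvS'
  · intro i j hij
    obtain ⟨S, hS, S', hS', _, u, hu, v, hv, huv⟩ := h4 i j hij
    exact ⟨u, mem_biUnion.mpr ⟨S, hS, hu⟩, v, mem_biUnion.mpr ⟨S', hS', hv⟩, huv⟩
  · intro i v hv
    rw [mem_biUnion] at hv ⊢
    obtain ⟨S, hS, hvS⟩ := hv
    exact ⟨S, mem_biUnion.mpr ⟨i, mem_univ i, hS⟩, hvS⟩

/-- The core contradiction, given a separator of tokens. -/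
theorem core [Fintype V] {t w s q : ℕ} (hw' : ¬ TW G (w - 1) univ)
    (H : ∀ D, TW G t D ∨ TW G (w - s - 1) Dᶜ)
    (hq : 1 ≤ q) (hqs : 8 * (3 * t + 1) * q ≤ s) (hsw : s + t < w)
    {A B : Finset V} (hBw : B.card ≤ w) (hAcl : ∀ v ∈ A, ∀ u, G.Adj v u → u ∈ A ∪ B)
    (hreg : 32 * w ≤ nu G t A ∨ (A = univ ∧ B = ∅))
    {F Hd U S : Finset (Finset V)} (hT : Tokens G t A B F Hd U) (hSU : S ⊆ U)
    (hS : 4 * (3 * t + 1) * S.card ≤ q)
    (hconn : ∀ C ⊆ U \ S, Conn (tokenGraph G) C → (C ∩ (F ∪ Hd)).card ≤ q) : False := by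
  classical
  set c := 3 * t + 1 with hc
  have hc1 : 1 ≤ c := by omega
  have hqc : q ≤ q * c := Nat.le_mul_of_pos_right q hc1
  have hqs' : 8 * (q * c) ≤ s := by
    calc 8 * (q * c) = 8 * c * q := by ring
      _ ≤ s := hqs
  have hScc : 4 * (S.card * c) ≤ q := by
    calc 4 * (S.card * c) = 4 * c * S.card := by ring
      _ ≤ q := hS
  have hScard : S.card ≤ S.card * c := Nat.le_mul_of_pos_right _ hc1
  have hcs : c ≤ s := by
    have : c ≤ q * c := Nat.le_mul_of_pos_left c hq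
    omega
  have htok : ∀ S' ∈ U, TW G t S' := fun S' hS' =>
    cov_TW hw' H (hT.cov S' hS') hcs (by omega)
  have hsoft : ∀ S₁ ∈ U \ (F ∪ Hd), ∀ S₂ ∈ U \ (F ∪ Hd), S₁ ≠ S₂ →
      Disjoint S₁ S₂ ∧ ¬ Touch G S₁ S₂ := by
    intro S₁ h₁ S₂ h₂ hne
    rw [mem_sdiff] at h₁ h₂
    refine ⟨hT.disj _ h₁.1 _ h₂.1 hne, fun h => ?_⟩
    exact hT.soft _ h₁.1 _ h₂.1 h₁.2 h₂.2 ⟨hne, h⟩
  -- few complex sets: impossible
  have hnu : 4 * q ≤ F.card := by
    by_contra hlt
    push Not at hlt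
    rcases hreg with h | ⟨rfl, rfl⟩
    · rw [← hT.cardF] at h
      omega
    · apply hw'
      obtain ⟨D, X, _, a2, a3, a4, a5⟩ := Cov.biUnion F (fun S' hS' => hT.cov S' (hT.FU hS'))
      have hX : X.card ≤ 4 * (q * c) := by
        refine a3.trans ?_
        calc F.card * c ≤ (4 * q) * c := Nat.mul_le_mul_right _ hlt.le
          _ = 4 * (q * c) := by ring
      have hHd : Hd = ∅ := by
        rw [← card_eq_zero, hT.cardH]; simp
      have h1 : TW G (t + X.card) (univ : Finset V) := by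
        refine tw_add_pair a4 a5 ?_
        refine (tw_biUnion (U \ (F ∪ Hd)) (fun S' hS' => htok S' (mem_sdiff.mp hS').1)
          hsoft).subset ?_
        intro v hv
        rw [mem_sdiff] at hv
        obtain ⟨S', hS', hvS'⟩ := hT.cover v (by simp)
        rw [mem_biUnion]
        refine ⟨S', mem_sdiff.mpr ⟨hS', ?_⟩, hvS'⟩
        rw [hHd, union_empty]
        intro hSF
        exact hv.2 (a2 (mem_biUnion.mpr ⟨S', hSF, hvS'⟩))
      exact h1.mono (by omega)
  -- the balanced closed family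
  have hWF : F.card ≤ ((U \ S) ∩ F).card + S.card := by
    have h1 : F ⊆ ((U \ S) ∩ F) ∪ S := by
      intro x hx
      have := hT.FU hx
      simp only [mem_union, mem_inter, mem_sdiff]
      tauto
    exact (card_le_card h1).trans (card_union_le _ _)
  have hWH : ((U \ S) ∩ Hd).card ≤ B.card := by
    rw [← hT.cardH]
    exact card_le_card inter_subset_right
  obtain ⟨Z, hZW, hZc, hZK, hZq, hZ2⟩ := exists_balanced (Γ := tokenGraph G) (U \ S) F Hd 32 q
    (by
      intro C hC hCc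
      exact (card_le_card (inter_subset_inter_left subset_union_left)).trans (hconn C hC hCc))
    (by
      rcases hreg with h | ⟨_, h⟩
      · rw [← hT.cardF] at h
        omega
      · rw [h, card_empty] at hWH
        omega)
    (by omega)
  have hZU : Z ⊆ U := hZW.trans sdiff_subset
  -- covers
  obtain ⟨DS, XS, s1, s2, s3, s4, s5⟩ := Cov.biUnion S (fun S' hS' => hT.cov S' (hSU hS'))
  obtain ⟨Da, Xa, a1, a2, a3, a4, a5⟩ := Cov.biUnion (Z ∩ F)
    (fun S' hS' => hT.cov S' (hT.FU (mem_inter.mp hS').2))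
  rw [← hc] at s3 a3
  set Zv := Z.biUnion id with hZv
  set X := XS ∪ (B ∩ Zv) with hX
  set D := ((Zv \ B) ∪ DS) \ X with hD
  have hDX : Disjoint D X := sdiff_disjoint
  have hDXeq : D ∪ X = Zv ∪ DS ∪ XS := by
    ext x
    simp only [hD, hX, mem_union, mem_sdiff, mem_inter]
    tauto
  have hSepr : Sepr G D X := by
    intro v hv u huv
    rw [hDXeq]
    rw [hD, mem_sdiff] at hv
    rcases mem_union.mp hv.1 with h | h
    · rw [mem_sdiff, hZv, mem_biUnion] at h
      obtain ⟨⟨S₁, hS₁, hvS₁⟩, hvB⟩ := h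
      have hvA : v ∈ A := (mem_union.mp (hT.sub S₁ (hZU hS₁) hvS₁)).resolve_right hvB
      obtain ⟨S₂, hS₂, huS₂⟩ := hT.cover u (hAcl v hvA u huv)
      by_cases h2Z : S₂ ∈ Z
      · exact mem_union_left _ (mem_union_left _ (mem_biUnion.mpr ⟨S₂, h2Z, huS₂⟩))
      · by_cases h2S : S₂ ∈ S
        · have := s2 (mem_biUnion.mpr ⟨S₂, h2S, huS₂⟩)
          simp only [mem_union] at this ⊢
          tauto
        · exfalso
          refine hZc S₁ hS₁ S₂ (mem_sdiff.mpr ⟨mem_sdiff.mpr ⟨hS₂, h2S⟩, h2Z⟩) ⟨?_, v, hvS₁, u, huS₂, huv⟩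
          rintro rfl
          exact h2Z hS₁
    · have := s4 v h u huv
      simp only [mem_union] at this ⊢
      tauto
  -- size of `X`
  have hBZ : (B ∩ Zv).card ≤ (Z ∩ Hd).card := by
    have h1 : B ∩ Zv ⊆ (Z ∩ Hd).biUnion id := by
      intro v hv
      rw [mem_inter, hZv, mem_biUnion] at hv
      obtain ⟨hvB, S₁, hS₁, hvS₁⟩ := hv
      rw [mem_biUnion]
      refine ⟨S₁, mem_inter.mpr ⟨hS₁, ?_⟩, hvS₁⟩
      by_contra hn
      have hvA := hT.subA S₁ (hZU hS₁) hn hvS₁
      exact (disjoint_left.mp hT.disjAB hvA) hvB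
    refine (card_le_card h1).trans ?_
    have := card_biUnion_le_card_mul (Z ∩ Hd) id 1 (by
      intro S' hS'
      exact (hT.memH S' (mem_inter.mp hS').2).2.le)
    simpa using this
  have hXcard : 8 * X.card ≤ 3 * q := by
    have := card_union_le XS (B ∩ Zv)
    rw [← hX] at this
    omega
  -- treewidth of `D`
  have hDtw : TW G (t + Xa.card) D := by
    refine tw_add_pair a4 a5 ?_
    -- `D \ (Da ∪ Xa)` splits in the part in `DS` and the soft part
    have hsub : D \ (Da ∪ Xa) ⊆ (DS \ XS) ∪ (((Z \ (F ∪ Hd)).biUnion id) \ (DS ∪ XS)) := by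
      intro v hv
      rw [mem_sdiff] at hv
      have hvD := hv.1
      rw [hD, mem_sdiff, mem_union] at hvD
      have hvXS : v ∉ XS := fun h => hvD.2 (mem_union_left _ h)
      by_cases hvDS : v ∈ DS
      · exact mem_union_left _ (mem_sdiff.mpr ⟨hvDS, hvXS⟩)
      · have h2 : v ∈ Zv \ B := hvD.1.resolve_right hvDS
        rw [mem_sdiff, hZv, mem_biUnion] at h2
        obtain ⟨⟨S₁, hS₁, hvS₁⟩, hvB⟩ := h2
        refine mem_union_right _ (mem_sdiff.mpr ⟨mem_biUnion.mpr ⟨S₁, mem_sdiff.mpr ⟨hS₁, ?_⟩, hvS₁⟩, ?_⟩)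
        · intro h
          rcases mem_union.mp h with h | h
          · exact hv.2 (a2 (mem_biUnion.mpr ⟨S₁, mem_inter.mpr ⟨hS₁, h⟩, hvS₁⟩))
          · exact hvB ((hT.memH S₁ h).1 hvS₁)
        · intro h
          rcases mem_union.mp h with h | h
          · exact hvDS h
          · exact hvXS h
    refine TW.subset ?_ hsub
    refine TW.union (s5.subset sdiff_subset) ?_ ?_ ?_
    · refine TW.subset ?_ sdiff_subset
      refine tw_biUnion _ (fun S' hS' => htok S' (hZU (mem_sdiff.mp hS').1)) ?_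
      intro S₁ h₁ S₂ h₂ hne
      rw [mem_sdiff] at h₁ h₂
      exact hsoft S₁ (mem_sdiff.mpr ⟨hZU h₁.1, h₁.2⟩) S₂ (mem_sdiff.mpr ⟨hZU h₂.1, h₂.2⟩) hne
    · intro u hu v hv huv
      have h1 := s4 u (mem_sdiff.mp (mem_sdiff.mp hu).1).1 v huv
      exact (mem_sdiff.mp (mem_sdiff.mp hv).1).2 h1
    · rw [disjoint_left]
      intro v hv hv'
      exact (mem_sdiff.mp hv').2 (mem_union_left _ (mem_sdiff.mp hv).1)
  have hXa : Xa.card ≤ 2 * (q * c) := by
    refine a3.trans ?_
    calc (Z ∩ F).card * c ≤ (2 * q) * c := Nat.mul_le_mul_right _ hZ2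
      _ = 2 * (q * c) := by ring
  have hfin : TW G t (D ∪ X) := gap hw' H hSepr (by omega) hDtw (by omega)
  have hcount := count_complex hDX hSepr hfin (Z ∩ F) (by
    intro S' hS'
    rw [mem_inter] at hS'
    refine ⟨?_, (hT.pack.1 S' hS'.2).2.1, (hT.pack.1 S' hS'.2).2.2⟩
    rw [hDXeq]
    intro v hv
    exact mem_union_left _ (mem_union_left _ (mem_biUnion.mpr ⟨S', hS'.1, hv⟩))) (by
    intro S₁ h₁ S₂ h₂ hne
    exact hT.pack.2 S₁ (mem_inter.mp h₁).2 S₂ (mem_inter.mp h₂).2 hne)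
  omega

end Pool.Agent.H66TW
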