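import Pool.Agent.Lib.H66TW.TD

/-!
# Cheap covers and the counting lemma

`Cov G b S s`: the set `S` lies in `D ∪ X` with `X` of size at most `s`, all neighbours of `D` in
`D ∪ X`, and `G[D]` of treewidth at most `b - 1`.
-/

set_option autoImplicit false

namespace Pool.Agent.H66TW

open Finset

variable {V : Type*} [DecidableEq V]

/-- all neighbours of `D` lie in `D ∪ X` -/
def Sepr (G : SimpleGraph V) (D X : Finset V) : Prop := ∀ v ∈ D, ∀ u, G.Adj v u → u ∈ D ∪ X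

def Cov (G : SimpleGraph V) (b : ℕ) (S : Finset V) (s : ℕ) : Prop :=
  ∃ D X : Finset V, Disjoint D X ∧ S ⊆ D ∪ X ∧ X.card ≤ s ∧ Sepr G D X ∧ TW G b D

variable {G : SimpleGraph V}

theorem Cov.mono {b s s' : ℕ} {S S' : Finset V} (h : Cov G b S s) (hS : S' ⊆ S) (hs : s ≤ s') :
    Cov G b S' s' := by
  obtain ⟨D, X, h1, h2, h3, h4, h5⟩ := h
  exact ⟨D, X, h1, hS.trans h2, h3.trans hs, h4, h5⟩

theorem Cov.of_card {b s : ℕ} {S : Finset V} (h : S.card ≤ s) : Cov G b S s :=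
  ⟨∅, S, disjoint_empty_left _, by simp, h, by intro v hv; simp at hv, TW.empty b⟩

/-- union of two closed pairs -/
theorem sepr_union {b : ℕ} {D₁ X₁ D₂ X₂ : Finset V} (s1 : Sepr G D₁ X₁) (s2 : Sepr G D₂ X₂)
    (t1 : TW G b D₁) (t2 : TW G b D₂) :
    Sepr G ((D₁ ∪ D₂) \ (X₁ ∪ X₂)) (X₁ ∪ X₂) ∧ TW G b ((D₁ ∪ D₂) \ (X₁ ∪ X₂)) := by
  refine ⟨?_, ?_⟩
  · intro v hv u huv
    simp only [mem_sdiff, mem_union] at hv ⊢
    rcases hv.1 with h | h
    · have := s1 v h u huv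
      simp only [mem_union] at this
      tauto
    · have := s2 v h u huv
      simp only [mem_union] at this
      tauto
  · have e : (D₁ ∪ D₂) \ (X₁ ∪ X₂) =
        (D₁ \ (X₁ ∪ X₂)) ∪ ((D₂ \ (X₁ ∪ X₂)) \ D₁) := by
      ext x
      simp only [mem_sdiff, mem_union]
      tauto
    rw [e]
    refine TW.union (t1.subset sdiff_subset) (t2.subset (sdiff_subset.trans sdiff_subset)) ?_ ?_
    · intro u hu v hv huv
      simp only [mem_sdiff, mem_union] at hu hv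
      have := s1 u hu.1.1 v huv
      simp only [mem_union] at this
      tauto
    · rw [disjoint_left]
      intro x hx hx'
      simp only [mem_sdiff, mem_union] at hx hx'
      exact hx'.2 hx.1

theorem Cov.union {b s₁ s₂ : ℕ} {S₁ S₂ : Finset V} (h1 : Cov G b S₁ s₁) (h2 : Cov G b S₂ s₂) :
    Cov G b (S₁ ∪ S₂) (s₁ + s₂) := by
  obtain ⟨D₁, X₁, _, a2, a3, a4, a5⟩ := h1
  obtain ⟨D₂, X₂, _, b2, b3, b4, b5⟩ := h2
  obtain ⟨c1, c2⟩ := sepr_union a4 b4 a5 b5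
  refine ⟨(D₁ ∪ D₂) \ (X₁ ∪ X₂), X₁ ∪ X₂, sdiff_disjoint, ?_,
    (card_union_le _ _).trans (Nat.add_le_add a3 b3), c1, c2⟩
  intro x hx
  simp only [mem_union, mem_sdiff] at hx ⊢
  rcases hx with h | h
  · have := a2 h
    simp only [mem_union] at this
    tauto
  · have := b2 h
    simp only [mem_union] at this
    tauto

theorem Cov.biUnion {b c : ℕ} (F : Finset (Finset V)) (h : ∀ S ∈ F, Cov G b S c) :
    Cov G b (F.biUnion id) (F.card * c) := by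
  classical
  induction F using Finset.induction_on with
  | empty => exact Cov.of_card (by simp)
  | insert S F hS ih =>
    rw [biUnion_insert, card_insert_of_notMem hS, Nat.succ_mul, Nat.add_comm]
    exact (h S (mem_insert_self _ _)).union (ih (fun T hT => h T (mem_insert_of_mem hT)))

/-- state of the bottom-up marking -/
structure MSt (G : SimpleGraph V) (b : ℕ) (X D β Y R Z : Finset V) : Prop where
  RD : R ⊆ D
  YD : Y ⊆ D
  ZY : Z ⊆ Y
  RY : Disjoint R Y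
  bR : ∀ v ∈ β, v ∉ Y → v ∈ R
  bZ : ∀ v ∈ β, v ∈ Y → v ∈ Z
  Zc : Z.card ≤ b
  cl : ∀ v ∈ R, ∀ u ∈ D, G.Adj v u → u ∈ R ∪ Z
  cov : ∀ U, Conn G U → U ⊆ D \ Y → Disjoint U R → Cov G b U (3 * b)
  XR : ((X ∩ R) \ β).card ≤ b
  cnt : (Y = ∅ ∧ Z = ∅ ∧ R = D) ∨ (Y.card + b ≤ 2 * ((X ∩ D) \ (R ∪ β)).card)

theorem MSt.covered {b : ℕ} {X D β Y R Z : Finset V} (s : MSt G b X D β Y R Z)
    (hT : TD G b D β) (inner : ∀ v ∈ D, v ∉ β → v ∉ X → ∀ u, G.Adj v u → u ∈ D) :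
    ∀ U, Conn G U → U ⊆ D \ Y → Cov G b U (3 * b) := by
  intro U hU hUD
  by_cases hd : Disjoint U R
  · exact s.cov U hU hUD hd
  · rw [not_disjoint_iff] at hd
    obtain ⟨x, hxU, hxR⟩ := hd
    have hUR : U ∩ R = U := by
      refine hU.2 _ inter_subset_left ⟨x, mem_inter.mpr ⟨hxU, hxR⟩⟩ ?_
      intro u hu v hv huv
      simp only [mem_inter, mem_sdiff] at hu hv
      have hvD := hUD hv.1
      rw [mem_sdiff] at hvD
      have := s.cl u hu.2 v hvD.1 huv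
      rw [mem_union] at this
      rcases this with h | h
      · exact hv.2 ⟨hv.1, h⟩
      · exact hvD.2 (s.ZY h)
    have hUR' : U ⊆ R := by rw [← hUR]; exact inter_subset_right
    refine ⟨(R \ β) \ X, Z ∪ β ∪ ((X ∩ R) \ β), ?_, ?_, ?_, ?_, ?_⟩
    · rw [disjoint_left]
      intro v hv hv'
      simp only [mem_sdiff, mem_union, mem_inter] at hv hv'
      have h2 := (disjoint_left.mp s.RY) hv.1.1
      have h3 : v ∉ Z := fun h => h2 (s.ZY h)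
      tauto
    · intro v hv
      have := hUR' hv
      simp only [mem_sdiff, mem_union, mem_inter]
      tauto
    · have h1 := card_union_le (Z ∪ β) ((X ∩ R) \ β)
      have h2 := card_union_le Z β
      have h3 := s.XR
      have h4 := s.Zc
      have h5 := hT.root_card
      omega
    · intro v hv u huv
      simp only [mem_sdiff, mem_union, mem_inter] at hv ⊢
      have h1 := inner v (s.RD hv.1.1) hv.1.2 hv.2 u huv
      have h2 := s.cl v hv.1.1 u h1 huv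
      rw [mem_union] at h2
      tauto
    · exact TW.subset ⟨β, hT⟩ ((sdiff_subset.trans sdiff_subset).trans s.RD)

theorem MSt.leaf {b : ℕ} {X β : Finset V} : MSt G b X β β ∅ β ∅ where
  RD := Subset.refl _
  YD := empty_subset _
  ZY := Subset.refl _
  RY := disjoint_empty_right _
  bR := fun v hv _ => hv
  bZ := fun v _ h => h
  Zc := by simp
  cl := fun v _ u hu _ => mem_union_left _ hu
  cov := by
    intro U hU hUD hd
    exfalso
    obtain ⟨x, hx⟩ := hU.1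
    have := hUD hx
    rw [mem_sdiff] at this
    exact (disjoint_left.mp hd hx) this.1
  XR := by
    have : (X ∩ β) \ β = ∅ := by
      ext x; simp only [mem_sdiff, mem_inter, notMem_empty, iff_false]; tauto
    rw [this]; simp
  cnt := Or.inl ⟨rfl, rfl, rfl⟩

section glue

variable {b : ℕ} {X D₁ β₁ D₂ β₂ Y₁ R₁ Z₁ Y₂ R₂ Z₂ : Finset V}

theorem inner_left (h3 : D₁ ∩ D₂ ⊆ β₁ ∩ β₂)
    (h4 : ∀ u ∈ D₁ \ D₂, ∀ v ∈ D₂ \ D₁, ¬ G.Adj u v)
    (inner : ∀ v ∈ D₁ ∪ D₂, v ∉ β₁ → v ∉ X → ∀ u, G.Adj v u → u ∈ D₁ ∪ D₂) :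
    ∀ v ∈ D₁, v ∉ β₁ → v ∉ X → ∀ u, G.Adj v u → u ∈ D₁ := by
  intro v hv hvb hvX u huv
  have hv2 : v ∉ D₂ := fun h => hvb (mem_inter.mp (h3 (mem_inter.mpr ⟨hv, h⟩))).1
  have := inner v (mem_union_left _ hv) hvb hvX u huv
  rw [mem_union] at this
  by_contra hu
  exact h4 v (mem_sdiff.mpr ⟨hv, hv2⟩) u (mem_sdiff.mpr ⟨this.resolve_left hu, hu⟩) huv

theorem inner_right (hb1 : β₁ ⊆ D₁) (h3 : D₁ ∩ D₂ ⊆ β₁ ∩ β₂)
    (h4 : ∀ u ∈ D₁ \ D₂, ∀ v ∈ D₂ \ D₁, ¬ G.Adj u v)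
    (inner : ∀ v ∈ D₁ ∪ D₂, v ∉ β₁ → v ∉ X → ∀ u, G.Adj v u → u ∈ D₁ ∪ D₂) :
    ∀ v ∈ D₂, v ∉ β₂ → v ∉ X → ∀ u, G.Adj v u → u ∈ D₂ := by
  intro v hv hvb hvX u huv
  have hv1 : v ∉ D₁ := fun h => hvb (mem_inter.mp (h3 (mem_inter.mpr ⟨h, hv⟩))).2
  have := inner v (mem_union_right _ hv) (fun h => hv1 (hb1 h)) hvX u huv
  rw [mem_union] at this
  by_contra hu
  exact h4 u (mem_sdiff.mpr ⟨this.resolve_right hu, hu⟩) v (mem_sdiff.mpr ⟨hv, hv1⟩) huv.symm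

/-- a connected set avoiding `D₁ ∩ D₂` lies on one side -/
theorem one_side {U : Finset V} (hU : Conn G U) (hUD : U ⊆ D₁ ∪ D₂)
    (hd : Disjoint U (D₁ ∩ D₂))
    (h4 : ∀ u ∈ D₁ \ D₂, ∀ v ∈ D₂ \ D₁, ¬ G.Adj u v) : U ⊆ D₁ \ D₂ ∨ U ⊆ D₂ \ D₁ := by
  by_cases h : (U ∩ (D₁ \ D₂)).Nonempty
  · left
    have := hU.2 (U ∩ (D₁ \ D₂)) inter_subset_left h (by
      intro u hu v hv huv
      simp only [mem_inter, mem_sdiff] at hu hv
      refine h4 u (mem_sdiff.mpr hu.2) v ?_ huv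
      have h1 := hUD hv.1
      have h2 := disjoint_left.mp hd hv.1
      simp only [mem_union, mem_inter, mem_sdiff] at h1 h2 ⊢
      tauto)
    rw [← this]
    exact inter_subset_right
  · right
    intro v hv
    have h1 := hUD hv
    have h2 := disjoint_left.mp hd hv
    have h3 : v ∉ D₁ \ D₂ := fun h' => h ⟨v, mem_inter.mpr ⟨hv, h'⟩⟩
    simp only [mem_union, mem_inter, mem_sdiff] at h1 h2 h3 ⊢
    tauto

theorem MSt.mark (s1 : MSt G b X D₁ β₁ Y₁ R₁ Z₁) (s2 : MSt G b X D₂ β₂ Y₂ R₂ Z₂)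
    (t1 : TD G b D₁ β₁) (t2 : TD G b D₂ β₂)
    (h3 : D₁ ∩ D₂ ⊆ β₁ ∩ β₂) (h4 : ∀ u ∈ D₁ \ D₂, ∀ v ∈ D₂ \ D₁, ¬ G.Adj u v)
    (inner : ∀ v ∈ D₁ ∪ D₂, v ∉ β₁ → v ∉ X → ∀ u, G.Adj v u → u ∈ D₁ ∪ D₂)
    (hm : (Y₁.card + b ≤ 2 * ((X ∩ D₁) \ (R₁ ∪ β₁)).card ∧
        Y₂.card + b ≤ 2 * ((X ∩ D₂) \ (R₂ ∪ β₂)).card) ∨
      b ≤ ((X ∩ (R₁ ∪ R₂)) \ β₁).card) :
    MSt G b X (D₁ ∪ D₂) β₁ (Y₁ ∪ Y₂ ∪ β₁) ∅ β₁ := by
  have hb1 := t1.root_sub
  have hb2 := t2.root_sub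
  have i1 := inner_left h3 h4 inner
  have i2 := inner_right hb1 h3 h4 inner
  have hR1 := s1.RD
  have hR2 := s2.RD
  refine ⟨empty_subset _, ?_, subset_union_right, disjoint_empty_left _, ?_, ?_, t1.root_card,
    ?_, ?_, ?_, ?_⟩
  · exact union_subset (union_subset_union s1.YD s2.YD) (hb1.trans subset_union_left)
  · intro v hv h
    exact absurd (mem_union_right _ hv) h
  · intro v hv _
    exact hv
  · intro v hv
    simp at hv
  · intro U hU hUD _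
    have hUD' : U ⊆ D₁ ∪ D₂ := hUD.trans sdiff_subset
    have hUY : ∀ v ∈ U, v ∉ Y₁ ∧ v ∉ Y₂ ∧ v ∉ β₁ := by
      intro v hv
      have := hUD hv
      simp only [mem_sdiff, mem_union] at this
      tauto
    have hd : Disjoint U (D₁ ∩ D₂) := by
      rw [disjoint_left]
      intro v hv hv'
      exact (hUY v hv).2.2 (mem_inter.mp (h3 hv')).1
    rcases one_side hU hUD' hd h4 with h | h
    · refine s1.covered t1 i1 U hU ?_
      intro v hv
      rw [mem_sdiff]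
      exact ⟨(mem_sdiff.mp (h hv)).1, (hUY v hv).1⟩
    · refine s2.covered t2 i2 U hU ?_
      intro v hv
      rw [mem_sdiff]
      exact ⟨(mem_sdiff.mp (h hv)).1, (hUY v hv).2.1⟩
  · simp
  · right
    -- counting
    set c1 := (X ∩ D₁) \ (R₁ ∪ β₁) with hc1
    set c2 := (X ∩ D₂) \ (R₂ ∪ β₂) with hc2
    set N := (X ∩ (R₁ ∪ R₂)) \ β₁ with hN
    have d12 : Disjoint c1 c2 := by
      rw [disjoint_left]
      intro v hv hv'
      simp only [hc1, hc2, mem_sdiff, mem_inter, mem_union] at hv hv'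
      have := h3 (mem_inter.mpr ⟨hv.1.2, hv'.1.2⟩)
      rw [mem_inter] at this
      exact hv.2 (Or.inr this.1)
    have dN : Disjoint (c1 ∪ c2) N := by
      rw [disjoint_left]
      intro v hv hv'
      simp only [hc1, hc2, hN, mem_sdiff, mem_inter, mem_union] at hv hv'
      have a3 : v ∈ D₁ → v ∈ D₂ → v ∈ β₁ ∧ v ∈ β₂ := fun h h' =>
        mem_inter.mp (h3 (mem_inter.mpr ⟨h, h'⟩))
      rcases hv with hv | hv
      · rcases hv'.1.2 with h | h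
        · exact hv.2 (Or.inl h)
        · exact hv.2 (Or.inr (a3 hv.1.2 (hR2 h)).1)
      · rcases hv'.1.2 with h | h
        · exact hv.2 (Or.inr (a3 (hR1 h) hv.1.2).2)
        · exact hv.2 (Or.inl h)
    have hsub : (c1 ∪ c2) ∪ N ⊆ (X ∩ (D₁ ∪ D₂)) \ (∅ ∪ β₁) := by
      intro v hv
      simp only [hc1, hc2, hN, mem_sdiff, mem_inter, mem_union, notMem_empty, false_or] at hv ⊢
      rcases hv with (hv | hv) | hv
      · exact ⟨⟨hv.1.1, Or.inl hv.1.2⟩, fun h => hv.2 (Or.inr h)⟩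
      · exact ⟨⟨hv.1.1, Or.inr hv.1.2⟩, fun h =>
          hv.2 (Or.inr (mem_inter.mp (h3 (mem_inter.mpr ⟨hb1 h, hv.1.2⟩))).2)⟩
      · exact ⟨⟨hv.1.1, hv.1.2.imp (fun h => hR1 h) (fun h => hR2 h)⟩, hv.2⟩
    have hcard := card_le_card hsub
    rw [card_union_of_disjoint dN, card_union_of_disjoint d12] at hcard
    have e1 := card_union_le (Y₁ ∪ Y₂) β₁
    have e2 := card_union_le Y₁ Y₂
    have e3 := t1.root_card
    have f1 : Y₁.card ≤ 2 * c1.card := by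
      rcases s1.cnt with ⟨h, _⟩ | h
      · rw [h]; simp
      · rw [← hc1] at h; omega
    have f2 : Y₂.card ≤ 2 * c2.card := by
      rcases s2.cnt with ⟨h, _⟩ | h
      · rw [h]; simp
      · rw [← hc2] at h; omega
    rcases hm with ⟨m1, m2⟩ | hm
    · omega
    · omega

theorem MSt.merge (s1 : MSt G b X D₁ β₁ Y₁ R₁ Z₁) (s2 : MSt G b X D₂ β₂ Y₂ R₂ Z₂)
    (t1 : TD G b D₁ β₁) (t2 : TD G b D₂ β₂)
    (h3 : D₁ ∩ D₂ ⊆ β₁ ∩ β₂) (h4 : ∀ u ∈ D₁ \ D₂, ∀ v ∈ D₂ \ D₁, ¬ G.Adj u v)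
    (hm : (Y₁ = ∅ ∧ Z₁ = ∅ ∧ R₁ = D₁) ∨ (Y₂ = ∅ ∧ Z₂ = ∅ ∧ R₂ = D₂))
    (hN : ((X ∩ (R₁ ∪ R₂)) \ β₁).card ≤ b) :
    MSt G b X (D₁ ∪ D₂) β₁ (Y₁ ∪ Y₂) ((R₁ ∪ R₂) \ (Y₁ ∪ Y₂)) (Z₁ ∪ Z₂) := by
  have hb1 := t1.root_sub
  have hb2 := t2.root_sub
  have hR1 := s1.RD
  have hR2 := s2.RD
  have hY1 := s1.YD
  have hY2 := s2.YD
  have key : ∀ v, (v ∈ R₁ → v ∈ D₁) ∧ (v ∈ R₂ → v ∈ D₂) ∧ (v ∈ Y₁ → v ∈ D₁) ∧
      (v ∈ Y₂ → v ∈ D₂) ∧ (v ∈ D₁ → v ∈ D₂ → v ∈ β₁ ∧ v ∈ β₂) ∧ (v ∈ β₁ → v ∈ D₁) ∧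
      (v ∈ β₂ → v ∈ D₂) ∧ (v ∈ Z₁ → v ∈ Y₁) ∧ (v ∈ Z₂ → v ∈ Y₂) ∧
      (v ∈ R₁ → v ∉ Y₁) ∧ (v ∈ R₂ → v ∉ Y₂) ∧ (v ∈ β₁ → v ∉ Y₁ → v ∈ R₁) ∧
      (v ∈ β₂ → v ∉ Y₂ → v ∈ R₂) ∧ (v ∈ β₁ → v ∈ Y₁ → v ∈ Z₁) ∧
      (v ∈ β₂ → v ∈ Y₂ → v ∈ Z₂) := fun v =>
    ⟨fun h => hR1 h, fun h => hR2 h, fun h => hY1 h, fun h => hY2 h,
      fun h h' => mem_inter.mp (h3 (mem_inter.mpr ⟨h, h'⟩)), fun h => hb1 h, fun h => hb2 h,
      fun h => s1.ZY h, fun h => s2.ZY h, fun h => disjoint_left.mp s1.RY h,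
      fun h => disjoint_left.mp s2.RY h, s1.bR v, s2.bR v, s1.bZ v, s2.bZ v⟩
  refine ⟨?_, union_subset_union hY1 hY2, union_subset_union s1.ZY s2.ZY, sdiff_disjoint, ?_, ?_,
    ?_, ?_, ?_, ?_, ?_⟩
  · exact sdiff_subset.trans (union_subset_union hR1 hR2)
  · intro v hv h
    simp only [mem_union, mem_sdiff, not_or] at h ⊢
    exact ⟨Or.inl (s1.bR v hv h.1), h⟩
  · intro v hv h
    obtain ⟨k1, k2, k3, k4, k5, k6, k7, k8, k9, k10, k11, k12, k13, k14, k15⟩ := key v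
    simp only [mem_union, mem_sdiff] at h ⊢
    rcases h with h | h
    · exact Or.inl (k14 hv h)
    · exact Or.inr (k15 (k5 (k6 hv) (k4 h)).2 h)
  · rcases hm with ⟨_, h, _⟩ | ⟨_, h, _⟩
    · rw [h, empty_union]; exact s2.Zc
    · rw [h, union_empty]; exact s1.Zc
  · intro v hv u hu huv
    obtain ⟨k1, k2, k3, k4, k5, k6, k7, k8, k9, k10, k11, k12, k13, k14, k15⟩ := key v
    obtain ⟨l1, l2, l3, l4, l5, l6, l7, l8, l9, l10, l11, l12, l13, l14, l15⟩ := key u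
    have q1 : v ∈ R₁ → u ∈ D₁ → u ∈ R₁ ∨ u ∈ Z₁ := fun h h' => mem_union.mp (s1.cl v h u h' huv)
    have q2 : v ∈ R₂ → u ∈ D₂ → u ∈ R₂ ∨ u ∈ Z₂ := fun h h' => mem_union.mp (s2.cl v h u h' huv)
    have q3 : v ∈ D₁ → v ∉ D₂ → u ∈ D₂ → u ∉ D₁ → False := fun a b c d =>
      h4 v (mem_sdiff.mpr ⟨a, b⟩) u (mem_sdiff.mpr ⟨c, d⟩) huv
    have q4 : v ∈ D₂ → v ∉ D₁ → u ∈ D₁ → u ∉ D₂ → False := fun a b c d =>
      h4 u (mem_sdiff.mpr ⟨c, d⟩) v (mem_sdiff.mpr ⟨a, b⟩) huv.symm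
    simp only [mem_union, mem_sdiff] at hv hu ⊢
    obtain ⟨hv1, hv2⟩ := hv
    have hvY1 : v ∉ Y₁ := fun h => hv2 (Or.inl h)
    have hvY2 : v ∉ Y₂ := fun h => hv2 (Or.inr h)
    -- `u ∈ R₁ ∪ Z₁` or `u ∈ R₂ ∪ Z₂`
    have main : (u ∈ R₁ ∨ u ∈ Z₁) ∨ (u ∈ R₂ ∨ u ∈ Z₂) := by
      by_cases a1 : v ∈ R₁
      · by_cases a2 : u ∈ D₁
        · exact Or.inl (q1 a1 a2)
        · have a3 : u ∈ D₂ := hu.resolve_left a2
          by_cases a4 : v ∈ D₂
          · have := k5 (k1 a1) a4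
            exact Or.inr (q2 (k13 this.2 hvY2) a3)
          · exact (q3 (k1 a1) a4 a3 a2).elim
      · have a1' : v ∈ R₂ := hv1.resolve_left a1
        by_cases a2 : u ∈ D₂
        · exact Or.inr (q2 a1' a2)
        · have a3 : u ∈ D₁ := hu.resolve_right a2
          by_cases a4 : v ∈ D₁
          · have := k5 a4 (k2 a1')
            exact absurd (k12 this.1 hvY1) a1
          · exact (q4 (k2 a1') a4 a3 a2).elim
    by_cases b1 : u ∈ Y₁
    · by_cases c1 : u ∈ Z₁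
      · exact Or.inr (Or.inl c1)
      · -- `u ∈ Y₁`, so `u ∉ R₁`; hence in `R₂ ∪ Z₂ ⊆ D₂`
        have c2 : u ∈ D₂ := by
          rcases main with (h | h) | (h | h)
          · exact absurd b1 (l10 h)
          · exact absurd h c1
          · exact l2 h
          · exact l4 (l9 h)
        exact Or.inr (Or.inl (l14 (l5 (l3 b1) c2).1 b1))
    · by_cases b2 : u ∈ Y₂
      · by_cases c1 : u ∈ Z₂
        · exact Or.inr (Or.inr c1)
        · have c2 : u ∈ D₁ := by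
            rcases main with (h | h) | (h | h)
            · exact l1 h
            · exact l3 (l8 h)
            · exact absurd b2 (l11 h)
            · exact absurd h c1
          exact Or.inr (Or.inr (l15 (l5 c2 (l4 b2)).2 b2))
      · rcases main with (h | h) | (h | h)
        · exact Or.inl ⟨Or.inl h, fun h' => h'.elim b1 b2⟩
        · exact Or.inr (Or.inl h)
        · exact Or.inl ⟨Or.inr h, fun h' => h'.elim b1 b2⟩
        · exact Or.inr (Or.inr h)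
  · intro U hU hUD hd
    have hUD' : U ⊆ D₁ ∪ D₂ := hUD.trans sdiff_subset
    have hUY : ∀ v ∈ U, v ∉ Y₁ ∧ v ∉ Y₂ := by
      intro v hv
      have := hUD hv
      simp only [mem_sdiff, mem_union] at this
      tauto
    have hUR : ∀ v ∈ U, v ∉ R₁ ∧ v ∉ R₂ := by
      intro v hv
      have h1 := disjoint_left.mp hd hv
      have h2 := hUY v hv
      simp only [mem_sdiff, mem_union, not_and] at h1
      exact ⟨fun h => h1 (Or.inl h) (fun h' => h'.elim h2.1 h2.2),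
        fun h => h1 (Or.inr h) (fun h' => h'.elim h2.1 h2.2)⟩
    have hd' : Disjoint U (D₁ ∩ D₂) := by
      rw [disjoint_left]
      intro v hv hv'
      have := (mem_inter.mp (h3 hv')).1
      exact (hUR v hv).1 (s1.bR v this (hUY v hv).1)
    rcases one_side hU hUD' hd' h4 with h | h
    · refine s1.cov U hU ?_ ?_
      · intro v hv
        rw [mem_sdiff]
        exact ⟨(mem_sdiff.mp (h hv)).1, (hUY v hv).1⟩
      · rw [disjoint_left]
        intro v hv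
        exact (hUR v hv).1
    · refine s2.cov U hU ?_ ?_
      · intro v hv
        rw [mem_sdiff]
        exact ⟨(mem_sdiff.mp (h hv)).1, (hUY v hv).2⟩
      · rw [disjoint_left]
        intro v hv
        exact (hUR v hv).2
  · refine (card_le_card ?_).trans hN
    intro v hv
    simp only [mem_sdiff, mem_inter, mem_union] at hv ⊢
    tauto
  · rcases hm with ⟨m1, m2, m3⟩ | ⟨m1, m2, m3⟩
    · rcases s2.cnt with ⟨n1, n2, n3⟩ | hn
      · left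
        rw [m1, m2, m3, n1, n2, n3]
        simp
      · right
        rw [m1, empty_union]
        refine hn.trans (Nat.mul_le_mul_left _ (card_le_card ?_))
        intro v hv
        obtain ⟨k1, k2, k3, k4, k5, k6, k7, k8, k9, k10, k11, k12, k13, k14, k15⟩ := key v
        simp only [mem_sdiff, mem_inter, mem_union] at hv ⊢
        refine ⟨⟨hv.1.1, Or.inr hv.1.2⟩, ?_⟩
        rintro (⟨h | h, _⟩ | h)
        · exact hv.2 (Or.inr (k5 (k1 h) hv.1.2).2)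
        · exact hv.2 (Or.inl h)
        · exact hv.2 (Or.inr (k5 (k6 h) hv.1.2).2)
    · rcases s1.cnt with ⟨n1, n2, n3⟩ | hn
      · left
        rw [m1, m2, m3, n1, n2, n3]
        simp
      · right
        rw [m1, union_empty]
        refine hn.trans (Nat.mul_le_mul_left _ (card_le_card ?_))
        intro v hv
        obtain ⟨k1, k2, k3, k4, k5, k6, k7, k8, k9, k10, k11, k12, k13, k14, k15⟩ := key v
        simp only [mem_sdiff, mem_inter, mem_union] at hv ⊢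
        refine ⟨⟨hv.1.1, Or.inl hv.1.2⟩, ?_⟩
        rintro (⟨h | h, _⟩ | h)
        · exact hv.2 (Or.inl h)
        · exact hv.2 (Or.inr (k5 hv.1.2 (k2 h)).1)
        · exact hv.2 (Or.inr h)

end glue

theorem exists_state {b : ℕ} {X D β : Finset V} (hT : TD G b D β) :
    (∀ v ∈ D, v ∉ β → v ∉ X → ∀ u, G.Adj v u → u ∈ D) → ∃ Y R Z, MSt G b X D β Y R Z := by
  induction hT with
  | leaf β _ => intro _; exact ⟨∅, β, ∅, MSt.leaf⟩
  | glue D₁ β₁ D₂ β₂ t1 t2 h3 h4 ih1 ih2 =>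
    intro inner
    obtain ⟨Y₁, R₁, Z₁, s1⟩ := ih1 (inner_left h3 h4 inner)
    obtain ⟨Y₂, R₂, Z₂, s2⟩ := ih2 (inner_right t1.root_sub h3 h4 inner)
    by_cases hN : ((X ∩ (R₁ ∪ R₂)) \ β₁).card ≤ b
    · rcases s1.cnt with m1 | m1
      · exact ⟨_, _, _, s1.merge s2 t1 t2 h3 h4 (Or.inl m1) hN⟩
      · rcases s2.cnt with m2 | m2
        · exact ⟨_, _, _, s1.merge s2 t1 t2 h3 h4 (Or.inr m2) hN⟩
        · exact ⟨_, _, _, s1.mark s2 t1 t2 h3 h4 inner (Or.inl ⟨m1, m2⟩)⟩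
    · push Not at hN
      exact ⟨_, _, _, s1.mark s2 t1 t2 h3 h4 inner (Or.inr hN.le)⟩

/-- **Counting lemma**: a set of small treewidth whose boundary is `X` contains at most `2|X|`
pairwise disjoint complex sets. -/
theorem count_complex {b : ℕ} {D X : Finset V} (_hD : Disjoint D X) (hs : Sepr G D X)
    (hT : TW G b (D ∪ X)) (F : Finset (Finset V))
    (hF : ∀ U ∈ F, U ⊆ D ∪ X ∧ Conn G U ∧ ¬ Cov G b U (3 * b))
    (hdis : ∀ U ∈ F, ∀ W ∈ F, U ≠ W → Disjoint U W) : F.card ≤ 2 * X.card := by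
  obtain ⟨β, hT⟩ := hT
  have inner : ∀ v ∈ D ∪ X, v ∉ β → v ∉ X → ∀ u, G.Adj v u → u ∈ D ∪ X := by
    intro v hv _ hvX u huv
    exact hs v ((mem_union.mp hv).resolve_right hvX) u huv
  obtain ⟨Y, R, Z, s⟩ := exists_state hT inner
  have hc := s.covered hT inner
  have hit : ∀ U ∈ F, ∃ x, x ∈ U ∧ x ∈ Y := by
    intro U hU
    obtain ⟨h1, h2, h3⟩ := hF U hU
    by_contra hcon
    push Not at hcon
    exact h3 (hc U h2 (fun x hx => mem_sdiff.mpr ⟨h1 hx, hcon x hx⟩))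
  have hY : Y.card ≤ 2 * X.card := by
    rcases s.cnt with ⟨h, _⟩ | h
    · rw [h]; simp
    · have : ((X ∩ (D ∪ X)) \ (R ∪ β)).card ≤ X.card :=
        card_le_card (sdiff_subset.trans inter_subset_left)
      omega
  refine le_trans ?_ hY
  choose f hf1 hf2 using hit
  have hinj : Function.Injective (fun U : F => f U.1 U.2) := by
    rintro ⟨U, hU⟩ ⟨W, hW⟩ h
    by_contra hne
    have hne' : U ≠ W := fun h' => hne (by subst h'; rfl)
    have h' : f U hU = f W hW := h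
    exact (disjoint_left.mp (hdis U hU W hW hne')) (hf1 U hU) (h' ▸ hf1 W hW)
  have := Finset.card_le_card_of_injOn (s := F.attach) (t := Y) (fun U => f U.1 U.2)
    (fun U _ => hf2 U.1 U.2) (hinj.injOn)
  rwa [card_attach] at this

/-- marked vertices: a set of small treewidth with boundary `X` contains at most `2|X|` vertices
hitting all complex sets -/
theorem exists_marks {b : ℕ} {D X : Finset V} (hs : Sepr G D X) (hT : TW G b (D ∪ X)) :
    ∃ Y ⊆ D ∪ X, Y.card ≤ 2 * X.card ∧ ∀ U, Conn G U → U ⊆ (D ∪ X) \ Y → Cov G b U (3 * b) := by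
  obtain ⟨β, hT⟩ := hT
  have inner : ∀ v ∈ D ∪ X, v ∉ β → v ∉ X → ∀ u, G.Adj v u → u ∈ D ∪ X := by
    intro v hv _ hvX u huv
    exact hs v ((mem_union.mp hv).resolve_right hvX) u huv
  obtain ⟨Y, R, Z, s⟩ := exists_state hT inner
  refine ⟨Y, s.YD, ?_, s.covered hT inner⟩
  rcases s.cnt with ⟨h, _⟩ | h
  · rw [h]; simp
  · have : ((X ∩ (D ∪ X)) \ (R ∪ β)).card ≤ X.card :=
      card_le_card (sdiff_subset.trans inter_subset_left)
    omega

end Pool.Agent.H66TW
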