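import Pool.Agent.Lib.H66TW.TD

/-!
# The hypercube: degree, edge expansion and the big connected part avoiding a small set
(project MP_14fa4b_co)
-/

set_option autoImplicit false

namespace Pool.Agent.H66TW

open Finset

/-- flip the coordinate `i` -/
def flip {d : ℕ} (i : Fin d) (x : Fin d → Bool) : Fin d → Bool := Function.update x i (!x i)

theorem flip_flip {d : ℕ} (i : Fin d) (x : Fin d → Bool) : flip i (flip i x) = x := by
  unfold flip
  funext j
  by_cases h : j = i
  · subst h; simp
  · simp [Function.update_of_ne h]

theorem flip_ne {d : ℕ} (i : Fin d) (x : Fin d → Bool) : flip i x ≠ x := by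
  intro h
  have := congrFun h i
  simp [flip] at this

theorem flip_injective {d : ℕ} (i : Fin d) : Function.Injective (flip i) := by
  intro x y h
  rw [← flip_flip i x, h, flip_flip]

/-- the hypercube of dimension `d` -/
def cube (d : ℕ) : SimpleGraph (Fin d → Bool) where
  Adj x y := ∃ i, flip i x = y
  symm := ⟨by
    rintro x y ⟨i, h⟩
    exact ⟨i, by rw [← h, flip_flip]⟩⟩
  loopless := ⟨by
    rintro x ⟨i, h⟩
    exact flip_ne i x h⟩

theorem cube_adj {d : ℕ} {x y : Fin d → Bool} : (cube d).Adj x y ↔ ∃ i, flip i x = y := Iff.rfl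

theorem cube_degree (d : ℕ) (x : Fin d → Bool) :
    ∃ N : Finset (Fin d → Bool), N.card ≤ d ∧ ∀ y, (cube d).Adj x y → y ∈ N := by
  refine ⟨univ.image (fun i => flip i x), ?_, ?_⟩
  · refine card_image_le.trans ?_
    simp
  · rintro y ⟨i, h⟩
    exact mem_image.mpr ⟨i, mem_univ _, h⟩

/-- number of edges leaving `S` -/
def bd {d : ℕ} (S : Finset (Fin d → Bool)) : ℕ :=
  ∑ i, (S.filter (fun x => flip i x ∉ S)).card

/-- the part of `S` with first coordinate `b` -/
def slice {d : ℕ} (b : Bool) (S : Finset (Fin (d + 1) → Bool)) : Finset (Fin d → Bool) :=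
  univ.filter (fun y => (Fin.cons b y : Fin (d + 1) → Bool) ∈ S)

theorem mem_slice {d : ℕ} {b : Bool} {S : Finset (Fin (d + 1) → Bool)} {y : Fin d → Bool} :
    y ∈ slice b S ↔ (Fin.cons b y : Fin (d + 1) → Bool) ∈ S := by
  simp [slice]

theorem card_filter_cons {d : ℕ} (p : (Fin (d + 1) → Bool) → Prop) [DecidablePred p] :
    (univ.filter p).card = (univ.filter (fun y : Fin d → Bool => p (Fin.cons true y))).card +
      (univ.filter (fun y : Fin d → Bool => p (Fin.cons false y))).card := by
  rw [card_filter, card_filter, card_filter]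
  rw [← Fintype.sum_equiv (Fin.consEquiv (fun _ : Fin (d + 1) => Bool))
    (fun z : Bool × (Fin d → Bool) => if p (Fin.cons z.1 z.2) then 1 else 0) _ (fun z => rfl)]
  rw [Fintype.sum_prod_type, Fintype.sum_bool]

theorem card_slice {d : ℕ} (S : Finset (Fin (d + 1) → Bool)) :
    S.card = (slice true S).card + (slice false S).card := by
  have h := card_filter_cons (fun x => x ∈ S)
  have e : univ.filter (fun x => x ∈ S) = S := by
    ext x; simp
  rw [e] at h
  exact h

theorem flip_cons_zero {d : ℕ} (b : Bool) (y : Fin d → Bool) :
    flip 0 (Fin.cons b y : Fin (d + 1) → Bool) = Fin.cons (!b) y := by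
  unfold flip
  rw [Fin.cons_zero, Fin.update_cons_zero]

theorem flip_cons_succ {d : ℕ} (b : Bool) (y : Fin d → Bool) (i : Fin d) :
    flip i.succ (Fin.cons b y : Fin (d + 1) → Bool) = Fin.cons b (flip i y) := by
  unfold flip
  rw [Fin.cons_succ, Fin.cons_update]

theorem bd_slice {d : ℕ} (S : Finset (Fin (d + 1) → Bool)) :
    bd S = (slice true S \ slice false S).card + (slice false S \ slice true S).card +
      (bd (slice true S) + bd (slice false S)) := by
  unfold bd
  rw [Fin.sum_univ_succ, ← sum_add_distrib]
  congr 1
  · have h := card_filter_cons (fun x => x ∈ S ∧ flip 0 x ∉ S)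
    have e : S.filter (fun x => flip 0 x ∉ S) = univ.filter (fun x => x ∈ S ∧ flip 0 x ∉ S) := by
      ext x; simp
    rw [e, h]
    congr 1
    · congr 1
      ext y
      simp [mem_slice, flip_cons_zero]
    · congr 1
      ext y
      simp [mem_slice, flip_cons_zero]
  · apply sum_congr rfl
    intro i _
    have h := card_filter_cons (fun x => x ∈ S ∧ flip i.succ x ∉ S)
    have e : S.filter (fun x => flip i.succ x ∉ S) =
        univ.filter (fun x => x ∈ S ∧ flip i.succ x ∉ S) := by
      ext x; simp
    rw [e, h]
    congr 1
    · congr 1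
      ext y
      simp [mem_slice, flip_cons_succ]
    · congr 1
      ext y
      simp [mem_slice, flip_cons_succ]

/-- edge expansion of the hypercube -/
theorem cube_expansion : ∀ (d : ℕ) (S : Finset (Fin d → Bool)),
    min S.card (2 ^ d - S.card) ≤ bd S := by
  intro d
  induction d with
  | zero =>
    intro S
    have h : S.card ≤ 1 := by
      have := card_le_univ S
      simpa using this
    have : min S.card (2 ^ 0 - S.card) = 0 := by omega
    rw [this]
    exact Nat.zero_le _
  | succ d ih =>
    intro S
    have h1 := ih (slice true S)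
    have h2 := ih (slice false S)
    have h3 := card_slice S
    have h4 := bd_slice S
    have h5 : (slice true S).card ≤ 2 ^ d := by
      have := card_le_univ (slice true S)
      simpa using this
    have h6 : (slice false S).card ≤ 2 ^ d := by
      have := card_le_univ (slice false S)
      simpa using this
    have h7 := le_card_sdiff (slice false S) (slice true S)
    have h8 := le_card_sdiff (slice true S) (slice false S)
    have h9 : 2 ^ (d + 1) = 2 * 2 ^ d := by ring
    omega

/-- the edges between a closed set avoiding `X` and `X`, when connected sets avoiding `X`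
are small -/
theorem closed_bound {d : ℕ} (X : Finset (Fin d → Bool))
    (hsmall : ∀ C : Finset (Fin d → Bool), Disjoint C X → Conn (cube d) C → 2 * C.card ≤ 2 ^ d) :
    ∀ (n : ℕ) (P : Finset (Fin d → Bool)), P.card ≤ n → Disjoint P X →
      (∀ u ∈ P, ∀ v, v ∉ X → (cube d).Adj u v → v ∈ P) →
      P.card ≤ ∑ i, (P.filter (fun x => flip i x ∈ X)).card := by
  intro n
  induction n with
  | zero =>
    intro P hP _ _
    omega
  | succ n ih =>
    intro P hP hdis hcl
    rcases P.eq_empty_or_nonempty with rfl | hne
    · simp
    by_cases hconn : Conn (cube d) P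
    · have h1 := hsmall P hdis hconn
      have h2 := cube_expansion d P
      have h3 : min P.card (2 ^ d - P.card) = P.card := by omega
      rw [h3] at h2
      refine h2.trans ?_
      apply sum_le_sum
      intro i _
      apply card_le_card
      intro x hx
      rw [mem_filter] at hx ⊢
      refine ⟨hx.1, ?_⟩
      by_contra hX
      exact hx.2 (hcl x hx.1 _ hX ⟨i, rfl⟩)
    · have h1 : ∃ T ⊆ P, T.Nonempty ∧ (∀ u ∈ T, ∀ v ∈ P \ T, ¬ (cube d).Adj u v) ∧ T ≠ P := by
        unfold Conn at hconn
        push Not at hconn
        obtain ⟨T, h1, h2, h3, h4⟩ := hconn hne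
        exact ⟨T, h1, h2, h3, h4⟩
      obtain ⟨T, hT, hTne, hTcl, hTP⟩ := h1
      have hlt : T.card < P.card := card_lt_card (Finset.ssubset_iff_subset_ne.mpr ⟨hT, hTP⟩)
      have hsum : (P \ T).card + T.card = P.card := card_sdiff_add_card_eq_card hT
      have hTpos : 0 < T.card := card_pos.mpr hTne
      have i1 := ih T (by omega) (disjoint_of_subset_left hT hdis) (by
        intro u hu v hv huv
        have hvP := hcl u (hT hu) v hv huv
        by_contra hvT
        exact hTcl u hu v (mem_sdiff.mpr ⟨hvP, hvT⟩) huv)
      have i2 := ih (P \ T) (by omega) (disjoint_of_subset_left sdiff_subset hdis) (by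
        intro u hu v hv huv
        rw [mem_sdiff] at hu
        have hvP := hcl u hu.1 v hv huv
        rw [mem_sdiff]
        refine ⟨hvP, fun hvT => ?_⟩
        exact hTcl v hvT u (mem_sdiff.mpr hu) huv.symm)
      have e : ∑ i, (P.filter (fun x => flip i x ∈ X)).card =
          ∑ i, (T.filter (fun x => flip i x ∈ X)).card +
          ∑ i, ((P \ T).filter (fun x => flip i x ∈ X)).card := by
        rw [← sum_add_distrib]
        apply sum_congr rfl
        intro i _
        rw [← card_union_of_disjoint]
        · congr 1
          rw [← filter_union, union_sdiff_of_subset hT]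
        · exact disjoint_filter_filter disjoint_sdiff
      rw [e]
      omega

/-- **A small set cannot destroy the hypercube**: some connected set avoiding `X` has more than
half of the vertices. -/
theorem cube_bramble (d t : ℕ) (h : (d + 1) * t < 2 ^ d) (X : Finset (Fin d → Bool))
    (hX : X.card ≤ t) : ∃ C, Disjoint C X ∧ Conn (cube d) C ∧ 2 ^ d < 2 * C.card := by
  by_contra hcon
  push Not at hcon
  have h1 := closed_bound X hcon (univ \ X).card (univ \ X) le_rfl disjoint_sdiff_self_left (by
    intro u _ v hv _
    simpa using hv)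
  have h2 : ∑ i, ((univ \ X).filter (fun x => flip i x ∈ X)).card ≤ ∑ _i : Fin d, X.card := by
    apply sum_le_sum
    intro i _
    apply card_le_card_of_injOn (flip i)
    · intro x hx
      have := (mem_filter.mp (Finset.mem_coe.mp hx)).2
      exact this
    · exact (flip_injective i).injOn
  rw [sum_const, card_univ, Fintype.card_fin, smul_eq_mul] at h2
  have h3 : (univ \ X).card = 2 ^ d - X.card := by
    rw [card_univ_sdiff]
    simp
  have h4 : d * X.card + X.card ≤ (d + 1) * t := by
    calc d * X.card + X.card = (d + 1) * X.card := by ring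
      _ ≤ (d + 1) * t := Nat.mul_le_mul_left _ hX
  omega

end Pool.Agent.H66TW
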