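import Pool.Agent.Lib.H66TW.Pack

/-!
# Minimum hitting sets of complex sets
-/

set_option autoImplicit false

namespace Pool.Agent.H66TW

open Finset

variable {V : Type*} [DecidableEq V] {G : SimpleGraph V}

/-- `Y` meets every complex subset of `A` -/
def Hits (G : SimpleGraph V) (b : ℕ) (A Y : Finset V) : Prop :=
  ∀ U ⊆ A, Cpx G b U → (U ∩ Y).Nonempty

/-- least size of a hitting set -/
noncomputable def tau (G : SimpleGraph V) (b : ℕ) (A : Finset V) : ℕ :=
  sInf {n | ∃ Y ⊆ A, Hits G b A Y ∧ Y.card = n}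

theorem exists_tau (G : SimpleGraph V) (b : ℕ) (A : Finset V) :
    ∃ Y ⊆ A, Hits G b A Y ∧ Y.card = tau G b A := by
  have hne : {n | ∃ Y ⊆ A, Hits G b A Y ∧ Y.card = n}.Nonempty := by
    refine ⟨A.card, A, Subset.refl _, ?_, rfl⟩
    intro U hU hc
    rw [inter_eq_left.mpr hU]
    exact hc.1.1
  exact Nat.sInf_mem hne

theorem tau_le {b : ℕ} {A Y : Finset V} (h : Hits G b A Y) : tau G b A ≤ Y.card := by
  refine (Nat.sInf_le (m := (Y ∩ A).card) ?_).trans (card_le_card inter_subset_left)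
  refine ⟨Y ∩ A, inter_subset_right, ?_, rfl⟩
  intro U hU hc
  obtain ⟨x, hx⟩ := h U hU hc
  rw [mem_inter] at hx
  exact ⟨x, mem_inter.mpr ⟨hx.1, mem_inter.mpr ⟨hx.2, hU hx.1⟩⟩⟩

theorem tau_empty (b : ℕ) : tau G b ∅ = 0 := by
  have := tau_le (G := G) (b := b) (A := ∅) (Y := ∅) (by
    intro U hU hc
    obtain ⟨x, hx⟩ := hc.1.1
    exact absurd (hU hx) (notMem_empty x))
  simpa using this

theorem tau_le_add {b : ℕ} {S S₁ S₂ X : Finset V}
    (h : ∀ U, Conn G U → U ⊆ S → Disjoint U X → U ⊆ S₁ ∨ U ⊆ S₂) :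
    tau G b S ≤ tau G b S₁ + tau G b S₂ + X.card := by
  obtain ⟨Y₁, _, h1, c1⟩ := exists_tau G b S₁
  obtain ⟨Y₂, _, h2, c2⟩ := exists_tau G b S₂
  have : Hits G b S (Y₁ ∪ Y₂ ∪ X) := by
    intro U hU hc
    by_cases hd : Disjoint U X
    · rcases h U hc.1 hU hd with h' | h'
      · obtain ⟨x, hx⟩ := h1 U h' hc
        refine ⟨x, ?_⟩
        simp only [mem_inter, mem_union] at hx ⊢
        exact ⟨hx.1, Or.inl (Or.inl hx.2)⟩
      · obtain ⟨x, hx⟩ := h2 U h' hc
        refine ⟨x, ?_⟩
        simp only [mem_inter, mem_union] at hx ⊢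
        exact ⟨hx.1, Or.inl (Or.inr hx.2)⟩
    · rw [not_disjoint_iff] at hd
      obtain ⟨x, hx, hx'⟩ := hd
      exact ⟨x, mem_inter.mpr ⟨hx, mem_union_right _ hx'⟩⟩
  have h3 := tau_le this
  have h4 := card_union_le (Y₁ ∪ Y₂) X
  have h5 := card_union_le Y₁ Y₂
  omega

theorem tau_sdiff {b : ℕ} (S X : Finset V) : tau G b S ≤ tau G b (S \ X) + X.card := by
  have := tau_le_add (G := G) (b := b) (S := S) (S₁ := S \ X) (S₂ := ∅) (X := X) (by
    intro U _ hU hd
    left
    intro x hx
    rw [mem_sdiff]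
    exact ⟨hU hx, disjoint_left.mp hd hx⟩)
  rw [tau_empty] at this
  omega

/-- regions inside a tree decomposition, for an abstract measure `μ` -/
theorem exists_region_aux' {w M : ℕ} {D β : Finset V} (μ : Finset V → ℕ) (μ0 : μ ∅ = 0)
    (μadd : ∀ S S₁ S₂ X : Finset V, (∀ U, Conn G U → U ⊆ S → Disjoint U X → U ⊆ S₁ ∨ U ⊆ S₂) →
      μ S ≤ μ S₁ + μ S₂ + X.card) (hT : TD G w D β) :
    μ (D \ β) < M ∨ ∃ A B : Finset V, A ⊆ D \ β ∧ Disjoint A B ∧ B.card ≤ w ∧
      (∀ v ∈ A, ∀ u ∈ D, G.Adj v u → u ∈ A ∪ B) ∧ M ≤ μ A ∧ μ A ≤ 2 * M + w := by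
  induction hT with
  | leaf β h =>
    rcases Nat.eq_zero_or_pos M with hM | hM
    · right
      refine ⟨∅, ∅, by simp, by simp, by simp, by simp, by omega, ?_⟩
      rw [μ0]; omega
    · left
      rw [sdiff_self, bot_eq_empty, μ0]
      exact hM
  | glue D₁ β₁ D₂ β₂ t1 t2 h3 h4 ih1 ih2 =>
    have hb1 := t1.root_sub
    have hb2 := t2.root_sub
    rcases ih1 with i1 | ⟨A, B, a1, a2, a3, a4, a5, a6⟩
    · rcases ih2 with i2 | ⟨A, B, a1, a2, a3, a4, a5, a6⟩
      · by_cases hlt : μ ((D₁ ∪ D₂) \ β₁) < M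
        · exact Or.inl hlt
        · right
          refine ⟨(D₁ ∪ D₂) \ β₁, β₁, Subset.refl _, sdiff_disjoint, t1.root_card, ?_,
            not_lt.mp hlt, ?_⟩
          · intro v _ u hu _
            simp only [mem_union, mem_sdiff] at hu ⊢
            by_cases h : u ∈ β₁
            · exact Or.inr h
            · exact Or.inl ⟨hu, h⟩
          · have := μadd ((D₁ ∪ D₂) \ β₁) (D₁ \ β₁) (D₂ \ β₂) β₂ (by
                intro U hU hUS hd
                have hUb : ∀ v ∈ U, v ∉ β₁ := fun v hv => (mem_sdiff.mp (hUS hv)).2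
                have hd' : Disjoint U (D₁ ∩ D₂) := by
                  rw [disjoint_left]
                  intro v hv hv'
                  exact hUb v hv (mem_inter.mp (h3 hv')).1
                rcases one_side hU (hUS.trans sdiff_subset) hd' h4 with h | h
                · left
                  intro v hv
                  exact mem_sdiff.mpr ⟨(mem_sdiff.mp (h hv)).1, hUb v hv⟩
                · right
                  intro v hv
                  exact mem_sdiff.mpr ⟨(mem_sdiff.mp (h hv)).1, disjoint_left.mp hd hv⟩)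
            have h5 := t2.root_card
            omega
      · right
        refine ⟨A, B, ?_, a2, a3, ?_, a5, a6⟩
        · intro v hv
          have := mem_sdiff.mp (a1 hv)
          rw [mem_sdiff]
          exact ⟨mem_union_right _ this.1, fun h =>
            this.2 (mem_inter.mp (h3 (mem_inter.mpr ⟨hb1 h, this.1⟩))).2⟩
        · intro v hv u hu huv
          have hv2 := mem_sdiff.mp (a1 hv)
          have hv1 : v ∉ D₁ := fun h =>
            hv2.2 (mem_inter.mp (h3 (mem_inter.mpr ⟨h, hv2.1⟩))).2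
          by_cases hu2 : u ∈ D₂
          · exact a4 v hv u hu2 huv
          · exfalso
            have hu1 := (mem_union.mp hu).resolve_right hu2
            exact h4 u (mem_sdiff.mpr ⟨hu1, hu2⟩) v (mem_sdiff.mpr ⟨hv2.1, hv1⟩) huv.symm
    · right
      refine ⟨A, B, ?_, a2, a3, ?_, a5, a6⟩
      · intro v hv
        have := mem_sdiff.mp (a1 hv)
        exact mem_sdiff.mpr ⟨mem_union_left _ this.1, this.2⟩
      · intro v hv u hu huv
        have hv1 := mem_sdiff.mp (a1 hv)
        have hv2 : v ∉ D₂ := fun h =>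
          hv1.2 (mem_inter.mp (h3 (mem_inter.mpr ⟨hv1.1, h⟩))).1
        by_cases hu1 : u ∈ D₁
        · exact a4 v hv u hu1 huv
        · exfalso
          have hu2 := (mem_union.mp hu).resolve_left hu1
          exact h4 v (mem_sdiff.mpr ⟨hv1.1, hv2⟩) u (mem_sdiff.mpr ⟨hu2, hu1⟩) huv

/-- either the whole graph has a small hitting set, or there is a region with a controlled one -/
theorem exists_region_tau [Fintype V] {w : ℕ} (b M : ℕ) (hT : TW G w univ) :
    ∃ A B : Finset V, Disjoint A B ∧ B.card ≤ w ∧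
      (∀ v ∈ A, ∀ u, G.Adj v u → u ∈ A ∪ B) ∧ tau G b A ≤ 2 * M + w ∧
      (M ≤ tau G b A ∨ (A = univ ∧ B = ∅)) := by
  obtain ⟨β, hT⟩ := hT
  rcases exists_region_aux' (M := M) (tau G b) (tau_empty b)
    (fun S S₁ S₂ X h => tau_le_add h) hT with h | ⟨A, B, _, a2, a3, a4, a5, a6⟩
  · refine ⟨univ, ∅, disjoint_empty_right _, by simp, by simp, ?_, Or.inr ⟨rfl, rfl⟩⟩
    have := tau_sdiff (G := G) (b := b) univ β
    have h2 := hT.root_card
    omega
  · exact ⟨A, B, a2, a3, fun v hv u huv => a4 v hv u (mem_univ u) huv, a6, Or.inl a5⟩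

/-- **counting**: a minimum hitting set has at most `3|X|` vertices in a set of small treewidth
with boundary `X` -/
theorem hit_count {b : ℕ} {A Y D X : Finset V} (hH : Hits G b A Y)
    (hmin : Y.card = tau G b A) (hs : Sepr G D X) (hT : TW G b (D ∪ X)) :
    (Y ∩ (D ∪ X)).card ≤ 3 * X.card := by
  obtain ⟨M, _, hMc, hM⟩ := exists_marks hs hT
  have hnew : Hits G b A ((Y \ (D ∪ X)) ∪ (M ∪ X)) := by
    intro U hU hc
    by_contra hcon
    rw [not_nonempty_iff_eq_empty] at hcon
    have hmiss : ∀ x ∈ U, x ∉ Y \ (D ∪ X) ∧ x ∉ M ∧ x ∉ X := by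
      intro x hx
      have : x ∉ (Y \ (D ∪ X)) ∪ (M ∪ X) := by
        intro h
        have := mem_inter.mpr ⟨hx, h⟩
        rw [hcon] at this
        exact notMem_empty x this
      simp only [mem_union, not_or] at this
      exact this
    by_cases hd : (U ∩ D).Nonempty
    · have hUD : U ∩ D = U := by
        refine hc.1.2 _ inter_subset_left hd ?_
        intro u hu v hv huv
        rw [mem_inter] at hu
        rw [mem_sdiff, mem_inter] at hv
        have := hs u hu.2 v huv
        rw [mem_union] at this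
        rcases this with h | h
        · exact hv.2 ⟨hv.1, h⟩
        · exact (hmiss v hv.1).2.2 h
      apply hc.2
      apply hM U hc.1
      intro x hx
      rw [mem_sdiff]
      have hxD : x ∈ D := by
        rw [← hUD] at hx
        exact (mem_inter.mp hx).2
      exact ⟨mem_union_left _ hxD, (hmiss x hx).2.1⟩
    · obtain ⟨x, hx⟩ := hH U hU hc
      rw [mem_inter] at hx
      have h1 := hmiss x hx.1
      apply h1.1
      rw [mem_sdiff, mem_union]
      refine ⟨hx.2, ?_⟩
      rintro (h | h)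
      · exact hd ⟨x, mem_inter.mpr ⟨hx.1, h⟩⟩
      · exact h1.2.2 h
  have h1 := tau_le hnew
  have h2 := card_union_le (Y \ (D ∪ X)) (M ∪ X)
  have h3 := card_union_le M X
  have h4 := card_sdiff_add_card_inter Y (D ∪ X)
  omega

end Pool.Agent.H66TW
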