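import Mathlib

/-!
# Numerics (project MP_14fa4b_co)

Choice of the parameters of the separator argument.
-/

set_option autoImplicit false

namespace Pool.Agent.H66TW

theorem pow24_le (x : ℕ) : x ^ 24 ≤ 48 ^ 24 * 2 ^ x := by
  have h1 : x ≤ 24 * (x / 24 + 1) := by omega
  have h2 : x / 24 + 1 < 2 ^ (x / 24 + 1) := Nat.lt_two_pow_self
  have h3 : 24 * (x / 24 + 1) ≤ x + 24 := by omega
  calc x ^ 24 ≤ (24 * (x / 24 + 1)) ^ 24 := Nat.pow_le_pow_left h1 24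
    _ ≤ (24 * 2 ^ (x / 24 + 1)) ^ 24 := Nat.pow_le_pow_left (Nat.mul_le_mul_left _ h2.le) 24
    _ = 24 ^ 24 * 2 ^ (24 * (x / 24 + 1)) := by
        rw [mul_pow, ← pow_mul, mul_comm (x / 24 + 1) 24]
    _ ≤ 24 ^ 24 * 2 ^ (x + 24) :=
        Nat.mul_le_mul_left _ (Nat.pow_le_pow_right (by norm_num) h3)
    _ = 48 ^ 24 * 2 ^ x := by
        rw [pow_add, show (48 : ℕ) = 24 * 2 by norm_num, mul_pow]
        ring

theorem log_bound : ∃ K : ℕ, ∀ w : ℕ, 1 ≤ w → (Nat.log 2 (66 * w) + 1) ^ 24 ≤ K * w := by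
  refine ⟨48 ^ 24 * 132, ?_⟩
  intro w hw
  have h1 : 2 ^ (Nat.log 2 (66 * w)) ≤ 66 * w := Nat.pow_log_le_self 2 (by omega)
  calc (Nat.log 2 (66 * w) + 1) ^ 24 ≤ 48 ^ 24 * 2 ^ (Nat.log 2 (66 * w) + 1) := pow24_le _
    _ = 48 ^ 24 * 2 * 2 ^ (Nat.log 2 (66 * w)) := by
        rw [pow_succ (2 : ℕ) (Nat.log 2 (66 * w))]
        ring
    _ ≤ 48 ^ 24 * 2 * (66 * w) := Nat.mul_le_mul_left _ h1
    _ = 48 ^ 24 * 132 * w := by ring

theorem bern (l n : ℕ) : l ^ n * (l + n) ≤ l * (l + 1) ^ n := by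
  induction n with
  | zero => simp
  | succ n ih =>
    have h1 : l * (l + (n + 1)) ≤ (l + n) * (l + 1) := by nlinarith
    calc l ^ (n + 1) * (l + (n + 1)) = l ^ n * (l * (l + (n + 1))) := by ring
      _ ≤ l ^ n * ((l + n) * (l + 1)) := Nat.mul_le_mul_left _ h1
      _ = l ^ n * (l + n) * (l + 1) := by ring
      _ ≤ l * (l + 1) ^ n * (l + 1) := Nat.mul_le_mul_right _ ih
      _ = l * (l + 1) ^ (n + 1) := by ring

theorem two_mul_pow_le {l : ℕ} (hl : 1 ≤ l) : 2 * l ^ l ≤ (l + 1) ^ l := by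
  have h1 := bern l l
  have h2 : l * (2 * l ^ l) ≤ l * (l + 1) ^ l := by
    calc l * (2 * l ^ l) = l ^ l * (l + l) := by ring
      _ ≤ _ := h1
  exact Nat.le_of_mul_le_mul_left h2 hl

theorem expo {n m l : ℕ} (hl : 1 ≤ l) (hn : n < 2 ^ m) :
    n * l ^ (l * m) < (l + 1) ^ (l * m) := by
  have h0 : 0 < l ^ (l * m) := Nat.pow_pos hl
  calc n * l ^ (l * m) < 2 ^ m * l ^ (l * m) := Nat.mul_lt_mul_of_pos_right hn h0
    _ = (2 * l ^ l) ^ m := by rw [mul_pow, ← pow_mul]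
    _ ≤ ((l + 1) ^ l) ^ m := Nat.pow_le_pow_left (two_mul_pow_le hl) m
    _ = (l + 1) ^ (l * m) := by rw [← pow_mul]

/-- the constant of the intermediate inequality -/
theorem key {t w s m c q l r : ℕ} (ht : 1 ≤ t) (hr : 1 ≤ r) (hq : 1 ≤ q)
    (hc : c ≤ 4 * t) (hrl : r = l * m) (hlq : l * q ≤ 16 * c * m * (66 * w))
    (hs : s ≤ 64 * t * q)
    (h : 262144 * 285474816 * t ^ 7 * m ^ 3 * w ^ 2 ≤ s ^ 3) :
    8 * c * m * (66 * w) * ((t + 1) * ((t + 1) * (4 * r + 3) + 1)) ≤ q ^ 2 := by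
  have e1 : (t + 1) * ((t + 1) * (4 * r + 3) + 1) ≤ 32 * t ^ 2 * r := by
    have a1 : t + 1 ≤ 2 * t := by omega
    have a2 : (t + 1) * (4 * r + 3) + 1 ≤ 16 * t * r := by
      have : (t + 1) * (4 * r + 3) ≤ 2 * t * (4 * r + 3) := Nat.mul_le_mul_right _ a1
      nlinarith
    calc (t + 1) * ((t + 1) * (4 * r + 3) + 1) ≤ 2 * t * (16 * t * r) := Nat.mul_le_mul a1 a2
      _ = 32 * t ^ 2 * r := by ring
  have e2 : (t + 1) * ((t + 1) * (4 * r + 3) + 1) * q ≤ 512 * t ^ 2 * c * m ^ 2 * (66 * w) := by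
    calc (t + 1) * ((t + 1) * (4 * r + 3) + 1) * q ≤ 32 * t ^ 2 * r * q :=
          Nat.mul_le_mul_right _ e1
      _ = 32 * t ^ 2 * m * (l * q) := by rw [hrl]; ring
      _ ≤ 32 * t ^ 2 * m * (16 * c * m * (66 * w)) := Nat.mul_le_mul_left _ hlq
      _ = 512 * t ^ 2 * c * m ^ 2 * (66 * w) := by ring
  have e3 : 8 * c * m * (66 * w) * ((t + 1) * ((t + 1) * (4 * r + 3) + 1)) * q ≤
      285474816 * t ^ 4 * m ^ 3 * w ^ 2 := by
    calc 8 * c * m * (66 * w) * ((t + 1) * ((t + 1) * (4 * r + 3) + 1)) * q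
        = 8 * c * m * (66 * w) * ((t + 1) * ((t + 1) * (4 * r + 3) + 1) * q) := by ring
      _ ≤ 8 * c * m * (66 * w) * (512 * t ^ 2 * c * m ^ 2 * (66 * w)) :=
          Nat.mul_le_mul_left _ e2
      _ = 17842176 * t ^ 2 * m ^ 3 * w ^ 2 * c ^ 2 := by ring
      _ ≤ 17842176 * t ^ 2 * m ^ 3 * w ^ 2 * (4 * t) ^ 2 :=
          Nat.mul_le_mul_left _ (Nat.pow_le_pow_left hc 2)
      _ = 285474816 * t ^ 4 * m ^ 3 * w ^ 2 := by ring
  have e4 : s ^ 3 ≤ (64 * t * q) ^ 3 := Nat.pow_le_pow_left hs 3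
  have e5 : 262144 * t ^ 3 * (285474816 * t ^ 4 * m ^ 3 * w ^ 2) ≤ 262144 * t ^ 3 * q ^ 3 := by
    calc 262144 * t ^ 3 * (285474816 * t ^ 4 * m ^ 3 * w ^ 2)
        = 262144 * 285474816 * t ^ 7 * m ^ 3 * w ^ 2 := by ring
      _ ≤ s ^ 3 := h
      _ ≤ (64 * t * q) ^ 3 := e4
      _ = 262144 * t ^ 3 * q ^ 3 := by ring
  have e6 : 285474816 * t ^ 4 * m ^ 3 * w ^ 2 ≤ q ^ 3 :=
    Nat.le_of_mul_le_mul_left e5 (by positivity)
  have e7 : 8 * c * m * (66 * w) * ((t + 1) * ((t + 1) * (4 * r + 3) + 1)) * q ≤ q ^ 2 * q := by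
    calc _ ≤ _ := e3
      _ ≤ q ^ 3 := e6
      _ = q ^ 2 * q := by ring
  exact Nat.le_of_mul_le_mul_right e7 hq

theorem cube_large : ∃ C : ℕ, 1 ≤ C ∧ ∀ t w s : ℕ, 1 ≤ t → 1 ≤ w → s ≤ w →
    C * t ^ 8 * w ^ 3 ≤ s ^ 4 →
    262144 * 285474816 * t ^ 7 * (Nat.log 2 (66 * w) + 1) ^ 3 * w ^ 2 ≤ s ^ 3 := by
  obtain ⟨K, hK⟩ := log_bound
  generalize hK1 : (262144 * 285474816 : ℕ) = K1
  refine ⟨K1 ^ 8 * K + 1, by omega, ?_⟩
  intro t w s ht hw hsw hC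
  have hm := hK w hw
  revert hC
  generalize hCe : K1 ^ 8 * K + 1 = C
  generalize Nat.log 2 (66 * w) + 1 = m at hm ⊢
  intro hC
  by_contra hlt
  rw [not_le] at hlt
  have hCpos : 1 ≤ C := by omega
  have a1 : (s ^ 3) ^ 4 < (K1 * t ^ 7 * m ^ 3 * w ^ 2) ^ 4 := Nat.pow_lt_pow_left hlt (by norm_num)
  have a2 : (C * t ^ 8 * w ^ 3) ^ 3 ≤ (s ^ 4) ^ 3 := Nat.pow_le_pow_left hC 3
  have a3 : t ^ 24 * w ^ 8 * (C ^ 3 * w) < t ^ 24 * w ^ 8 * (K1 ^ 4 * t ^ 4 * m ^ 12) := by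
    calc t ^ 24 * w ^ 8 * (C ^ 3 * w) = (C * t ^ 8 * w ^ 3) ^ 3 := by ring
      _ ≤ (s ^ 4) ^ 3 := a2
      _ = (s ^ 3) ^ 4 := by ring
      _ < (K1 * t ^ 7 * m ^ 3 * w ^ 2) ^ 4 := a1
      _ = t ^ 24 * w ^ 8 * (K1 ^ 4 * t ^ 4 * m ^ 12) := by ring
  have a4 : C ^ 3 * w < K1 ^ 4 * t ^ 4 * m ^ 12 := lt_of_mul_lt_mul_left a3 (Nat.zero_le _)
  have a5 : (C ^ 3 * w) ^ 2 < (K1 ^ 4 * t ^ 4 * m ^ 12) ^ 2 :=
    Nat.pow_lt_pow_left a4 (by norm_num)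
  have a6 : C * t ^ 8 ≤ w := by
    have b1 : C * t ^ 8 * w ^ 3 ≤ w * w ^ 3 := by
      calc C * t ^ 8 * w ^ 3 ≤ s ^ 4 := hC
        _ ≤ w ^ 4 := Nat.pow_le_pow_left hsw 4
        _ = w * w ^ 3 := by ring
    exact Nat.le_of_mul_le_mul_right b1 (Nat.pow_pos hw)
  have a7 : C ^ 7 * w ^ 2 < K1 ^ 8 * K * w ^ 2 := by
    calc C ^ 7 * w ^ 2 = C * (C ^ 3 * w) ^ 2 := by ring
      _ < C * (K1 ^ 4 * t ^ 4 * m ^ 12) ^ 2 := Nat.mul_lt_mul_of_pos_left a5 hCpos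
      _ = K1 ^ 8 * m ^ 24 * (C * t ^ 8) := by ring
      _ ≤ K1 ^ 8 * m ^ 24 * w := Nat.mul_le_mul_left _ a6
      _ ≤ K1 ^ 8 * (K * w) * w := Nat.mul_le_mul_right _ (Nat.mul_le_mul_left _ hm)
      _ = K1 ^ 8 * K * w ^ 2 := by ring
  have a8 : C ^ 7 < K1 ^ 8 * K := lt_of_mul_lt_mul_right a7 (Nat.zero_le _)
  have a9 : C ≤ C ^ 7 := Nat.le_self_pow (by norm_num) C
  omega

theorem numerics : ∃ C : ℕ, 1 ≤ C ∧ ∀ t w s : ℕ, 1 ≤ t → 1 ≤ w → 2 * s ≤ w →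
    C * t ^ 8 * w ^ 3 ≤ s ^ 4 →
    ∃ q l r k : ℕ, 1 ≤ q ∧ 1 ≤ l ∧ 8 * (3 * t + 1) * q ≤ s ∧ s + t < w ∧
      66 * w * l ^ r < (l + 1) ^ r ∧ 66 * w ≤ q * 2 ^ k ∧
      (3 * t + 1) * ((t + 1) * ((t + 1) * (4 * r + 3) + 1)) ≤ s ∧
      ∀ S : ℕ, l * q * S ≤ k * (66 * w) * (q + l * ((t + 1) * ((t + 1) * (4 * r + 3) + 1))) →
        4 * (3 * t + 1) * S ≤ q := by
  obtain ⟨C, hC1, hC⟩ := cube_large
  refine ⟨C + 32, by omega, ?_⟩
  intro t w s ht hw hsw hbig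
  have hbig' : C * t ^ 8 * w ^ 3 ≤ s ^ 4 := by
    refine le_trans ?_ hbig
    exact Nat.mul_le_mul_right _ (Nat.mul_le_mul_right _ (by omega))
  have hcube := hC t w s ht hw (by omega) hbig'
  have hw3 : 0 < w ^ 3 := Nat.pow_pos hw
  have ht8 : t ≤ t ^ 8 := Nat.le_self_pow (by norm_num) t
  -- `s` is large
  have hs32 : 32 * t ≤ s := by
    have b0 : 32 * t * w ^ 3 ≤ s * w ^ 3 := by
      calc 32 * t * w ^ 3 ≤ (C + 32) * t ^ 8 * w ^ 3 :=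
            Nat.mul_le_mul_right _ (Nat.mul_le_mul (by omega) ht8)
        _ ≤ s ^ 4 := hbig
        _ = s * s ^ 3 := by ring
        _ ≤ s * w ^ 3 := Nat.mul_le_mul_left _ (Nat.pow_le_pow_left (by omega) 3)
    exact Nat.le_of_mul_le_mul_right b0 hw3
  set m := Nat.log 2 (66 * w) + 1 with hm
  have hm1 : 1 ≤ m := by omega
  have hn : 66 * w < 2 ^ m := Nat.lt_pow_succ_log_self (by norm_num) _
  set c := 3 * t + 1 with hc
  have hc4 : c ≤ 4 * t := by omega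
  have hc1 : 1 ≤ c := by omega
  have hcs : 8 * c ≤ s := by omega
  set q := s / (8 * c) with hq
  have hq1 : 1 ≤ q := (Nat.one_le_div_iff (by omega)).mpr hcs
  have hqs : 8 * c * q ≤ s := Nat.mul_div_le s (8 * c)
  have hqlt : s < 8 * c * (q + 1) := by
    have := Nat.lt_mul_div_succ s (show 0 < 8 * c by omega)
    exact this
  have hsq : s ≤ 64 * t * q := by
    calc s ≤ 8 * c * (q + 1) := hqlt.le
      _ ≤ 8 * (4 * t) * (2 * q) := Nat.mul_le_mul (Nat.mul_le_mul_left _ hc4) (by omega)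
      _ = 64 * t * q := by ring
  have hqle : q ≤ s := by
    calc q = 1 * q := by ring
      _ ≤ 8 * c * q := Nat.mul_le_mul_right _ (by omega)
      _ ≤ s := hqs
  set N := 8 * c * m * (66 * w) with hN
  have hNq : q ≤ N := by
    calc q ≤ w := by omega
      _ = 1 * 1 * (1 * w) := by ring
      _ ≤ 8 * c * m * (66 * w) :=
        Nat.mul_le_mul (Nat.mul_le_mul (by omega) hm1) (Nat.mul_le_mul_right _ (by norm_num))
  set l := N / q + 1 with hl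
  have hl1 : 1 ≤ l := Nat.le_add_left 1 _
  have hlq1 : N < l * q := by
    have := Nat.lt_mul_div_succ N (show 0 < q by omega)
    rw [hl, mul_comm]
    exact this
  have hlq2 : l * q ≤ 2 * N := by
    have := Nat.mul_div_le N q
    calc l * q = q * (N / q) + q := by rw [hl]; ring
      _ ≤ N + N := Nat.add_le_add this hNq
      _ = 2 * N := by ring
  set r := l * m with hr
  have hr1 : 1 ≤ r := Nat.mul_pos hl1 hm1
  have hkey := key (w := w) (s := s) (c := c) ht hr1 hq1 hc4 hr (by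
    calc l * q ≤ 2 * N := hlq2
      _ = 16 * c * m * (66 * w) := by rw [hN]; ring) hsq hcube
  set E := (t + 1) * ((t + 1) * (4 * r + 3) + 1) with hE
  refine ⟨q, l, r, m, hq1, hl1, hqs, by omega, expo hl1 hn, ?_, ?_, ?_⟩
  · calc 66 * w ≤ 2 ^ m := hn.le
      _ = 1 * 2 ^ m := by ring
      _ ≤ q * 2 ^ m := Nat.mul_le_mul_right _ hq1
  · have h1 : 8 * m * (66 * w) * (c * E) ≤ 8 * m * (66 * w) * s := by
      calc 8 * m * (66 * w) * (c * E) = 8 * c * m * (66 * w) * E := by ring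
        _ ≤ q ^ 2 := hkey
        _ = q * q := by ring
        _ ≤ (8 * m * (66 * w)) * s := by
          refine Nat.mul_le_mul ?_ hqle
          calc q ≤ w := by omega
            _ = 1 * 1 * (1 * w) := by ring
            _ ≤ 8 * m * (66 * w) :=
              Nat.mul_le_mul (Nat.mul_le_mul (by norm_num) hm1)
                (Nat.mul_le_mul_right _ (by norm_num))
    exact Nat.le_of_mul_le_mul_left h1 (by positivity)
  · intro S hS
    by_contra hlt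
    rw [not_le] at hlt
    have h1 : l * q * (q + 1) ≤ l * q * (4 * c * S) := Nat.mul_le_mul_left _ hlt
    have h2 : 2 * (l * q * (4 * c * S)) ≤ N * q + l * (N * E) := by
      calc 2 * (l * q * (4 * c * S)) = 8 * c * (l * q * S) := by ring
        _ ≤ 8 * c * (m * (66 * w) * (q + l * E)) := Nat.mul_le_mul_left _ hS
        _ = N * q + l * (N * E) := by rw [hN]; ring
    have h3 : N * q ≤ l * q * q := Nat.mul_le_mul_right _ hlq1.le
    have h4 : l * (N * E) ≤ l * q ^ 2 := Nat.mul_le_mul_left _ hkey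
    have h5 : 0 < l * q := Nat.mul_pos hl1 hq1
    have h6 : l * q * (q + 1) = l * q * q + l * q := by ring
    have h7 : l * q ^ 2 = l * q * q := by ring
    rw [h7] at h4
    rw [h6] at h1
    omega

end Pool.Agent.H66TW
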