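import Pool.Agent.Lib.H66TW.Sep

/-!
# Iterated separators in token graphs (project MP_14fa4b_co)
-/

set_option autoImplicit false

namespace Pool.Agent.H66TW

open Finset

variable {T : Type*} [DecidableEq T] {Γ : SimpleGraph T}

/-- iteration of a one-level separator statement -/
theorem sep_iter (U hard : Finset T) (l W q : ℕ)
    (hlev : ∀ U' ⊆ U, ∃ S ⊆ U', l * S.card ≤ (U' ∩ hard).card + l * W ∧
      ∀ C ⊆ U' \ S, Conn Γ C → 2 * (C ∩ hard).card ≤ (U' ∩ hard).card) :
    ∀ k n : ℕ, ∀ U' : Finset T, U'.card ≤ n → U' ⊆ U →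
      (∀ C ⊆ U', Conn Γ C → (C ∩ hard).card ≤ q * 2 ^ k) →
      ∃ S ⊆ U', l * q * S.card ≤ k * (U' ∩ hard).card * (q + l * W) ∧
        ∀ C ⊆ U' \ S, Conn Γ C → (C ∩ hard).card ≤ q := by
  intro k
  induction k with
  | zero =>
    intro n U' _ _ hC
    refine ⟨∅, empty_subset _, by simp, ?_⟩
    intro C hCU hconn
    have := hC C (by simpa using hCU) hconn
    simpa using this
  | succ k ih =>
    intro n
    induction n with
    | zero =>
      intro U' hn _ _
      have hU' : U' = ∅ := card_eq_zero.mp (by omega)
      subst hU'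
      refine ⟨∅, empty_subset _, by simp, ?_⟩
      intro C hCU hconn
      have : C = ∅ := by simpa using hCU
      exact absurd hconn.1 (by rw [this]; exact not_nonempty_empty)
    | succ n ihn =>
      intro U' hn hU' hC
      by_cases hsmall : ∀ C ⊆ U', Conn Γ C → (C ∩ hard).card ≤ q * 2 ^ k
      · obtain ⟨S, hS, hSc, hSC⟩ := ih _ U' le_rfl hU' hsmall
        refine ⟨S, hS, hSc.trans ?_, hSC⟩
        exact Nat.mul_le_mul_right _ (Nat.mul_le_mul_right _ (Nat.le_succ k))
      · push Not at hsmall
        obtain ⟨C₀, hC₀, hC₀c, hC₀b⟩ := hsmall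
        obtain ⟨C, hC1, hC2, hC3, hC4⟩ := exists_comp hC₀c hC₀
        by_cases hCU : C = U'
        · subst hCU
          have hhi : (C ∩ hard).card ≤ q * 2 ^ (k + 1) := hC C (Subset.refl _) hC3
          have hlo : q ≤ (C ∩ hard).card := by
            have h1 : (C₀ ∩ hard).card ≤ (C ∩ hard).card :=
              card_le_card (inter_subset_inter_right hC1)
            have h2 : q * 1 ≤ q * 2 ^ k := Nat.mul_le_mul_left _ Nat.one_le_two_pow
            omega
          obtain ⟨S₀, hS₀, hS₀c, hS₀C⟩ := hlev C hU'
          obtain ⟨S₁, hS₁, hS₁c, hS₁C⟩ := ih _ (C \ S₀) le_rfl (sdiff_subset.trans hU') (by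
            intro D hD hDc
            have h1 := hS₀C D hD hDc
            have h2 : q * 2 ^ (k + 1) = 2 * (q * 2 ^ k) := by ring
            omega)
          refine ⟨S₀ ∪ S₁, union_subset hS₀ (hS₁.trans sdiff_subset), ?_, ?_⟩
          · have h1 : (S₀ ∪ S₁).card ≤ S₀.card + S₁.card := card_union_le _ _
            have h2 : (C \ S₀ ∩ hard).card ≤ (C ∩ hard).card :=
              card_le_card (inter_subset_inter_right sdiff_subset)
            have h3 : l * q * S₁.card ≤ k * (C ∩ hard).card * (q + l * W) :=
              hS₁c.trans (Nat.mul_le_mul_right _ (Nat.mul_le_mul_left _ h2))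
            have h4 : l * q * S₀.card ≤ (C ∩ hard).card * (q + l * W) := by
              calc l * q * S₀.card = q * (l * S₀.card) := by ring
                _ ≤ q * ((C ∩ hard).card + l * W) := Nat.mul_le_mul_left _ hS₀c
                _ = (C ∩ hard).card * q + q * (l * W) := by ring
                _ ≤ (C ∩ hard).card * q + (C ∩ hard).card * (l * W) :=
                    Nat.add_le_add_left (Nat.mul_le_mul_right _ hlo) _
                _ = (C ∩ hard).card * (q + l * W) := by ring
            calc l * q * (S₀ ∪ S₁).card ≤ l * q * (S₀.card + S₁.card) :=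
                  Nat.mul_le_mul_left _ h1
              _ = l * q * S₀.card + l * q * S₁.card := by ring
              _ ≤ (C ∩ hard).card * (q + l * W) + k * (C ∩ hard).card * (q + l * W) :=
                  Nat.add_le_add h4 h3
              _ = (k + 1) * (C ∩ hard).card * (q + l * W) := by ring
          · intro D hD hDc
            apply hS₁C D _ hDc
            intro x hx
            have := hD hx
            simp only [mem_sdiff, mem_union, not_or] at this ⊢
            tauto
        · have hlt : C.card < U'.card := card_lt_card (Finset.ssubset_iff_subset_ne.mpr ⟨hC2, hCU⟩)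
          have hlt' : (U' \ C).card < U'.card := by
            have h1 : (U' \ C).card + C.card = U'.card := card_sdiff_add_card_eq_card hC2
            have h2 : 0 < C.card := card_pos.mpr hC3.1
            omega
          obtain ⟨S₁, hS₁, hS₁c, hS₁C⟩ := ihn C (by omega) (hC2.trans hU')
            (fun D hD hDc => hC D (hD.trans hC2) hDc)
          obtain ⟨S₂, hS₂, hS₂c, hS₂C⟩ := ihn (U' \ C) (by omega) (sdiff_subset.trans hU')
            (fun D hD hDc => hC D (hD.trans sdiff_subset) hDc)
          refine ⟨S₁ ∪ S₂, union_subset (hS₁.trans hC2) (hS₂.trans sdiff_subset), ?_, ?_⟩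
          · have h1 : (S₁ ∪ S₂).card ≤ S₁.card + S₂.card := card_union_le _ _
            have h2 : (C ∩ hard).card + (U' \ C ∩ hard).card = (U' ∩ hard).card := by
              rw [← card_union_of_disjoint]
              · congr 1
                ext x
                simp only [mem_union, mem_inter, mem_sdiff]
                constructor
                · rintro (⟨h, h'⟩ | ⟨⟨h, _⟩, h'⟩)
                  · exact ⟨hC2 h, h'⟩
                  · exact ⟨h, h'⟩
                · rintro ⟨h, h'⟩
                  by_cases hx : x ∈ C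
                  · exact Or.inl ⟨hx, h'⟩
                  · exact Or.inr ⟨⟨h, hx⟩, h'⟩
              · rw [disjoint_left]
                intro x hx hx'
                simp only [mem_inter, mem_sdiff] at hx hx'
                exact hx'.1.2 hx.1
            calc l * q * (S₁ ∪ S₂).card ≤ l * q * (S₁.card + S₂.card) :=
                  Nat.mul_le_mul_left _ h1
              _ = l * q * S₁.card + l * q * S₂.card := by ring
              _ ≤ (k + 1) * (C ∩ hard).card * (q + l * W) +
                  (k + 1) * (U' \ C ∩ hard).card * (q + l * W) := Nat.add_le_add hS₁c hS₂c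
              _ = (k + 1) * ((C ∩ hard).card + (U' \ C ∩ hard).card) * (q + l * W) := by ring
              _ = (k + 1) * (U' ∩ hard).card * (q + l * W) := by rw [h2]
          · intro D hD hDc
            have hDU : D ⊆ U' := hD.trans sdiff_subset
            by_cases hmeet : (D ∩ C).Nonempty
            · have hDC : D ⊆ C := subset_comp hC4 hDc hDU hmeet
              apply hS₁C D _ hDc
              intro x hx
              have := hD hx
              simp only [mem_sdiff, mem_union, not_or] at this ⊢
              exact ⟨hDC hx, this.2.1⟩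
            · apply hS₂C D _ hDc
              intro x hx
              have := hD hx
              simp only [mem_sdiff, mem_union, not_or] at this ⊢
              refine ⟨⟨this.1, fun hxC => hmeet ⟨x, mem_inter.mpr ⟨hx, hxC⟩⟩⟩, this.2.2⟩

/-- **Iterated separator theorem.** -/
theorem exists_sep {T : Type*} [DecidableEq T] (Γ : SimpleGraph T) (U hard : Finset T)
    (t l r : ℕ) (ht : 1 ≤ t) (hl : 1 ≤ l)
    (hsoft : ∀ x ∈ U, ∀ y ∈ U, x ∉ hard → y ∉ hard → ¬ Γ.Adj x y)
    (hr : (U ∩ hard).card * l ^ r < (l + 1) ^ r)
    (hno : ¬ ∃ W : Fin t → Finset T, (∀ i, W i ⊆ U) ∧ (∀ i, Conn Γ (W i)) ∧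
      (∀ i j, i ≠ j → Disjoint (W i) (W j)) ∧ (∀ i j, i ≠ j → Touch Γ (W i) (W j)) ∧
      ∀ i, (W i).card ≤ t * (4 * r + 3) + 1)
    (q k : ℕ) (hk : (U ∩ hard).card ≤ q * 2 ^ k) :
    ∃ S ⊆ U, l * q * S.card ≤
        k * (U ∩ hard).card * (q + l * (t * (t * (4 * r + 3) + 1))) ∧
      ∀ C ⊆ U \ S, Conn Γ C → (C ∩ hard).card ≤ q := by
  refine sep_iter U hard l (t * (t * (4 * r + 3) + 1)) q ?_ k _ U le_rfl (Subset.refl _) ?_
  · intro U' hU'
    have hcard : (U' ∩ hard).card ≤ (U ∩ hard).card :=
      card_le_card (inter_subset_inter_right hU')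
    refine exists_level Γ U' hard t l r ht hl
      (fun x hx y hy => hsoft x (hU' hx) y (hU' hy)) ?_ ?_
    · exact (Nat.mul_le_mul_right _ hcard).trans_lt hr
    · rintro ⟨W, h1, h2, h3, h4, h5⟩
      exact hno ⟨W, fun i => (h1 i).trans hU', h2, h3, h4, h5⟩
  · intro C hC _
    exact (card_le_card (inter_subset_inter_right hC)).trans hk

end Pool.Agent.H66TW
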