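import Pool.Agent.Lib.H66TW.Core
import Pool.Agent.Lib.H66TW.SepIter
import Pool.Agent.Lib.H66TW.Num

/-!
# The partition theorem (inductive form)
-/

set_option autoImplicit false

namespace Pool.Agent.H66TW

open Finset

theorem partition_aux {t w s q l r k : ℕ} {V : Type} [Fintype V] [DecidableEq V]
    (G : SimpleGraph V) (ht : 1 ≤ t) (hw : TW G w univ) (hw' : ¬ TW G (w - 1) univ)
    (H : ∀ D, TW G t D ∨ TW G (w - s - 1) Dᶜ)
    (hq : 1 ≤ q) (hl : 1 ≤ l) (hqs : 8 * (3 * t + 1) * q ≤ s) (hsw : s + t < w)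
    (hr : 66 * w * l ^ r < (l + 1) ^ r) (hk : 66 * w ≤ q * 2 ^ k)
    (hω : (3 * t + 1) * ((t + 1) * ((t + 1) * (4 * r + 3) + 1)) ≤ s)
    (hS : ∀ S : ℕ, l * q * S ≤ k * (66 * w) * (q + l * ((t + 1) * ((t + 1) * (4 * r + 3) + 1))) →
      4 * (3 * t + 1) * S ≤ q) : False := by
  classical
  obtain ⟨A, B, hAB, hBw, hAcl, hnu, hreg⟩ := exists_region t (32 * w) hw
  obtain ⟨F, Hd, U, hT⟩ := exists_tokens G t hAB
  have hUh : U ∩ (F ∪ Hd) = F ∪ Hd := by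
    apply inter_eq_right.mpr
    exact union_subset hT.FU hT.HU
  have hcard : (U ∩ (F ∪ Hd)).card ≤ 66 * w := by
    rw [hUh]
    have h1 := card_union_le F Hd
    rw [hT.cardF, hT.cardH] at h1
    omega
  obtain ⟨S, hSU, hScard, hSconn⟩ := exists_sep (tokenGraph G) U (F ∪ Hd) (t + 1) l r
    (by omega) hl
    (fun x hx y hy hxF hyF => hT.soft x hx y hy hxF hyF)
    (lt_of_le_of_lt (Nat.mul_le_mul_right _ hcard) hr)
    (no_cheap_model hw' H hT hω hsw) q k (hcard.trans hk)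
  have h1 : l * q * S.card ≤
      k * (66 * w) * (q + l * ((t + 1) * ((t + 1) * (4 * r + 3) + 1))) := by
    refine hScard.trans ?_
    gcongr
  exact core hw' H hq hqs hsw hBw hAcl hreg hT hSU (hS _ h1) hSconn

/-- **Partition theorem** (inductive form). -/
theorem partition_TD : ∃ C : ℕ, 1 ≤ C ∧ ∀ (V : Type) [Fintype V] [DecidableEq V]
    (G : SimpleGraph V) (t w s : ℕ),
    1 ≤ t → TW G w univ → ¬ TW G (w - 1) univ → s ≤ w → C * t ^ 8 * w ^ 3 ≤ s ^ 4 →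
    ∃ D : Finset V, ¬ TW G t D ∧ ¬ TW G (w - s - 1) Dᶜ := by
  obtain ⟨C, hC1, hC⟩ := numerics
  refine ⟨81 * C, by omega, ?_⟩
  intro V _ _ G t w s ht hw hw' hs hnum
  by_contra hcon
  push Not at hcon
  have hw1 : 1 ≤ w := by
    by_contra h
    have : w = 0 := by omega
    subst this
    exact hw' hw
  have hs2 : 2 ≤ s := by
    by_contra h
    have h1 : 81 * 1 ≤ 81 * C * t ^ 8 * w ^ 3 := by
      have : 0 < C * t ^ 8 * w ^ 3 := by positivity
      calc 81 * 1 ≤ 81 * (C * t ^ 8 * w ^ 3) := Nat.mul_le_mul_left _ this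
        _ = 81 * C * t ^ 8 * w ^ 3 := by ring
    have h2 : s ^ 4 ≤ 1 := by
      have : s ≤ 1 := by omega
      calc s ^ 4 ≤ 1 ^ 4 := Nat.pow_le_pow_left this 4
        _ = 1 := by norm_num
    omega
  have h3 : s ≤ 3 * (s / 2) := by omega
  have hnum' : C * t ^ 8 * w ^ 3 ≤ (s / 2) ^ 4 := by
    have h4 : s ^ 4 ≤ (3 * (s / 2)) ^ 4 := Nat.pow_le_pow_left h3 4
    have h5 : 81 * (C * t ^ 8 * w ^ 3) ≤ 81 * (s / 2) ^ 4 := by
      calc 81 * (C * t ^ 8 * w ^ 3) = 81 * C * t ^ 8 * w ^ 3 := by ring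
        _ ≤ s ^ 4 := hnum
        _ ≤ (3 * (s / 2)) ^ 4 := h4
        _ = 81 * (s / 2) ^ 4 := by ring
    omega
  obtain ⟨q, l, r, k, h1, h2, h3', h4, h5, h6, h7, h8⟩ := hC t w (s / 2) ht hw1 (by omega) hnum'
  refine partition_aux (s := s / 2) G ht hw hw' ?_ h1 h2 h3' h4 h5 h6 h7 h8
  intro D
  by_cases hD : TW G t D
  · exact Or.inl hD
  · exact Or.inr ((hcon D hD).mono (by omega))

end Pool.Agent.H66TW
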