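import Pool.Agent.Lib.H66TW.Count

/-!
# Connected sets, packings of complex sets, atoms, regions
-/

set_option autoImplicit false

namespace Pool.Agent.H66TW

open Finset

variable {V : Type*} [DecidableEq V] {G : SimpleGraph V}

theorem conn_singleton (v : V) : Conn G {v} := by
  refine ⟨singleton_nonempty v, ?_⟩
  intro T hT hne _
  rcases subset_singleton_iff.mp hT with h | h
  · rw [h] at hne; simp at hne
  · exact h

/-- a set that is a union of connected pieces which hang together -/
theorem conn_insert {T : Finset V} (hT : Conn G T) {u v : V} (hu : u ∈ T) (huv : G.Adj u v) :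
    Conn G (insert v T) := by
  by_cases hv : v ∈ T
  · rwa [insert_eq_of_mem hv]
  refine ⟨insert_nonempty _ _, ?_⟩
  intro S hS hne hcl
  by_cases h : (S ∩ T).Nonempty
  · have h1 : S ∩ T = T := by
      refine hT.2 _ inter_subset_right h ?_
      intro x hx y hy
      simp only [mem_inter, mem_sdiff] at hx hy
      refine hcl x hx.1 y ?_
      simp only [mem_sdiff, mem_insert]
      exact ⟨Or.inr hy.1, fun h' => hy.2 ⟨h', hy.1⟩⟩
    have h2 : T ⊆ S := by rw [← h1]; exact inter_subset_left
    have h3 : v ∈ S := by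
      by_contra hvS
      exact hcl u (h2 hu) v (mem_sdiff.mpr ⟨mem_insert_self _ _, hvS⟩) huv
    exact Subset.antisymm hS (insert_subset h3 h2)
  · exfalso
    have h1 : ∀ x ∈ S, x = v := by
      intro x hx
      rcases mem_insert.mp (hS hx) with h' | h'
      · exact h'
      · exact absurd ⟨x, mem_inter.mpr ⟨hx, h'⟩⟩ h
    obtain ⟨x, hx⟩ := hne
    have hvS : v ∈ S := h1 x hx ▸ hx
    have huS : u ∉ S := fun h' => hv (h1 u h' ▸ hu)
    exact hcl v hvS u (mem_sdiff.mpr ⟨mem_insert_of_mem hu, huS⟩) huv.symm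

/-- a connected set with an edge leaving a proper subset -/
theorem conn_exists_edge {U T : Finset V} (hU : Conn G U) (hT : T ⊆ U) (hne : T.Nonempty)
    (hneq : T ≠ U) : ∃ u ∈ T, ∃ v ∈ U \ T, G.Adj u v := by
  by_contra hcon
  push Not at hcon
  exact hneq (hU.2 T hT hne hcon)

/-- a connected set with at least two vertices has a vertex whose removal keeps it connected -/
theorem conn_erase {U : Finset V} (hU : Conn G U) (h2 : 2 ≤ U.card) :
    ∃ v ∈ U, Conn G (U.erase v) := by
  classical
  -- maximal proper connected subset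
  have hex : ∃ T ∈ (U.powerset.filter (fun T => Conn G T ∧ T ≠ U)),
      ∀ T' ∈ (U.powerset.filter (fun T => Conn G T ∧ T ≠ U)), T'.card ≤ T.card := by
    apply exists_max_image
    obtain ⟨x, hx⟩ := hU.1
    refine ⟨{x}, ?_⟩
    simp only [mem_filter, mem_powerset, singleton_subset_iff]
    refine ⟨hx, conn_singleton x, ?_⟩
    intro h
    rw [← h] at h2
    simp at h2
  obtain ⟨T, hT, hmax⟩ := hex
  simp only [mem_filter, mem_powerset] at hT hmax
  obtain ⟨hTU, hTc, hTne⟩ := hT
  obtain ⟨u, hu, v, hv, huv⟩ := conn_exists_edge hU hTU hTc.1 hTne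
  rw [mem_sdiff] at hv
  refine ⟨v, hv.1, ?_⟩
  have hins : insert v T = U := by
    by_contra hne
    have := hmax (insert v T) ⟨insert_subset hv.1 hTU, conn_insert hTc hu huv, hne⟩
    rw [card_insert_of_notMem hv.2] at this
    omega
  rw [← hins, erase_insert hv.2]
  exact hTc

/-- union of two connected sets that touch or meet -/
theorem conn_union {S T : Finset V} (hS : Conn G S) (hT : Conn G T)
    (h : Touch G S T ∨ (S ∩ T).Nonempty) : Conn G (S ∪ T) := by
  refine ⟨hS.1.mono subset_union_left, ?_⟩
  intro W hW hne hcl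
  have a1 : (W ∩ S).Nonempty → S ⊆ W := by
    intro hn
    have : W ∩ S = S := by
      refine hS.2 _ inter_subset_right hn ?_
      intro x hx y hy
      simp only [mem_inter, mem_sdiff] at hx hy
      refine hcl x hx.1 y ?_
      simp only [mem_sdiff, mem_union]
      exact ⟨Or.inl hy.1, fun h' => hy.2 ⟨h', hy.1⟩⟩
    rw [← this]; exact inter_subset_left
  have a2 : (W ∩ T).Nonempty → T ⊆ W := by
    intro hn
    have : W ∩ T = T := by
      refine hT.2 _ inter_subset_right hn ?_
      intro x hx y hy
      simp only [mem_inter, mem_sdiff] at hx hy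
      refine hcl x hx.1 y ?_
      simp only [mem_sdiff, mem_union]
      exact ⟨Or.inr hy.1, fun h' => hy.2 ⟨h', hy.1⟩⟩
    rw [← this]; exact inter_subset_left
  have a3 : S ⊆ W ↔ T ⊆ W := by
    rcases h with ⟨u, hu, v, hv, huv⟩ | ⟨x, hx⟩
    · constructor
      · intro h1
        apply a2
        refine ⟨v, mem_inter.mpr ⟨?_, hv⟩⟩
        by_contra hvW
        exact hcl u (h1 hu) v (mem_sdiff.mpr ⟨mem_union_right _ hv, hvW⟩) huv
      · intro h1
        apply a1
        refine ⟨u, mem_inter.mpr ⟨?_, hu⟩⟩
        by_contra huW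
        exact hcl v (h1 hv) u (mem_sdiff.mpr ⟨mem_union_left _ hu, huW⟩) huv.symm
    · rw [mem_inter] at hx
      constructor
      · intro h1
        exact a2 ⟨x, mem_inter.mpr ⟨h1 hx.1, hx.2⟩⟩
      · intro h1
        exact a1 ⟨x, mem_inter.mpr ⟨h1 hx.2, hx.1⟩⟩
  obtain ⟨x, hx⟩ := hne
  have : S ⊆ W := by
    rcases mem_union.mp (hW hx) with h' | h'
    · exact a1 ⟨x, mem_inter.mpr ⟨hx, h'⟩⟩
    · exact a3.mpr (a2 ⟨x, mem_inter.mpr ⟨hx, h'⟩⟩)
  exact Subset.antisymm hW (union_subset this (a3.mp this))

/-- pairwise disjoint sets all meeting `Y` -/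
theorem card_le_of_hit {F : Finset (Finset V)} {Y : Finset V}
    (hdis : ∀ U ∈ F, ∀ W ∈ F, U ≠ W → Disjoint U W)
    (hit : ∀ U ∈ F, ∃ x, x ∈ U ∧ x ∈ Y) : F.card ≤ Y.card := by
  choose f hf1 hf2 using hit
  have hinj : Function.Injective (fun U : F => f U.1 U.2) := by
    rintro ⟨U, hU⟩ ⟨W, hW⟩ h
    by_contra hne
    have hne' : U ≠ W := fun h' => hne (by subst h'; rfl)
    have h' : f U hU = f W hW := h
    exact (disjoint_left.mp (hdis U hU W hW hne')) (hf1 U hU) (h' ▸ hf1 W hW)
  have := Finset.card_le_card_of_injOn (s := F.attach) (t := Y) (fun U => f U.1 U.2)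
    (fun U _ => hf2 U.1 U.2) (hinj.injOn)
  rwa [card_attach] at this

/-- complex sets -/
def Cpx (G : SimpleGraph V) (b : ℕ) (U : Finset V) : Prop := Conn G U ∧ ¬ Cov G b U (3 * b)

/-- packing of complex sets in `A` -/
def Pack (G : SimpleGraph V) (b : ℕ) (A : Finset V) (F : Finset (Finset V)) : Prop :=
  (∀ U ∈ F, U ⊆ A ∧ Cpx G b U) ∧ ∀ U ∈ F, ∀ W ∈ F, U ≠ W → Disjoint U W

open Classical in
/-- maximum size of a packing of complex sets in `A` -/
noncomputable def nu (G : SimpleGraph V) (b : ℕ) (A : Finset V) : ℕ :=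
  (A.powerset.powerset.filter (fun F => Pack G b A F)).sup card

theorem Pack.mem {b : ℕ} {A : Finset V} {F : Finset (Finset V)} (h : Pack G b A F) :
    F ∈ A.powerset.powerset := by
  rw [mem_powerset]
  intro U hU
  rw [mem_powerset]
  exact (h.1 U hU).1

theorem le_nu {b : ℕ} {A : Finset V} {F : Finset (Finset V)} (h : Pack G b A F) :
    F.card ≤ nu G b A := by
  classical
  unfold nu
  exact Finset.le_sup (f := card) (mem_filter.mpr ⟨h.mem, h⟩)

theorem exists_nu (G : SimpleGraph V) (b : ℕ) (A : Finset V) :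
    ∃ F, Pack G b A F ∧ F.card = nu G b A := by
  classical
  have hne : (A.powerset.powerset.filter (fun F => Pack G b A F)).Nonempty := by
    refine ⟨∅, mem_filter.mpr ⟨by simp, ?_⟩⟩
    exact ⟨by simp, by simp⟩
  obtain ⟨F, hF, hmax⟩ := exists_mem_eq_sup _ hne card
  rw [mem_filter] at hF
  exact ⟨F, hF.2, by unfold nu; rw [hmax]⟩

theorem nu_le_add {b : ℕ} {S S₁ S₂ X : Finset V}
    (h : ∀ U, Conn G U → U ⊆ S → Disjoint U X → U ⊆ S₁ ∨ U ⊆ S₂) :
    nu G b S ≤ nu G b S₁ + nu G b S₂ + X.card := by
  classical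
  obtain ⟨F, hF, hc⟩ := exists_nu G b S
  rw [← hc]
  have e : F = (F.filter (fun U => ¬ Disjoint U X)) ∪
      ((F.filter (fun U => Disjoint U X ∧ U ⊆ S₁)) ∪
       (F.filter (fun U => Disjoint U X ∧ ¬ U ⊆ S₁))) := by
    ext U
    simp only [mem_union, mem_filter]
    tauto
  have h1 : (F.filter (fun U => ¬ Disjoint U X)).card ≤ X.card := by
    apply card_le_of_hit
    · intro U hU W hW
      exact hF.2 U (mem_filter.mp hU).1 W (mem_filter.mp hW).1
    · intro U hU
      have := (mem_filter.mp hU).2
      rw [not_disjoint_iff] at this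
      exact this
  have h2 : (F.filter (fun U => Disjoint U X ∧ U ⊆ S₁)).card ≤ nu G b S₁ := by
    apply le_nu
    refine ⟨fun U hU => ?_, fun U hU W hW => ?_⟩
    · rw [mem_filter] at hU
      exact ⟨hU.2.2, (hF.1 U hU.1).2⟩
    · exact hF.2 U (mem_filter.mp hU).1 W (mem_filter.mp hW).1
  have h3 : (F.filter (fun U => Disjoint U X ∧ ¬ U ⊆ S₁)).card ≤ nu G b S₂ := by
    apply le_nu
    refine ⟨fun U hU => ?_, fun U hU W hW => ?_⟩
    · rw [mem_filter] at hU
      have := hF.1 U hU.1
      exact ⟨(h U this.2.1 this.1 hU.2.1).resolve_left hU.2.2, this.2⟩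
    · exact hF.2 U (mem_filter.mp hU).1 W (mem_filter.mp hW).1
  have h4 := card_union_le (F.filter (fun U => ¬ Disjoint U X))
      ((F.filter (fun U => Disjoint U X ∧ U ⊆ S₁)) ∪
       (F.filter (fun U => Disjoint U X ∧ ¬ U ⊆ S₁)))
  have h5 := card_union_le (F.filter (fun U => Disjoint U X ∧ U ⊆ S₁))
       (F.filter (fun U => Disjoint U X ∧ ¬ U ⊆ S₁))
  rw [← e] at h4
  omega

theorem nu_empty (b : ℕ) : nu G b ∅ = 0 := by
  obtain ⟨F, hF, hc⟩ := exists_nu G b ∅
  rw [← hc, card_eq_zero, eq_empty_iff_forall_notMem]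
  intro U hU
  obtain ⟨h1, h2, _⟩ := hF.1 U hU
  obtain ⟨x, hx⟩ := h2.1
  simpa using h1 hx

theorem nu_sdiff {b : ℕ} (S X : Finset V) : nu G b S ≤ nu G b (S \ X) + X.card := by
  have := nu_le_add (G := G) (b := b) (S := S) (S₁ := S \ X) (S₂ := ∅) (X := X) (by
    intro U _ hU hd
    left
    intro x hx
    rw [mem_sdiff]
    exact ⟨hU hx, disjoint_left.mp hd hx⟩)
  rw [nu_empty] at this
  omega

/-- regions inside a tree decomposition -/
theorem exists_region_aux {w b M : ℕ} {D β : Finset V} (hT : TD G w D β) :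
    nu G b (D \ β) < M ∨ ∃ A B : Finset V, A ⊆ D \ β ∧ Disjoint A B ∧ B.card ≤ w ∧
      (∀ v ∈ A, ∀ u ∈ D, G.Adj v u → u ∈ A ∪ B) ∧ M ≤ nu G b A ∧ nu G b A ≤ 2 * M + w := by
  induction hT with
  | leaf β h =>
    rcases Nat.eq_zero_or_pos M with hM | hM
    · right
      refine ⟨∅, ∅, by simp, by simp, by simp, by simp, by omega, ?_⟩
      rw [nu_empty]; omega
    · left
      rw [sdiff_self, bot_eq_empty, nu_empty]
      exact hM
  | glue D₁ β₁ D₂ β₂ t1 t2 h3 h4 ih1 ih2 =>
    have hb1 := t1.root_sub
    have hb2 := t2.root_sub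
    rcases ih1 with i1 | ⟨A, B, a1, a2, a3, a4, a5, a6⟩
    · rcases ih2 with i2 | ⟨A, B, a1, a2, a3, a4, a5, a6⟩
      · by_cases hlt : nu G b ((D₁ ∪ D₂) \ β₁) < M
        · exact Or.inl hlt
        · right
          refine ⟨(D₁ ∪ D₂) \ β₁, β₁, Subset.refl _, sdiff_disjoint, t1.root_card, ?_,
            not_lt.mp hlt, ?_⟩
          · intro v _ u hu _
            simp only [mem_union, mem_sdiff] at hu ⊢
            by_cases h : u ∈ β₁
            · exact Or.inr h
            · exact Or.inl ⟨hu, h⟩
          · have := nu_le_add (G := G) (b := b) (S := (D₁ ∪ D₂) \ β₁) (S₁ := D₁ \ β₁)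
              (S₂ := D₂ \ β₂) (X := β₂) (by
                intro U hU hUS hd
                have hUb : ∀ v ∈ U, v ∉ β₁ := fun v hv => (mem_sdiff.mp (hUS hv)).2
                have hd' : Disjoint U (D₁ ∩ D₂) := by
                  rw [disjoint_left]
                  intro v hv hv'
                  exact hUb v hv (mem_inter.mp (h3 hv')).1
                rcases one_side hU (hUS.trans sdiff_subset) hd' h4 with h | h
                · left
                  intro v hv
                  exact mem_sdiff.mpr ⟨(mem_sdiff.mp (h hv)).1, hUb v hv⟩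
                · right
                  intro v hv
                  exact mem_sdiff.mpr ⟨(mem_sdiff.mp (h hv)).1, disjoint_left.mp hd hv⟩)
            have h5 := t2.root_card
            omega
      · right
        refine ⟨A, B, ?_, a2, a3, ?_, a5, a6⟩
        · intro v hv
          have := mem_sdiff.mp (a1 hv)
          rw [mem_sdiff]
          exact ⟨mem_union_right _ this.1, fun h =>
            this.2 (mem_inter.mp (h3 (mem_inter.mpr ⟨hb1 h, this.1⟩))).2⟩
        · intro v hv u hu huv
          have hv2 := mem_sdiff.mp (a1 hv)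
          have hv1 : v ∉ D₁ := fun h =>
            hv2.2 (mem_inter.mp (h3 (mem_inter.mpr ⟨h, hv2.1⟩))).2
          by_cases hu2 : u ∈ D₂
          · exact a4 v hv u hu2 huv
          · exfalso
            have hu1 := (mem_union.mp hu).resolve_right hu2
            exact h4 u (mem_sdiff.mpr ⟨hu1, hu2⟩) v (mem_sdiff.mpr ⟨hv2.1, hv1⟩) huv.symm
    · right
      refine ⟨A, B, ?_, a2, a3, ?_, a5, a6⟩
      · intro v hv
        have := mem_sdiff.mp (a1 hv)
        exact mem_sdiff.mpr ⟨mem_union_left _ this.1, this.2⟩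
      · intro v hv u hu huv
        have hv1 := mem_sdiff.mp (a1 hv)
        have hv2 : v ∉ D₂ := fun h =>
          hv1.2 (mem_inter.mp (h3 (mem_inter.mpr ⟨hv1.1, h⟩))).1
        by_cases hu1 : u ∈ D₁
        · exact a4 v hv u hu1 huv
        · exfalso
          have hu2 := (mem_union.mp hu).resolve_left hu1
          exact h4 v (mem_sdiff.mpr ⟨hv1.1, hv2⟩) u (mem_sdiff.mpr ⟨hu2, hu1⟩) huv

/-- either the whole graph has few complex sets, or there is a region with a controlled number -/
theorem exists_region [Fintype V] {w : ℕ} (b M : ℕ) (hT : TW G w univ) :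
    ∃ A B : Finset V, Disjoint A B ∧ B.card ≤ w ∧
      (∀ v ∈ A, ∀ u, G.Adj v u → u ∈ A ∪ B) ∧ nu G b A ≤ 2 * M + w ∧
      (M ≤ nu G b A ∨ (A = univ ∧ B = ∅)) := by
  obtain ⟨β, hT⟩ := hT
  rcases exists_region_aux (b := b) (M := M) hT with h | ⟨A, B, _, a2, a3, a4, a5, a6⟩
  · refine ⟨univ, ∅, disjoint_empty_right _, by simp, by simp, ?_, Or.inr ⟨rfl, rfl⟩⟩
    have := nu_sdiff (G := G) (b := b) univ β
    have h2 := hT.root_card
    omega
  · exact ⟨A, B, a2, a3, fun v hv u huv => a4 v hv u (mem_univ u) huv, a6, Or.inl a5⟩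

/-- a maximum packing of complex sets of minimal total size -/
theorem exists_atoms (G : SimpleGraph V) (b : ℕ) (A : Finset V) :
    ∃ F, Pack G b A F ∧ F.card = nu G b A ∧ (∀ U ∈ F, Cov G b U (3 * b + 1)) ∧
      (∀ U, Conn G U → U ⊆ A \ F.biUnion id → Cov G b U (3 * b)) := by
  classical
  have hne : (A.powerset.powerset.filter (fun F => Pack G b A F ∧ F.card = nu G b A)).Nonempty := by
    obtain ⟨F, hF, hc⟩ := exists_nu G b A
    exact ⟨F, mem_filter.mpr ⟨hF.mem, hF, hc⟩⟩
  obtain ⟨F, hF, hmin⟩ := exists_min_image _ (fun F : Finset (Finset V) => ∑ U ∈ F, U.card) hne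
  simp only [mem_filter] at hF hmin
  obtain ⟨_, hF, hc⟩ := hF
  refine ⟨F, hF, hc, ?_, ?_⟩
  · intro U hU
    obtain ⟨hUA, hUc, hUn⟩ := hF.1 U hU
    by_cases h2 : 2 ≤ U.card
    · obtain ⟨v, hv, hcon⟩ := conn_erase hUc h2
      -- `U.erase v` is not complex
      have hcov : Cov G b (U.erase v) (3 * b) := by
        by_contra hncov
        set F' := insert (U.erase v) (F.erase U) with hF'
        have hdisj : ∀ W ∈ F.erase U, Disjoint (U.erase v) W := by
          intro W hW
          rw [mem_erase] at hW
          exact (hF.2 U hU W hW.2 (Ne.symm hW.1)).mono_left (erase_subset _ _)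
        have hnm : U.erase v ∉ F.erase U := by
          intro h
          have := hdisj _ h
          rw [disjoint_self_iff_empty] at this
          have := hcon.1
          simp_all
        have hP : Pack G b A F' := by
          refine ⟨?_, ?_⟩
          · intro W hW
            rw [hF', mem_insert] at hW
            rcases hW with rfl | hW
            · exact ⟨(erase_subset _ _).trans hUA, hcon, hncov⟩
            · exact hF.1 W (mem_of_mem_erase hW)
          · intro W hW W' hW' hne
            rw [hF', mem_insert] at hW hW'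
            rcases hW with rfl | hW
            · rcases hW' with rfl | hW'
              · exact absurd rfl hne
              · exact hdisj _ hW'
            · rcases hW' with rfl | hW'
              · exact (hdisj _ hW).symm
              · exact hF.2 W (mem_of_mem_erase hW) W' (mem_of_mem_erase hW') hne
        have hcard : F'.card = nu G b A := by
          rw [hF', card_insert_of_notMem hnm, card_erase_of_mem hU, ← hc]
          have : 0 < F.card := card_pos.mpr ⟨U, hU⟩
          omega
        have := hmin F' ⟨hP.mem, hP, hcard⟩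
        rw [hF', sum_insert hnm, card_erase_of_mem hv] at this
        have e := add_sum_erase F (fun U => U.card) hU
        omega
      have h3 : U = U.erase v ∪ {v} := by
        ext x
        simp only [mem_union, mem_erase, mem_singleton]
        constructor
        · intro hx
          by_cases h : x = v
          · exact Or.inr h
          · exact Or.inl ⟨h, hx⟩
        · rintro (h | h)
          · exact h.2
          · rw [h]; exact hv
      rw [h3]
      exact hcov.union (Cov.of_card (by simp))
    · exact Cov.of_card (by omega)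
  · intro U hUc hUA
    by_contra hncov
    have hdisj : ∀ W ∈ F, Disjoint U W := by
      intro W hW
      rw [disjoint_left]
      intro x hx hxW
      have := hUA hx
      rw [mem_sdiff, mem_biUnion] at this
      exact this.2 ⟨W, hW, hxW⟩
    have hnm : U ∉ F := by
      intro h
      have := hdisj _ h
      rw [disjoint_self_iff_empty] at this
      have := hUc.1
      simp_all
    have hP : Pack G b A (insert U F) := by
      refine ⟨?_, ?_⟩
      · intro W hW
        rw [mem_insert] at hW
        rcases hW with rfl | hW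
        · exact ⟨hUA.trans sdiff_subset, hUc, hncov⟩
        · exact hF.1 W hW
      · intro W hW W' hW' hne
        rw [mem_insert] at hW hW'
        rcases hW with rfl | hW
        · rcases hW' with rfl | hW'
          · exact absurd rfl hne
          · exact hdisj _ hW'
        · rcases hW' with rfl | hW'
          · exact (hdisj _ hW).symm
          · exact hF.2 W hW W' hW' hne
    have := le_nu hP
    rw [card_insert_of_notMem hnm] at this
    omega

end Pool.Agent.H66TW
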