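import Pool.Agent.Lib.H66TW.TD

/-!
# Separators in token graphs (project MP_14fa4b_co)

Region growing in the style of Alon-Seymour-Thomas and Plotkin-Rao-Smith, by an extremal choice:
if a token graph has no model of a complete graph with small branch sets, then few tokens
separate it into parts each having at most half of the hard tokens.
-/

set_option autoImplicit false

namespace Pool.Agent.H66TW

open Finset

variable {T : Type*} [DecidableEq T] {Γ : SimpleGraph T}

theorem Conn.subset_of_closed {S R : Finset T} (h : Conn Γ S) (hne : (S ∩ R).Nonempty)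
    (hcl : ∀ u ∈ S, u ∈ R → ∀ v ∈ S, v ∉ R → ¬ Γ.Adj u v) : S ⊆ R := by
  have : S ∩ R = S := by
    refine h.2 _ inter_subset_left hne ?_
    intro u hu v hv
    rw [mem_inter] at hu
    rw [mem_sdiff, mem_inter, not_and] at hv
    exact hcl u hu.1 hu.2 v hv.1 (hv.2 hv.1)
  exact inter_eq_left.mp this

theorem Conn.singleton (a : T) : Conn Γ {a} := by
  refine ⟨singleton_nonempty a, ?_⟩
  intro S hS hne _
  exact hne.subset_singleton_iff.mp hS

theorem Conn.of_union {A B : Finset T} (hA : Conn Γ A) (hB : Conn Γ B)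
    (h : ∀ S : Finset T, (∀ u ∈ A ∪ B, u ∈ S → ∀ v ∈ A ∪ B, v ∉ S → ¬ Γ.Adj u v) →
      (A ⊆ S ↔ B ⊆ S)) : Conn Γ (A ∪ B) := by
  refine ⟨hA.1.mono subset_union_left, ?_⟩
  intro S hS hne hcl
  have hcl' : ∀ u ∈ A ∪ B, u ∈ S → ∀ v ∈ A ∪ B, v ∉ S → ¬ Γ.Adj u v := by
    intro u _ huS v hv hvS
    exact hcl u huS v (mem_sdiff.mpr ⟨hv, hvS⟩)
  have key := h S hcl'
  have hA' : (A ∩ S).Nonempty → A ⊆ S := fun hn => hA.subset_of_closed hn
    (fun u hu huS v hv hvS => hcl' u (mem_union_left _ hu) huS v (mem_union_left _ hv) hvS)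
  have hB' : (B ∩ S).Nonempty → B ⊆ S := fun hn => hB.subset_of_closed hn
    (fun u hu huS v hv hvS => hcl' u (mem_union_right _ hu) huS v (mem_union_right _ hv) hvS)
  obtain ⟨x, hx⟩ := hne
  have hAB : A ⊆ S ∧ B ⊆ S := by
    rcases mem_union.mp (hS hx) with hxA | hxB
    · have := hA' ⟨x, mem_inter.mpr ⟨hxA, hx⟩⟩
      exact ⟨this, key.mp this⟩
    · have := hB' ⟨x, mem_inter.mpr ⟨hxB, hx⟩⟩
      exact ⟨key.mpr this, this⟩
  exact Subset.antisymm hS (union_subset hAB.1 hAB.2)

theorem Conn.union {A B : Finset T} (hA : Conn Γ A) (hB : Conn Γ B) {a : T} (h1 : a ∈ A)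
    (h2 : a ∈ B) : Conn Γ (A ∪ B) := by
  refine hA.of_union hB ?_
  intro S hcl
  constructor
  · intro h
    refine hB.subset_of_closed ⟨a, mem_inter.mpr ⟨h2, h h1⟩⟩ ?_
    exact fun u hu huS v hv hvS => hcl u (mem_union_right _ hu) huS v (mem_union_right _ hv) hvS
  · intro h
    refine hA.subset_of_closed ⟨a, mem_inter.mpr ⟨h1, h h2⟩⟩ ?_
    exact fun u hu huS v hv hvS => hcl u (mem_union_left _ hu) huS v (mem_union_left _ hv) hvS

theorem Conn.union_adj {A B : Finset T} (hA : Conn Γ A) (hB : Conn Γ B) {a b : T} (h1 : a ∈ A)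
    (h2 : b ∈ B) (hab : Γ.Adj a b) : Conn Γ (A ∪ B) := by
  refine hA.of_union hB ?_
  intro S hcl
  constructor
  · intro h
    refine hB.subset_of_closed ⟨b, mem_inter.mpr ⟨h2, ?_⟩⟩ ?_
    · by_contra hb
      exact hcl a (mem_union_left _ h1) (h h1) b (mem_union_right _ h2) hb hab
    · exact fun u hu huS v hv hvS =>
        hcl u (mem_union_right _ hu) huS v (mem_union_right _ hv) hvS
  · intro h
    refine hA.subset_of_closed ⟨a, mem_inter.mpr ⟨h1, ?_⟩⟩ ?_
    · by_contra ha
      exact hcl b (mem_union_right _ h2) (h h2) a (mem_union_left _ h1) ha hab.symm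
    · exact fun u hu huS v hv hvS =>
        hcl u (mem_union_left _ hu) huS v (mem_union_left _ hv) hvS

/-- union of connected sets through a common point -/
theorem Conn.biUnion {ι : Type*} [DecidableEq ι] (I : Finset ι) (P : ι → Finset T) (a : T)
    (h : ∀ i ∈ I, Conn Γ (P i) ∧ a ∈ P i) : Conn Γ ({a} ∪ I.biUnion P) := by
  induction I using Finset.induction_on with
  | empty => simpa using Conn.singleton a
  | insert i I hi ih =>
    have h1 := ih (fun j hj => h j (mem_insert_of_mem hj))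
    have h2 := h i (mem_insert_self i I)
    have h3 := h2.1.union h1 h2.2 (mem_union_left _ (mem_singleton_self a))
    have e : {a} ∪ (insert i I).biUnion P = P i ∪ ({a} ∪ I.biUnion P) := by
      rw [biUnion_insert]
      ext x
      simp only [mem_union]
      tauto
    rw [e]
    exact h3

/-- extension to a maximal connected subset of `R` -/
theorem exists_comp {R C₀ : Finset T} (h : Conn Γ C₀) (hR : C₀ ⊆ R) :
    ∃ C, C₀ ⊆ C ∧ C ⊆ R ∧ Conn Γ C ∧ ∀ x ∈ R, x ∉ C → ∀ c ∈ C, ¬ Γ.Adj c x := by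
  classical
  obtain ⟨C, hC, hmax⟩ := (R.powerset.filter (fun C => C₀ ⊆ C ∧ Conn Γ C)).exists_max_image
    (fun C => C.card) ⟨C₀, by simp [hR, h]⟩
  rw [mem_filter, mem_powerset] at hC
  refine ⟨C, hC.2.1, hC.1, hC.2.2, ?_⟩
  intro x hx hxC c hc hadj
  have h1 : Conn Γ (C ∪ {x}) := hC.2.2.union_adj (Conn.singleton x) hc (mem_singleton_self x) hadj
  have h2 := hmax (C ∪ {x}) (by
    rw [mem_filter, mem_powerset]
    refine ⟨union_subset hC.1 (singleton_subset_iff.mpr hx), ?_, h1⟩
    exact hC.2.1.trans subset_union_left)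
  rw [card_union_of_disjoint (disjoint_singleton_right.mpr hxC), card_singleton] at h2
  omega

/-- a connected set meeting a component lies in it -/
theorem subset_comp {R C C' : Finset T} (hC : ∀ x ∈ R, x ∉ C → ∀ c ∈ C, ¬ Γ.Adj c x)
    (h' : Conn Γ C') (hR : C' ⊆ R) (hne : (C' ∩ C).Nonempty) : C' ⊆ C := by
  refine h'.subset_of_closed hne ?_
  intro u _ huC v hv hvC
  exact hC v (hR hv) hvC u huC

/-- hard tokens of `C` outside `A` at hop distance one from `A` -/
def hop (Γ : SimpleGraph T) (hard C A : Finset T) [DecidableRel Γ.Adj] : Finset T :=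
  (C ∩ hard).filter (fun y => y ∉ A ∧ ((∃ a ∈ A, Γ.Adj a y) ∨
    ∃ a ∈ A, ∃ s ∈ C, s ∉ hard ∧ Γ.Adj a s ∧ Γ.Adj s y))

variable [DecidableRel Γ.Adj]

theorem mem_hop {hard C A : Finset T} {y : T} : y ∈ hop Γ hard C A ↔
    y ∈ C ∧ y ∈ hard ∧ y ∉ A ∧ ((∃ a ∈ A, Γ.Adj a y) ∨
    ∃ a ∈ A, ∃ s ∈ C, s ∉ hard ∧ Γ.Adj a s ∧ Γ.Adj s y) := by
  unfold hop
  rw [mem_filter, mem_inter, and_assoc]

/-- hop balls -/
def ball (Γ : SimpleGraph T) [DecidableRel Γ.Adj] (hard C : Finset T) (a : T) : ℕ → Finset T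
  | 0 => {a}
  | n + 1 => ball Γ hard C a n ∪ hop Γ hard C (ball Γ hard C a n)

theorem ball_sub {hard C : Finset T} {a : T} (ha : a ∈ C ∩ hard) (n : ℕ) :
    ball Γ hard C a n ⊆ C ∩ hard := by
  induction n with
  | zero => simpa [ball] using ha
  | succ n ih =>
    rw [ball]
    refine union_subset ih ?_
    intro y hy
    rw [mem_hop] at hy
    exact mem_inter.mpr ⟨hy.1, hy.2.1⟩

theorem ball_nonempty {hard C : Finset T} {a : T} (n : ℕ) :
    (ball Γ hard C a n).Nonempty := by
  induction n with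
  | zero => exact singleton_nonempty a
  | succ n ih => exact ih.mono subset_union_left

/-- points of balls are joined to the centre by small connected sets -/
theorem ball_path {hard C : Finset T} {a : T} (ha : a ∈ C ∩ hard) (n : ℕ) :
    ∀ y ∈ ball Γ hard C a n, ∃ P ⊆ C, Conn Γ P ∧ a ∈ P ∧ y ∈ P ∧ P.card ≤ 2 * n + 1 := by
  induction n with
  | zero =>
    intro y hy
    simp only [ball, mem_singleton] at hy
    subst hy
    exact ⟨{y}, singleton_subset_iff.mpr (mem_inter.mp ha).1, Conn.singleton y,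
      mem_singleton_self y, mem_singleton_self y, by simp⟩
  | succ n ih =>
    intro y hy
    rw [ball, mem_union] at hy
    rcases hy with hy | hy
    · obtain ⟨P, h1, h2, h3, h4, h5⟩ := ih y hy
      exact ⟨P, h1, h2, h3, h4, by omega⟩
    · rw [mem_hop] at hy
      obtain ⟨hyC, hyh, _, hy⟩ := hy
      rcases hy with ⟨b, hb, hby⟩ | ⟨b, hb, s, hs, _, hbs, hsy⟩
      · obtain ⟨P, h1, h2, h3, h4, h5⟩ := ih b hb
        refine ⟨P ∪ {y}, union_subset h1 (singleton_subset_iff.mpr hyC),
          h2.union_adj (Conn.singleton y) h4 (mem_singleton_self y) hby,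
          mem_union_left _ h3, mem_union_right _ (mem_singleton_self y), ?_⟩
        have := card_union_le P {y}
        rw [card_singleton] at this
        omega
      · obtain ⟨P, h1, h2, h3, h4, h5⟩ := ih b hb
        have h6 := h2.union_adj (Conn.singleton s) h4 (mem_singleton_self s) hbs
        refine ⟨P ∪ {s} ∪ {y}, union_subset (union_subset h1 (singleton_subset_iff.mpr hs))
          (singleton_subset_iff.mpr hyC),
          h6.union_adj (Conn.singleton y) (mem_union_right _ (mem_singleton_self s))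
            (mem_singleton_self y) hsy,
          mem_union_left _ (mem_union_left _ h3), mem_union_right _ (mem_singleton_self y), ?_⟩
        have e1 := card_union_le P {s}
        have e2 := card_union_le (P ∪ {s}) {y}
        rw [card_singleton] at e1 e2
        omega

/-- growth of the balls when small sets expand -/
theorem ball_growth {hard C : Finset T} {a : T} (ha : a ∈ C ∩ hard) {l : ℕ}
    (hexp : ∀ A ⊆ C ∩ hard, A.Nonempty → 2 * A.card ≤ (C ∩ hard).card →
      A.card < l * (hop Γ hard C A).card) (n : ℕ) :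
    (C ∩ hard).card < 2 * (ball Γ hard C a n).card ∨
      (l + 1) ^ n ≤ l ^ n * (ball Γ hard C a n).card := by
  induction n with
  | zero => right; simp [ball]
  | succ n ih =>
    by_cases hb : (C ∩ hard).card < 2 * (ball Γ hard C a (n + 1)).card
    · exact Or.inl hb
    right
    have hle : (ball Γ hard C a n).card ≤ (ball Γ hard C a (n + 1)).card :=
      card_le_card subset_union_left
    have hnot : ¬ (C ∩ hard).card < 2 * (ball Γ hard C a n).card := by omega
    have ih' := ih.resolve_left hnot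
    have hg := hexp (ball Γ hard C a n) (ball_sub ha n) (ball_nonempty n) (by omega)
    have hdisj : Disjoint (ball Γ hard C a n) (hop Γ hard C (ball Γ hard C a n)) := by
      rw [disjoint_left]
      intro y hy hy'
      exact (mem_hop.mp hy').2.2.1 hy
    have hcard : (ball Γ hard C a (n + 1)).card =
        (ball Γ hard C a n).card + (hop Γ hard C (ball Γ hard C a n)).card := by
      rw [ball, card_union_of_disjoint hdisj]
    rw [hcard]
    set x := (ball Γ hard C a n).card
    set y := (hop Γ hard C (ball Γ hard C a n)).card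
    calc (l + 1) ^ (n + 1) = (l + 1) * (l + 1) ^ n := by ring
      _ ≤ (l + 1) * (l ^ n * x) := Nat.mul_le_mul_left _ ih'
      _ = l ^ n * (l * x + x) := by ring
      _ ≤ l ^ n * (l * x + l * y) := Nat.mul_le_mul_left _ (by omega)
      _ = l ^ (n + 1) * (x + y) := by ring

/-- two hard tokens of an expanding connected set are joined by a small connected set -/
theorem exists_path {hard C : Finset T} {l r h : ℕ} (hCh : (C ∩ hard).card ≤ h)
    (hr : h * l ^ r < (l + 1) ^ r)
    (hexp : ∀ A ⊆ C ∩ hard, A.Nonempty → 2 * A.card ≤ (C ∩ hard).card →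
      A.card < l * (hop Γ hard C A).card) {a b : T} (ha : a ∈ C ∩ hard) (hb : b ∈ C ∩ hard) :
    ∃ P ⊆ C, Conn Γ P ∧ a ∈ P ∧ b ∈ P ∧ P.card ≤ 4 * r + 2 := by
  have big : ∀ c ∈ C ∩ hard, (C ∩ hard).card < 2 * (ball Γ hard C c r).card := by
    intro c hc
    rcases ball_growth hc hexp r with h1 | h1
    · exact h1
    · exfalso
      have h2 : (ball Γ hard C c r).card ≤ h := (card_le_card (ball_sub hc r)).trans hCh
      have h3 : l ^ r * (ball Γ hard C c r).card ≤ h * l ^ r := by
        rw [mul_comm]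
        exact Nat.mul_le_mul_right _ h2
      omega
  have h1 := big a ha
  have h2 := big b hb
  have hmeet : (ball Γ hard C a r ∩ ball Γ hard C b r).Nonempty := by
    rw [← card_pos]
    have h3 := card_union_add_card_inter (ball Γ hard C a r) (ball Γ hard C b r)
    have h4 : (ball Γ hard C a r ∪ ball Γ hard C b r).card ≤ (C ∩ hard).card :=
      card_le_card (union_subset (ball_sub ha r) (ball_sub hb r))
    omega
  obtain ⟨y, hy⟩ := hmeet
  rw [mem_inter] at hy
  obtain ⟨P, p1, p2, p3, p4, p5⟩ := ball_path ha r y hy.1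
  obtain ⟨Q, q1, q2, q3, q4, q5⟩ := ball_path hb r y hy.2
  refine ⟨P ∪ Q, union_subset p1 q1, p2.union q2 p4 q4, mem_union_left _ p3,
    mem_union_right _ q3, ?_⟩
  have := card_union_le P Q
  omega

/-- the state of the region growing argument -/
structure St (Γ : SimpleGraph T) (U hard : Finset T) (t l ω : ℕ)
    (X : Finset T) (F : Finset (Finset T)) (C : Finset T) : Prop where
  hX : X ⊆ U
  hF : ∀ B ∈ F, B ⊆ U ∧ Conn Γ B ∧ B.card ≤ ω ∧ Touch Γ B C
  hFd : ∀ B ∈ F, ∀ B' ∈ F, B ≠ B' → Disjoint B B' ∧ Touch Γ B B'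
  hFc : F.card < t
  hC : Conn Γ C
  hCU : C ⊆ U \ (X ∪ F.biUnion id)
  hmax : ∀ x ∈ U \ (X ∪ F.biUnion id), x ∉ C → ∀ c ∈ C, ¬ Γ.Adj c x
  hbig : (U ∩ hard).card < 2 * (C ∩ hard).card
  hsize : l * X.card ≤ ((U ∩ hard) \ C).card

omit [DecidableRel Γ.Adj] in
/-- pruning: a big component gives a state -/
theorem St.prune {U hard : Finset T} {t l ω : ℕ} {X : Finset T} {F : Finset (Finset T)}
    {C : Finset T}
    (hX : X ⊆ U) (hF : ∀ B ∈ F, B ⊆ U ∧ Conn Γ B ∧ B.card ≤ ω)
    (hFd : ∀ B ∈ F, ∀ B' ∈ F, B ≠ B' → Disjoint B B' ∧ Touch Γ B B')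
    (hFc : F.card < t) (hC : Conn Γ C) (hCU : C ⊆ U \ (X ∪ F.biUnion id))
    (hmax : ∀ x ∈ U \ (X ∪ F.biUnion id), x ∉ C → ∀ c ∈ C, ¬ Γ.Adj c x)
    (hbig : (U ∩ hard).card < 2 * (C ∩ hard).card)
    (hsize : l * X.card ≤ ((U ∩ hard) \ C).card) :
    ∃ F', St Γ U hard t l ω X F' C := by
  classical
  refine ⟨F.filter (fun B => Touch Γ B C), hX, ?_, ?_, ?_, hC, ?_, ?_, hbig, hsize⟩
  · intro B hB
    rw [mem_filter] at hB
    have := hF B hB.1
    exact ⟨this.1, this.2.1, this.2.2, hB.2⟩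
  · intro B hB B' hB'
    rw [mem_filter] at hB hB'
    exact hFd B hB.1 B' hB'.1
  · exact (card_filter_le _ _).trans_lt hFc
  · intro x hx
    have := hCU hx
    simp only [mem_sdiff, mem_union, mem_biUnion, mem_filter, id] at this ⊢
    refine ⟨this.1, ?_⟩
    rintro (h | ⟨B, hB, hxB⟩)
    · exact this.2 (Or.inl h)
    · exact this.2 (Or.inr ⟨B, hB.1, hxB⟩)
  · intro x hx hxC c hc hadj
    by_cases hxF : x ∈ U \ (X ∪ F.biUnion id)
    · exact hmax x hxF hxC c hc hadj
    · simp only [mem_sdiff, mem_union, mem_biUnion, mem_filter, id, not_and, not_not] at hx hxF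
      rcases hxF hx.1 with h | ⟨B, hB, hxB⟩
      · exact hx.2 (Or.inl h)
      · exact hx.2 (Or.inr ⟨B, ⟨hB, ⟨x, hxB, c, hc, hadj.symm⟩⟩, hxB⟩)

omit [DecidableRel Γ.Adj] in
/-- if few tokens never separate, there is a big component -/
theorem big_comp {U hard : Finset T} {t l ω : ℕ}
    (hcon : ∀ S ⊆ U, l * S.card ≤ (U ∩ hard).card + l * (t * ω) →
      ∃ C ⊆ U \ S, Conn Γ C ∧ (U ∩ hard).card < 2 * (C ∩ hard).card)
    {X : Finset T} {F : Finset (Finset T)} (hX : X ⊆ U) (hXl : l * X.card ≤ (U ∩ hard).card)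
    (hF : ∀ B ∈ F, B ⊆ U ∧ B.card ≤ ω) (hFc : F.card ≤ t) :
    ∃ C, C ⊆ U \ (X ∪ F.biUnion id) ∧ Conn Γ C ∧
      (∀ x ∈ U \ (X ∪ F.biUnion id), x ∉ C → ∀ c ∈ C, ¬ Γ.Adj c x) ∧
      (U ∩ hard).card < 2 * (C ∩ hard).card := by
  have h1 : X ∪ F.biUnion id ⊆ U := by
    refine union_subset hX ?_
    rw [biUnion_subset]
    exact fun B hB => (hF B hB).1
  have h2 : (F.biUnion id).card ≤ F.card * ω :=
    card_biUnion_le_card_mul _ _ _ (fun B hB => (hF B hB).2)
  have h3 : F.card * ω ≤ t * ω := Nat.mul_le_mul_right _ hFc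
  have h4 := card_union_le X (F.biUnion id)
  have h5 : l * (X ∪ F.biUnion id).card ≤ (U ∩ hard).card + l * (t * ω) := by
    calc l * (X ∪ F.biUnion id).card ≤ l * (X.card + t * ω) := Nat.mul_le_mul_left _ (by omega)
      _ = l * X.card + l * (t * ω) := by ring
      _ ≤ _ := Nat.add_le_add_right hXl _
  obtain ⟨C₀, hC₀, hC₀c, hC₀b⟩ := hcon _ h1 h5
  obtain ⟨C, hC1, hC2, hC3, hC4⟩ := exists_comp hC₀c hC₀
  refine ⟨C, hC2, hC3, hC4, hC₀b.trans_le ?_⟩
  exact Nat.mul_le_mul_left _ (card_le_card (inter_subset_inter_right hC1))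

omit [DecidableRel Γ.Adj] in
/-- two sets with more than half of the hard tokens meet -/
theorem big_meet {U hard C C' : Finset T} (hCU : C ⊆ U) (hCU' : C' ⊆ U)
    (h : (U ∩ hard).card < 2 * (C ∩ hard).card) (h' : (U ∩ hard).card < 2 * (C' ∩ hard).card) :
    (C' ∩ C).Nonempty := by
  have h1 := card_union_add_card_inter (C ∩ hard) (C' ∩ hard)
  have h2 : ((C ∩ hard) ∪ (C' ∩ hard)).card ≤ (U ∩ hard).card :=
    card_le_card (union_subset (inter_subset_inter_right hCU) (inter_subset_inter_right hCU'))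
  have h3 : 0 < ((C ∩ hard) ∩ (C' ∩ hard)).card := by omega
  obtain ⟨y, hy⟩ := card_pos.mp h3
  simp only [mem_inter] at hy
  exact ⟨y, mem_inter.mpr ⟨hy.2.1, hy.1.1⟩⟩

/-- a smallest state expands -/
theorem St.expand {U hard : Finset T} {t l ω : ℕ}
    (hsoft : ∀ x ∈ U, ∀ y ∈ U, x ∉ hard → y ∉ hard → ¬ Γ.Adj x y)
    (hcon : ∀ S ⊆ U, l * S.card ≤ (U ∩ hard).card + l * (t * ω) →
      ∃ C ⊆ U \ S, Conn Γ C ∧ (U ∩ hard).card < 2 * (C ∩ hard).card)
    {X : Finset T} {F : Finset (Finset T)} {C : Finset T} (hS : St Γ U hard t l ω X F C)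
    (hmin : ∀ X' F' C', St Γ U hard t l ω X' F' C' → (C ∩ hard).card ≤ (C' ∩ hard).card) :
    ∀ A ⊆ C ∩ hard, A.Nonempty → 2 * A.card ≤ (C ∩ hard).card →
      A.card < l * (hop Γ hard C A).card := by
  classical
  intro A hA hAne hA2
  by_contra hle
  rw [not_lt] at hle
  have hCU : C ⊆ U := hS.hCU.trans sdiff_subset
  have hNC : hop Γ hard C A ⊆ C := fun y hy => (mem_hop.mp hy).1
  have hsplit : ((U ∩ hard) \ C).card + (C ∩ hard).card = (U ∩ hard).card := by
    have h1 := card_sdiff_add_card_inter (U ∩ hard) C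
    have h2 : (U ∩ hard) ∩ C = C ∩ hard := by
      ext x
      simp only [mem_inter]
      constructor
      · rintro ⟨⟨_, h⟩, h'⟩
        exact ⟨h', h⟩
      · rintro ⟨h, h'⟩
        exact ⟨⟨hCU h, h'⟩, h⟩
    rw [h2] at h1
    exact h1
  have hXl : l * (X ∪ hop Γ hard C A).card ≤ ((U ∩ hard) \ C).card + A.card := by
    calc l * (X ∪ hop Γ hard C A).card ≤ l * (X.card + (hop Γ hard C A).card) :=
          Nat.mul_le_mul_left _ (card_union_le _ _)
      _ = l * X.card + l * (hop Γ hard C A).card := by ring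
      _ ≤ _ := Nat.add_le_add hS.hsize hle
  have hXU : X ∪ hop Γ hard C A ⊆ U := union_subset hS.hX (hNC.trans hCU)
  obtain ⟨C', hC'1, hC'2, hC'3, hC'4⟩ := big_comp hcon (X := X ∪ hop Γ hard C A) (F := F) hXU
    (by omega) (fun B hB => ⟨(hS.hF B hB).1, (hS.hF B hB).2.2.1⟩) hS.hFc.le
  have hC'U : C' ⊆ U := hC'1.trans sdiff_subset
  have hC'R : C' ⊆ U \ (X ∪ F.biUnion id) := by
    intro x hx
    have := hC'1 hx
    simp only [mem_sdiff, mem_union] at this ⊢
    tauto
  have hC'C : C' ⊆ C := subset_comp hS.hmax hC'2 hC'R (big_meet hCU hC'U hS.hbig hC'4)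
  have hC'N : ∀ x ∈ C', x ∉ hop Γ hard C A := by
    intro x hx hxN
    have := hC'1 hx
    simp only [mem_sdiff, mem_union] at this
    tauto
  -- the closure of `A`
  have hdich : (∀ x ∈ C', x ∈ hard → x ∈ A) ∨ (∀ x ∈ C', x ∉ A) := by
    by_cases hmeet : (C' ∩ (A ∪ C.filter (fun x => x ∉ hard ∧ ∃ a ∈ A, Γ.Adj a x))).Nonempty
    · left
      have hsub := hC'2.subset_of_closed hmeet (by
        intro u hu huK v hv hvK hadj
        have hvC := hC'C hv
        have hvN := hC'N v hv
        rw [mem_union, mem_filter, not_or] at hvK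
        rw [mem_union, mem_filter] at huK
        by_cases hvh : v ∈ hard
        · refine hvN (mem_hop.mpr ⟨hvC, hvh, hvK.1, ?_⟩)
          rcases huK with h | ⟨h1, h2, a, ha, h3⟩
          · exact Or.inl ⟨u, h, hadj⟩
          · exact Or.inr ⟨a, ha, u, h1, h2, h3, hadj⟩
        · rcases huK with h | ⟨h1, h2, a, ha, h3⟩
          · exact hvK.2 ⟨hvC, hvh, u, h, hadj⟩
          · exact hsoft u (hCU h1) v (hCU hvC) h2 hvh hadj)
      intro x hx hxh
      have := hsub hx
      rw [mem_union, mem_filter] at this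
      rcases this with h | h
      · exact h
      · exact absurd hxh h.2.1
    · right
      intro x hx hxA
      exact hmeet ⟨x, mem_inter.mpr ⟨hx, mem_union_left _ hxA⟩⟩
  have hsub1 : (U ∩ hard) \ C ⊆ (U ∩ hard) \ C' := sdiff_subset_sdiff (Subset.refl _) hC'C
  have hsz : A.card + ((U ∩ hard) \ C).card ≤ ((U ∩ hard) \ C').card ∧
      (C' ∩ hard).card < (C ∩ hard).card := by
    have hApos : 0 < A.card := card_pos.mpr hAne
    rcases hdich with h | h
    · have e1 : C' ∩ hard ⊆ A := by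
        intro x hx
        rw [mem_inter] at hx
        exact h x hx.1 hx.2
      have e2 := card_le_card e1
      refine ⟨?_, by omega⟩
      have e3 : ((C ∩ hard) \ A) ∪ ((U ∩ hard) \ C) ⊆ (U ∩ hard) \ C' := by
        intro x hx
        simp only [mem_union, mem_sdiff, mem_inter] at hx ⊢
        rcases hx with ⟨⟨h1, h2⟩, h3⟩ | ⟨⟨h1, h2⟩, h3⟩
        · exact ⟨⟨hCU h1, h2⟩, fun h4 => h3 (h x h4 h2)⟩
        · exact ⟨⟨h1, h2⟩, fun h4 => h3 (hC'C h4)⟩
      have e4 := card_le_card e3
      rw [card_union_of_disjoint (by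
        rw [disjoint_left]
        intro x hx hx'
        simp only [mem_sdiff, mem_inter] at hx hx'
        exact hx'.2 hx.1.1)] at e4
      have e5 := card_sdiff_add_card_inter (C ∩ hard) A
      have e6 : ((C ∩ hard) ∩ A).card ≤ A.card := card_le_card inter_subset_right
      omega
    · have e3 : A ∪ ((U ∩ hard) \ C) ⊆ (U ∩ hard) \ C' := by
        intro x hx
        rw [mem_union] at hx
        rcases hx with h1 | h1
        · have := hA h1
          simp only [mem_sdiff, mem_inter] at this ⊢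
          exact ⟨⟨hCU this.1, this.2⟩, fun h4 => h x h4 h1⟩
        · exact hsub1 h1
      have e4 := card_le_card e3
      rw [card_union_of_disjoint (by
        rw [disjoint_left]
        intro x hx hx'
        have := hA hx
        simp only [mem_sdiff, mem_inter] at this hx'
        exact hx'.2 this.1)] at e4
      refine ⟨e4, ?_⟩
      apply card_lt_card
      rw [ssubset_iff_of_subset (inter_subset_inter_right hC'C)]
      obtain ⟨a, ha⟩ := hAne
      refine ⟨a, hA ha, fun h4 => ?_⟩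
      rw [mem_inter] at h4
      exact h a h4.1 ha
  obtain ⟨F', hF'⟩ := St.prune (Γ := Γ) (l := l) (ω := ω) (t := t) (F := F) hXU
    (fun B hB => ⟨(hS.hF B hB).1, (hS.hF B hB).2.1, (hS.hF B hB).2.2.1⟩) hS.hFd hS.hFc hC'2 hC'1
    hC'3 hC'4 (by omega)
  have := hmin _ _ _ hF'
  omega

/-- in a smallest state a new branch set can be added -/
theorem St.exists_new {U hard : Finset T} {t l r ω : ℕ}
    (hsoft : ∀ x ∈ U, ∀ y ∈ U, x ∉ hard → y ∉ hard → ¬ Γ.Adj x y)
    (hr : (U ∩ hard).card * l ^ r < (l + 1) ^ r)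
    {X : Finset T} {F : Finset (Finset T)} {C : Finset T} (hS : St Γ U hard t l ω X F C)
    (hexp : ∀ A ⊆ C ∩ hard, A.Nonempty → 2 * A.card ≤ (C ∩ hard).card →
      A.card < l * (hop Γ hard C A).card) {a : T} (ha : a ∈ C ∩ hard) :
    ∃ N ⊆ C, Conn Γ N ∧ a ∈ N ∧ (∀ B ∈ F, Touch Γ N B) ∧ N.card ≤ F.card * (4 * r + 3) + 1 := by
  classical
  have hCU : C ⊆ U := hS.hCU.trans sdiff_subset
  have hCh : (C ∩ hard).card ≤ (U ∩ hard).card := card_le_card (inter_subset_inter_right hCU)
  have hP : ∀ B ∈ F, ∃ P ⊆ C, Conn Γ P ∧ a ∈ P ∧ Touch Γ P B ∧ P.card ≤ 4 * r + 3 := by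
    intro B hB
    obtain ⟨u, hu, c, hc, huc⟩ := (hS.hF B hB).2.2.2
    by_cases hch : c ∈ hard
    · obtain ⟨P, p1, p2, p3, p4, p5⟩ := exists_path hCh hr hexp ha (mem_inter.mpr ⟨hc, hch⟩)
      exact ⟨P, p1, p2, p3, ⟨c, p4, u, hu, huc.symm⟩, by omega⟩
    · have hnb : ∃ v ∈ C, Γ.Adj c v := by
        by_contra hno
        push Not at hno
        have := hS.hC.2 {c} (singleton_subset_iff.mpr hc) (singleton_nonempty c) (by
          intro u hu v hv
          rw [mem_singleton] at hu
          subst hu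
          exact hno v (mem_sdiff.mp hv).1)
        have ha' := (mem_inter.mp ha)
        rw [← this, mem_singleton] at ha'
        exact hch (ha'.1 ▸ ha'.2)
      obtain ⟨v, hv, hcv⟩ := hnb
      have hvh : v ∈ hard := by
        by_contra hvh
        exact hsoft c (hCU hc) v (hCU hv) hch hvh hcv
      obtain ⟨P, p1, p2, p3, p4, p5⟩ := exists_path hCh hr hexp ha (mem_inter.mpr ⟨hv, hvh⟩)
      refine ⟨P ∪ {c}, union_subset p1 (singleton_subset_iff.mpr hc),
        p2.union_adj (Conn.singleton c) p4 (mem_singleton_self c) hcv.symm,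
        mem_union_left _ p3, ⟨c, mem_union_right _ (mem_singleton_self c), u, hu, huc.symm⟩, ?_⟩
      have := card_union_le P {c}
      rw [card_singleton] at this
      omega
  choose! P hP using hP
  refine ⟨{a} ∪ F.biUnion P, ?_, ?_, ?_, ?_, ?_⟩
  · refine union_subset (singleton_subset_iff.mpr (mem_inter.mp ha).1) ?_
    rw [biUnion_subset]
    exact fun B hB => (hP B hB).1
  · exact Conn.biUnion F P a (fun B hB => ⟨(hP B hB).2.1, (hP B hB).2.2.1⟩)
  · exact mem_union_left _ (mem_singleton_self a)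
  · intro B hB
    obtain ⟨x, hx, y, hy, hxy⟩ := (hP B hB).2.2.2.1
    exact ⟨x, mem_union_right _ (mem_biUnion.mpr ⟨B, hB, hx⟩), y, hy, hxy⟩
  · have h1 := card_union_le {a} (F.biUnion P)
    have h2 : (F.biUnion P).card ≤ F.card * (4 * r + 3) :=
      card_biUnion_le_card_mul _ _ _ (fun B hB => (hP B hB).2.2.2.2)
    rw [card_singleton] at h1
    omega

omit [DecidableEq T] [DecidableRel Γ.Adj] in
theorem Touch.symm' {A B : Finset T} (h : Touch Γ A B) : Touch Γ B A := by
  obtain ⟨x, hx, y, hy, hxy⟩ := h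
  exact ⟨y, hy, x, hx, hxy.symm⟩

/-- there is no state -/
theorem no_state {U hard : Finset T} {t l r : ℕ}
    (hsoft : ∀ x ∈ U, ∀ y ∈ U, x ∉ hard → y ∉ hard → ¬ Γ.Adj x y)
    (hr : (U ∩ hard).card * l ^ r < (l + 1) ^ r)
    (hno : ¬ ∃ W : Fin t → Finset T, (∀ i, W i ⊆ U) ∧ (∀ i, Conn Γ (W i)) ∧
      (∀ i j, i ≠ j → Disjoint (W i) (W j)) ∧ (∀ i j, i ≠ j → Touch Γ (W i) (W j)) ∧
      ∀ i, (W i).card ≤ t * (4 * r + 3) + 1)
    (hcon : ∀ S ⊆ U, l * S.card ≤ (U ∩ hard).card + l * (t * (t * (4 * r + 3) + 1)) →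
      ∃ C ⊆ U \ S, Conn Γ C ∧ (U ∩ hard).card < 2 * (C ∩ hard).card) (n : ℕ) :
    ∀ X F C, St Γ U hard t l (t * (4 * r + 3) + 1) X F C → (C ∩ hard).card = n → False := by
  classical
  induction n using Nat.strong_induction_on with
  | _ n ih =>
    intro X F C hS hn
    have hmin : ∀ X' F' C', St Γ U hard t l (t * (4 * r + 3) + 1) X' F' C' →
        (C ∩ hard).card ≤ (C' ∩ hard).card := by
      intro X' F' C' hS'
      by_contra hlt
      exact ih _ (by omega) X' F' C' hS' rfl
    have hexp := hS.expand hsoft hcon hmin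
    have hCU : C ⊆ U := hS.hCU.trans sdiff_subset
    have hpos : 0 < (C ∩ hard).card := by
      have := hS.hbig
      omega
    obtain ⟨a, ha⟩ := card_pos.mp hpos
    obtain ⟨N, n1, n2, n3, n4, n5⟩ := hS.exists_new hsoft hr hexp ha
    have hNω : N.card ≤ t * (4 * r + 3) + 1 :=
      n5.trans (Nat.add_le_add_right (Nat.mul_le_mul_right _ hS.hFc.le) 1)
    have hND : ∀ B ∈ F, Disjoint N B := by
      intro B hB
      rw [disjoint_left]
      intro x hx hxB
      have := hS.hCU (n1 hx)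
      simp only [mem_sdiff, mem_union, mem_biUnion, id] at this
      exact this.2 (Or.inr ⟨B, hB, hxB⟩)
    have hNF : N ∉ F := by
      intro hN
      have := hND N hN
      rw [disjoint_self] at this
      exact n2.1.ne_empty this
    have hF1 : ∀ B ∈ insert N F, B ⊆ U ∧ Conn Γ B ∧ B.card ≤ t * (4 * r + 3) + 1 := by
      intro B hB
      rw [mem_insert] at hB
      rcases hB with h | h
      · subst h
        exact ⟨n1.trans hCU, n2, hNω⟩
      · exact ⟨(hS.hF B h).1, (hS.hF B h).2.1, (hS.hF B h).2.2.1⟩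
    have hF2 : ∀ B ∈ insert N F, ∀ B' ∈ insert N F, B ≠ B' → Disjoint B B' ∧ Touch Γ B B' := by
      intro B hB B' hB' hne
      rw [mem_insert] at hB hB'
      rcases hB with h | h
      · subst h
        rcases hB' with h' | h'
        · exact absurd h'.symm hne
        · exact ⟨hND B' h', n4 B' h'⟩
      · rcases hB' with h' | h'
        · subst h'
          exact ⟨(hND B h).symm, (n4 B h).symm'⟩
        · exact hS.hFd B h B' h' hne
    have hF3 : (insert N F).card = F.card + 1 := card_insert_of_notMem hNF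
    by_cases hlast : (insert N F).card = t
    · -- a complete model
      apply hno
      have e := (insert N F).equivFinOfCardEq hlast
      refine ⟨fun i => (e.symm i).1, fun i => (hF1 _ (e.symm i).2).1,
        fun i => (hF1 _ (e.symm i).2).2.1, ?_, ?_, fun i => (hF1 _ (e.symm i).2).2.2⟩
      · intro i j hij
        refine (hF2 _ (e.symm i).2 _ (e.symm j).2 ?_).1
        intro h
        exact hij (e.symm.injective (Subtype.ext h))
      · intro i j hij
        refine (hF2 _ (e.symm i).2 _ (e.symm j).2 ?_).2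
        intro h
        exact hij (e.symm.injective (Subtype.ext h))
    · have hFc : (insert N F).card < t := by
        have := hS.hFc
        omega
      have hXl : l * X.card ≤ (U ∩ hard).card :=
        hS.hsize.trans (card_le_card sdiff_subset)
      obtain ⟨C', c1, c2, c3, c4⟩ := big_comp hcon (X := X) (F := insert N F) hS.hX hXl
        (fun B hB => ⟨(hF1 B hB).1, (hF1 B hB).2.2⟩) hFc.le
      have hC'R : C' ⊆ U \ (X ∪ F.biUnion id) := by
        intro x hx
        have := c1 hx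
        simp only [mem_sdiff, mem_union, mem_biUnion, mem_insert, id] at this ⊢
        refine ⟨this.1, ?_⟩
        rintro (h | ⟨B, hB, hxB⟩)
        · exact this.2 (Or.inl h)
        · exact this.2 (Or.inr ⟨B, Or.inr hB, hxB⟩)
      have hC'C : C' ⊆ C :=
        subset_comp hS.hmax c2 hC'R (big_meet hCU (c1.trans sdiff_subset) hS.hbig c4)
      have haC' : a ∉ C' := by
        intro h
        have := c1 h
        simp only [mem_sdiff, mem_union, mem_biUnion, mem_insert, id] at this
        exact this.2 (Or.inr ⟨N, Or.inl rfl, n3⟩)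
      obtain ⟨F', hF'⟩ := St.prune (Γ := Γ) (l := l) (ω := t * (4 * r + 3) + 1) (t := t)
        (F := insert N F) hS.hX hF1 hF2 hFc c2 c1 c3 c4
        (hS.hsize.trans (card_le_card (sdiff_subset_sdiff (Subset.refl _) hC'C)))
      have h1 := hmin _ _ _ hF'
      have h2 : (C' ∩ hard).card < (C ∩ hard).card := by
        apply card_lt_card
        rw [ssubset_iff_of_subset (inter_subset_inter_right hC'C)]
        exact ⟨a, ha, fun h4 => haC' (mem_inter.mp h4).1⟩
      omega

omit [DecidableRel Γ.Adj] in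
/-- one level of the separator theorem for token graphs -/
theorem exists_level {T : Type*} [DecidableEq T] (Γ : SimpleGraph T) (U hard : Finset T)
    (t l r : ℕ) (ht : 1 ≤ t) (hl : 1 ≤ l)
    (hsoft : ∀ x ∈ U, ∀ y ∈ U, x ∉ hard → y ∉ hard → ¬ Γ.Adj x y)
    (hr : (U ∩ hard).card * l ^ r < (l + 1) ^ r)
    (hno : ¬ ∃ W : Fin t → Finset T, (∀ i, W i ⊆ U) ∧ (∀ i, Conn Γ (W i)) ∧
      (∀ i j, i ≠ j → Disjoint (W i) (W j)) ∧ (∀ i j, i ≠ j → Touch Γ (W i) (W j)) ∧
      ∀ i, (W i).card ≤ t * (4 * r + 3) + 1) :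
    ∃ S ⊆ U, l * S.card ≤ (U ∩ hard).card + l * (t * (t * (4 * r + 3) + 1)) ∧
      ∀ C ⊆ U \ S, Conn Γ C → 2 * (C ∩ hard).card ≤ (U ∩ hard).card := by
  classical
  by_contra hcon
  push Not at hcon
  obtain ⟨C, c1, c2, c3, c4⟩ := big_comp (Γ := Γ) (l := l) (ω := t * (4 * r + 3) + 1) (t := t)
    hcon (X := ∅) (F := ∅) (empty_subset U) (by simp) (by simp) (by simp)
  obtain ⟨F, hF⟩ := St.prune (Γ := Γ) (l := l) (ω := t * (4 * r + 3) + 1) (t := t) (F := ∅)
    (empty_subset U) (by simp) (by simp) (by rw [card_empty]; omega) c2 c1 c3 c4 (by simp)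
  exact no_state hsoft hr hno hcon _ _ _ _ hF rfl

end Pool.Agent.H66TW
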