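import Pool.Agent.Lib.H77TW.Main
import Pool.Agent.Lib.H8TW.Final2

/-!
# Splitting a graph into two parts of large treewidth (MP_14fa4b_co)

`tw G`: treewidth, by tree decompositions over finite trees.
For `1 ≤ t`, `s ≤ tw G` and `C t (tw G + 1) ≤ s ^ 2` the vertex set of `G` splits into a part of
treewidth at least `t` and a part of treewidth at least `tw G - s`.
-/

set_option autoImplicit false

namespace Pool.Agent.H66TW.Splitting

open Pool.Agent.H8TW SimpleGraph

/-- the inductive form -/
theorem split : Split 1120000 := by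
  intro V _ _ G t w s ht hw hw' hC hs
  have hw1 : 1 ≤ w := by
    by_contra h
    have : w = 0 := by omega
    subst this
    exact hw' hw
  have hCt : 1120000 * t ≤ s := by
    by_contra hlt
    push Not at hlt
    have h1 : s * s ≤ s * w := Nat.mul_le_mul_left _ hs
    have h2 : s * w < 1120000 * t * w := Nat.mul_lt_mul_of_pos_right hlt hw1
    have h3 : s ^ 2 = s * s := sq s
    omega
  obtain ⟨D, hD₁, hD₂⟩ := H77TW.split3 (t := 2 * t) (s := s / 3) (by omega) hw hw' (by omega) (by
    have h4 : s ≤ 4 * (s / 3) := by omega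
    have h5 : s ^ 2 ≤ (4 * (s / 3)) ^ 2 := Nat.pow_le_pow_left h4 2
    have h6 : (4 * (s / 3)) ^ 2 = 16 * (s / 3) ^ 2 := by ring
    have h7 : 16 * (35000 * (2 * t) * w) = 1120000 * t * w := by ring
    omega)
  exact ⟨D, fun h => hD₁ (h.mono (by omega)), fun h => hD₂ (h.mono (by omega))⟩

/-- **Splitting theorem.** With an absolute constant `C`: if `1 ≤ t`, `s ≤ tw G` and
`C t (tw G + 1) ≤ s ^ 2`, then `V` is the disjoint union of `D` and its complement with
`tw G[D] ≥ t` and `tw (G - D) ≥ tw G - s`. -/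
theorem splitting : ∃ C : ℕ, ∀ (V : Type) [Fintype V] (G : SimpleGraph V) (t s : ℕ),
    1 ≤ t → s ≤ tw G → C * t * (tw G + 1) ≤ s ^ 2 →
    ∃ D : Set V, t ≤ tw (G.induce D) ∧ tw G - s ≤ tw (G.induce Dᶜ) :=
  ⟨1120000, fun V _ G t s ht hs h => partition_std2 split (by norm_num) V G t s ht hs h⟩

end Pool.Agent.H66TW.Splitting
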