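import Mathlib

/-!
# Tree decompositions of vertex subsets, as an inductive predicate (project MP_14fa4b_co)

`TD G b D β`: the induced subgraph of `G` on the finite vertex set `D` has a tree decomposition all
of whose bags have at most `b` vertices, and with a bag equal to `β` (the root bag).
`TW G b D`: such a decomposition exists (treewidth of `G[D]` is at most `b - 1`).
`Conn G S`: the finite set `S` is nonempty and connected (cut formulation).
-/

set_option autoImplicit false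

namespace Pool.Agent.H66TW

open Finset

variable {V : Type*} [DecidableEq V]

inductive TD (G : SimpleGraph V) (b : ℕ) : Finset V → Finset V → Prop
  | leaf (β : Finset V) : β.card ≤ b → TD G b β β
  | glue (D₁ β₁ D₂ β₂ : Finset V) : TD G b D₁ β₁ → TD G b D₂ β₂ → D₁ ∩ D₂ ⊆ β₁ ∩ β₂ →
      (∀ u ∈ D₁ \ D₂, ∀ v ∈ D₂ \ D₁, ¬ G.Adj u v) → TD G b (D₁ ∪ D₂) β₁

/-- bag size at most `b`, i.e. treewidth at most `b - 1`, for the subgraph induced by `D` -/
def TW (G : SimpleGraph V) (b : ℕ) (D : Finset V) : Prop := ∃ β, TD G b D β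

/-- nonempty and connected (no proper nonempty part without edges to the rest) -/
def Conn (G : SimpleGraph V) (S : Finset V) : Prop :=
  S.Nonempty ∧ ∀ T ⊆ S, T.Nonempty → (∀ u ∈ T, ∀ v ∈ S \ T, ¬ G.Adj u v) → T = S

/-- two sets of vertices joined by an edge -/
def Touch (G : SimpleGraph V) (S T : Finset V) : Prop := ∃ u ∈ S, ∃ v ∈ T, G.Adj u v

variable {G : SimpleGraph V}

theorem TD.root_sub {b : ℕ} {D β : Finset V} (h : TD G b D β) : β ⊆ D := by
  induction h with
  | leaf β _ => exact Finset.Subset.refl _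
  | glue D₁ β₁ D₂ β₂ _ _ _ _ ih1 _ => exact ih1.trans subset_union_left

theorem TD.root_card {b : ℕ} {D β : Finset V} (h : TD G b D β) : β.card ≤ b := by
  induction h with
  | leaf β h => exact h
  | glue D₁ β₁ D₂ β₂ _ _ _ _ ih1 _ => exact ih1

theorem TD.mono {b b' : ℕ} (hb : b ≤ b') {D β : Finset V} (h : TD G b D β) : TD G b' D β := by
  induction h with
  | leaf β h => exact TD.leaf β (h.trans hb)
  | glue D₁ β₁ D₂ β₂ _ _ h3 h4 ih1 ih2 => exact TD.glue D₁ β₁ D₂ β₂ ih1 ih2 h3 h4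

/-- restriction to a subset -/
theorem TD.restrict {b : ℕ} {D β : Finset V} (h : TD G b D β) (E : Finset V) :
    TD G b (D ∩ E) (β ∩ E) := by
  induction h with
  | leaf β h => exact TD.leaf _ ((card_le_card inter_subset_left).trans h)
  | glue D₁ β₁ D₂ β₂ _ _ h3 h4 ih1 ih2 =>
    rw [union_inter_distrib_right]
    refine TD.glue _ _ _ _ ih1 ih2 ?_ ?_
    · intro x hx
      simp only [mem_inter] at hx ⊢
      have := h3 (mem_inter.mpr ⟨hx.1.1, hx.2.1⟩)
      simp only [mem_inter] at this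
      exact ⟨⟨this.1, hx.1.2⟩, ⟨this.2, hx.1.2⟩⟩
    · intro u hu v hv
      simp only [mem_sdiff, mem_inter, not_and] at hu hv
      refine h4 u ?_ v ?_
      · simp only [mem_sdiff]
        exact ⟨hu.1.1, fun h => hu.2 h hu.1.2⟩
      · simp only [mem_sdiff]
        exact ⟨hv.1.1, fun h => hv.2 h hv.1.2⟩

/-- adding a set of vertices to all bags -/
theorem TD.add {b : ℕ} {D β : Finset V} (h : TD G b D β) (X : Finset V) :
    TD G (b + X.card) (D ∪ X) (β ∪ X) := by
  induction h with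
  | leaf β h => exact TD.leaf _ ((card_union_le _ _).trans (by omega))
  | glue D₁ β₁ D₂ β₂ _ _ h3 h4 ih1 ih2 =>
    have : D₁ ∪ D₂ ∪ X = (D₁ ∪ X) ∪ (D₂ ∪ X) := by
      ext x; simp only [mem_union]; tauto
    rw [this]
    refine TD.glue _ _ _ _ ih1 ih2 ?_ ?_
    · intro x hx
      simp only [mem_inter, mem_union] at hx ⊢
      by_cases hX : x ∈ X
      · exact ⟨Or.inr hX, Or.inr hX⟩
      · have := h3 (mem_inter.mpr ⟨hx.1.resolve_right hX, hx.2.resolve_right hX⟩)
        simp only [mem_inter] at this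
        exact ⟨Or.inl this.1, Or.inl this.2⟩
    · intro u hu v hv
      simp only [mem_sdiff, mem_union, not_or] at hu hv
      refine h4 u ?_ v ?_
      · simp only [mem_sdiff]
        exact ⟨hu.1.resolve_right hu.2.2, hu.2.1⟩
      · simp only [mem_sdiff]
        exact ⟨hv.1.resolve_right hv.2.2, hv.2.1⟩

theorem TW.mono {b b' : ℕ} (hb : b ≤ b') {D : Finset V} (h : TW G b D) : TW G b' D := by
  obtain ⟨β, h⟩ := h
  exact ⟨β, h.mono hb⟩

theorem TW.subset {b : ℕ} {D E : Finset V} (h : TW G b D) (hE : E ⊆ D) : TW G b E := by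
  obtain ⟨β, h⟩ := h
  refine ⟨β ∩ E, ?_⟩
  have := h.restrict E
  rwa [inter_eq_right.mpr hE] at this

theorem TW.add {b : ℕ} {D X : Finset V} (h : TW G b D) : TW G (b + X.card) (D ∪ X) := by
  obtain ⟨β, h⟩ := h
  exact ⟨_, h.add X⟩

theorem TW.empty (b : ℕ) : TW G b ∅ := ⟨∅, TD.leaf ∅ (by simp)⟩

theorem TW.of_card {b : ℕ} {D : Finset V} (h : D.card ≤ b) : TW G b D := ⟨D, TD.leaf D h⟩

/-- union of two parts without edges between them -/
theorem TW.union {b : ℕ} {D₁ D₂ : Finset V} (h1 : TW G b D₁) (h2 : TW G b D₂)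
    (h : ∀ u ∈ D₁ \ D₂, ∀ v ∈ D₂ \ D₁, ¬ G.Adj u v) (hd : Disjoint D₁ D₂) : TW G b (D₁ ∪ D₂) := by
  obtain ⟨β₁, h1⟩ := h1
  obtain ⟨β₂, h2⟩ := h2
  refine ⟨β₁, TD.glue _ _ _ _ h1 h2 ?_ h⟩
  rw [disjoint_iff_inter_eq_empty.mp hd]
  exact empty_subset _

/-- gluing along a common small set `X`: `D₁` and `D₂` have no edges between them outside `X` -/
theorem TW.glue_sep {b₁ b₂ b : ℕ} {D₁ D₂ X : Finset V} (h1 : TW G b₁ D₁) (h2 : TW G b₂ D₂)
    (hd : Disjoint D₁ D₂) (h : ∀ u ∈ D₁, ∀ v ∈ D₂, ¬ G.Adj u v)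
    (hb1 : b₁ + X.card ≤ b) (hb2 : b₂ + X.card ≤ b) :
    TW G b (D₁ ∪ D₂ ∪ X) := by
  obtain ⟨β₁, h1⟩ := h1
  obtain ⟨β₂, h2⟩ := h2
  refine ⟨β₁ ∪ X, ?_⟩
  have e : D₁ ∪ D₂ ∪ X = (D₁ ∪ X) ∪ (D₂ ∪ X) := by
    ext x; simp only [mem_union]; tauto
  rw [e]
  refine TD.glue _ _ _ _ ((h1.add X).mono hb1) ((h2.add X).mono hb2) ?_ ?_
  · intro x hx
    simp only [mem_inter, mem_union] at hx ⊢
    by_cases hX : x ∈ X
    · exact ⟨Or.inr hX, Or.inr hX⟩
    · exact absurd (hx.2.resolve_right hX) (disjoint_left.mp hd (hx.1.resolve_right hX))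
  · intro u hu v hv
    simp only [mem_sdiff, mem_union, not_or] at hu hv
    exact h u (hu.1.resolve_right hu.2.2) v (hv.1.resolve_right hv.2.2)

/-- a family of `t` pairwise disjoint, pairwise touching, connected subsets of `D`
forces bags of size at least `t` -/
theorem TD.clique_le {b : ℕ} {E β : Finset V} (h : TD G b E β) (t : ℕ) (W : Fin t → Finset V)
    (hc : ∀ i, Conn G (W i)) (hd : ∀ i j, i ≠ j → Disjoint (W i) (W j))
    (ht : ∀ i j, i ≠ j → Touch G (W i) (W j)) (hE : ∀ i, W i ⊆ E) : t ≤ b := by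
  by_contra hlt
  push Not at hlt
  -- every small set is avoided by some `W i`
  have avoid : ∀ X : Finset V, X.card ≤ b → ∃ i, Disjoint (W i) X := by
    intro X hX
    by_contra hcon
    push Not at hcon
    have h1 : ∀ i, ∃ x ∈ X, x ∈ W i := by
      intro i
      have := hcon i
      rw [Finset.not_disjoint_iff] at this
      obtain ⟨x, hx1, hx2⟩ := this
      exact ⟨x, hx2, hx1⟩
    choose f hf1 hf2 using h1
    have hinj : Function.Injective f := by
      intro i j hij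
      by_contra hne
      exact (disjoint_left.mp (hd i j hne)) (hf2 i) (hij ▸ hf2 j)
    have : (Finset.univ : Finset (Fin t)).card ≤ X.card :=
      Finset.card_le_card_of_injOn f (fun i _ => hf1 i) (hinj.injOn)
    simp at this
    omega
  -- main claim
  have key : ∀ D γ : Finset V, TD G b D γ → D ⊆ E →
      (∀ v ∈ D \ γ, ∀ u ∈ E, G.Adj v u → u ∈ D) → ∀ i, Disjoint (W i) γ → Disjoint (W i) D := by
    intro D γ hTD
    induction hTD with
    | leaf β _ => intro _ _ i hi; exact hi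
    | glue D₁ β₁ D₂ β₂ hT1 hT2 h3 h4 ih1 ih2 =>
      intro hDE hin i hi
      have hin1 : ∀ v ∈ D₁ \ β₁, ∀ u ∈ E, G.Adj v u → u ∈ D₁ := by
        intro v hv u hu huv
        rw [mem_sdiff] at hv
        have hv2 : v ∉ D₂ := fun h => hv.2 (mem_inter.mp (h3 (mem_inter.mpr ⟨hv.1, h⟩))).1
        have hu' := hin v (mem_sdiff.mpr ⟨mem_union_left _ hv.1, hv.2⟩) u hu huv
        by_contra hu1
        have hu2 : u ∈ D₂ := (mem_union.mp hu').resolve_left hu1
        exact h4 v (mem_sdiff.mpr ⟨hv.1, hv2⟩) u (mem_sdiff.mpr ⟨hu2, hu1⟩) huv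
      have hin2' : ∀ v ∈ D₂ \ D₁, ∀ u ∈ E, G.Adj v u → u ∈ D₂ := by
        intro v hv u hu huv
        rw [mem_sdiff] at hv
        have hvb : v ∉ β₁ := fun h => hv.2 (hT1.root_sub h)
        have hu' := hin v (mem_sdiff.mpr ⟨mem_union_right _ hv.1, hvb⟩) u hu huv
        by_contra hu2
        have hu1 : u ∈ D₁ := (mem_union.mp hu').resolve_right hu2
        exact h4 u (mem_sdiff.mpr ⟨hu1, hu2⟩) v (mem_sdiff.mpr ⟨hv.1, hv.2⟩) huv.symm
      have hin2 : ∀ v ∈ D₂ \ β₂, ∀ u ∈ E, G.Adj v u → u ∈ D₂ := by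
        intro v hv u hu huv
        rw [mem_sdiff] at hv
        refine hin2' v (mem_sdiff.mpr ⟨hv.1, fun h => hv.2 ?_⟩) u hu huv
        exact (mem_inter.mp (h3 (mem_inter.mpr ⟨h, hv.1⟩))).2
      have hd1 := ih1 (subset_union_left.trans hDE) hin1 i hi
      -- now `W i` misses `D₁`
      rw [disjoint_union_right]
      refine ⟨hd1, ?_⟩
      by_contra hnd
      rw [Finset.not_disjoint_iff] at hnd
      obtain ⟨x, hxW, hxD2⟩ := hnd
      -- `W i ⊆ D₂ \ D₁`
      have hsub : W i ∩ (D₂ \ D₁) = W i := by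
        refine (hc i).2 _ inter_subset_left ⟨x, ?_⟩ ?_
        · simp only [mem_inter, mem_sdiff]
          exact ⟨hxW, hxD2, disjoint_left.mp hd1 hxW⟩
        · intro u hu v hv huv
          simp only [mem_inter] at hu
          simp only [mem_sdiff, mem_inter, not_and] at hv
          have hvD2 := hin2' u hu.2 v (hE i hv.1) huv
          exact (hv.2 hv.1 hvD2) (disjoint_left.mp hd1 hv.1)
      obtain ⟨j, hj⟩ := avoid β₂ hT2.root_card
      have hdj := ih2 (subset_union_right.trans hDE) hin2 j hj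
      have hij : i ≠ j := by
        rintro rfl
        exact (disjoint_left.mp hdj hxW) hxD2
      obtain ⟨u, hu, v, hv, huv⟩ := ht i j hij
      have hu2 : u ∈ D₂ \ D₁ := by
        rw [← hsub] at hu
        exact (mem_inter.mp hu).2
      exact (disjoint_left.mp hdj hv) (hin2' u hu2 v (hE j hv) huv)
  obtain ⟨i, hi⟩ := avoid β h.root_card
  have := key E β h (Finset.Subset.refl _) (fun _ _ u hu _ => hu) i hi
  obtain ⟨x, hx⟩ := (hc i).1
  exact (disjoint_left.mp this hx) (hE i hx)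

/-- a bramble avoiding every set of at most `b` vertices excludes bags of size at most `b` -/
theorem TD.bramble {b : ℕ} {E β : Finset V} (h : TD G b E β) (P : Finset V → Prop)
    (hc : ∀ W, P W → Conn G W) (hE : ∀ W, P W → W ⊆ E)
    (ht : ∀ W W', P W → P W' → Touch G W W' ∨ ¬ Disjoint W W')
    (avoid : ∀ X : Finset V, X.card ≤ b → ∃ W, P W ∧ Disjoint W X) : False := by
  -- main claim
  have key : ∀ D γ : Finset V, TD G b D γ → D ⊆ E →
      (∀ v ∈ D \ γ, ∀ u ∈ E, G.Adj v u → u ∈ D) →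
      ∀ W, P W → Disjoint W γ → Disjoint W D := by
    intro D γ hTD
    induction hTD with
    | leaf β _ => intro _ _ W _ hi; exact hi
    | glue D₁ β₁ D₂ β₂ hT1 hT2 h3 h4 ih1 ih2 =>
      intro hDE hin W hPW hi
      have hin1 : ∀ v ∈ D₁ \ β₁, ∀ u ∈ E, G.Adj v u → u ∈ D₁ := by
        intro v hv u hu huv
        rw [mem_sdiff] at hv
        have hv2 : v ∉ D₂ := fun h => hv.2 (mem_inter.mp (h3 (mem_inter.mpr ⟨hv.1, h⟩))).1
        have hu' := hin v (mem_sdiff.mpr ⟨mem_union_left _ hv.1, hv.2⟩) u hu huv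
        by_contra hu1
        have hu2 : u ∈ D₂ := (mem_union.mp hu').resolve_left hu1
        exact h4 v (mem_sdiff.mpr ⟨hv.1, hv2⟩) u (mem_sdiff.mpr ⟨hu2, hu1⟩) huv
      have hin2' : ∀ v ∈ D₂ \ D₁, ∀ u ∈ E, G.Adj v u → u ∈ D₂ := by
        intro v hv u hu huv
        rw [mem_sdiff] at hv
        have hvb : v ∉ β₁ := fun h => hv.2 (hT1.root_sub h)
        have hu' := hin v (mem_sdiff.mpr ⟨mem_union_right _ hv.1, hvb⟩) u hu huv
        by_contra hu2
        have hu1 : u ∈ D₁ := (mem_union.mp hu').resolve_right hu2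
        exact h4 u (mem_sdiff.mpr ⟨hu1, hu2⟩) v (mem_sdiff.mpr ⟨hv.1, hv.2⟩) huv.symm
      have hin2 : ∀ v ∈ D₂ \ β₂, ∀ u ∈ E, G.Adj v u → u ∈ D₂ := by
        intro v hv u hu huv
        rw [mem_sdiff] at hv
        refine hin2' v (mem_sdiff.mpr ⟨hv.1, fun h => hv.2 ?_⟩) u hu huv
        exact (mem_inter.mp (h3 (mem_inter.mpr ⟨h, hv.1⟩))).2
      have hd1 := ih1 (subset_union_left.trans hDE) hin1 W hPW hi
      rw [disjoint_union_right]
      refine ⟨hd1, ?_⟩
      by_contra hnd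
      rw [Finset.not_disjoint_iff] at hnd
      obtain ⟨x, hxW, hxD2⟩ := hnd
      -- `W ⊆ D₂ \ D₁`
      have hsub : W ∩ (D₂ \ D₁) = W := by
        refine (hc W hPW).2 _ inter_subset_left ⟨x, ?_⟩ ?_
        · simp only [mem_inter, mem_sdiff]
          exact ⟨hxW, hxD2, disjoint_left.mp hd1 hxW⟩
        · intro u hu v hv huv
          simp only [mem_inter] at hu
          simp only [mem_sdiff, mem_inter, not_and] at hv
          have hvD2 := hin2' u hu.2 v (hE W hPW hv.1) huv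
          exact (hv.2 hv.1 hvD2) (disjoint_left.mp hd1 hv.1)
      have hsub' : W ⊆ D₂ \ D₁ := by
        rw [← hsub]; exact inter_subset_right
      obtain ⟨W', hW', hdW'⟩ := avoid β₂ hT2.root_card
      have hdj := ih2 (subset_union_right.trans hDE) hin2 W' hW' hdW'
      rcases ht W W' hPW hW' with ⟨u, hu, v, hv, huv⟩ | hnd
      · exact (disjoint_left.mp hdj hv) (hin2' u (hsub' hu) v (hE W' hW' hv) huv)
      · apply hnd
        rw [disjoint_left]
        intro y hy hy'
        exact (disjoint_left.mp hdj hy') (mem_sdiff.mp (hsub' hy)).1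
  obtain ⟨W, hW, hd⟩ := avoid β h.root_card
  have := key E β h (Finset.Subset.refl _) (fun _ _ u hu _ => hu) W hW hd
  obtain ⟨x, hx⟩ := (hc W hW).1
  exact (disjoint_left.mp this hx) (hE W hW hx)

end Pool.Agent.H66TW
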