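import Pool.Agent.Lib.H66TW.Pack

/-!
# Tokens: atoms, boundary vertices, soft components
-/

set_option autoImplicit false

namespace Pool.Agent.H66TW

open Finset

variable {V : Type*} [DecidableEq V] {G : SimpleGraph V}

/-- touching distinct vertex sets -/
def tokenGraph (G : SimpleGraph V) : SimpleGraph (Finset V) where
  Adj S T := S ≠ T ∧ Touch G S T
  symm := ⟨by
    rintro S T ⟨h1, u, hu, v, hv, huv⟩
    exact ⟨h1.symm, v, hv, u, hu, huv.symm⟩⟩
  loopless := ⟨by
    rintro S ⟨h, _⟩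
    exact h rfl⟩

open Classical in
/-- maximal connected subsets of `S` -/
noncomputable def comps (G : SimpleGraph V) (S : Finset V) : Finset (Finset V) :=
  S.powerset.filter (fun C => Conn G C ∧ ∀ C' ⊆ S, Conn G C' → C ⊆ C' → C' = C)

theorem exists_comps_mem {S : Finset V} {v : V} (hv : v ∈ S) : ∃ C ∈ comps G S, v ∈ C := by
  classical
  have hne : (S.powerset.filter (fun C => Conn G C ∧ v ∈ C)).Nonempty := by
    refine ⟨{v}, ?_⟩
    simp only [mem_filter, mem_powerset, singleton_subset_iff, mem_singleton, and_true]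
    exact ⟨hv, conn_singleton v⟩
  obtain ⟨C, hC, hmax⟩ := exists_max_image _ card hne
  simp only [mem_filter, mem_powerset] at hC hmax
  refine ⟨C, ?_, hC.2.2⟩
  unfold comps
  simp only [mem_filter, mem_powerset]
  refine ⟨hC.1, hC.2.1, ?_⟩
  intro C' hC' hcon hsub
  exact (eq_of_subset_of_card_le hsub (hmax C' ⟨hC', hcon, hsub hC.2.2⟩)).symm

theorem comps_sep {S C C' : Finset V} (hC : C ∈ comps G S) (hC' : C' ∈ comps G S) (hne : C ≠ C') :
    Disjoint C C' ∧ ¬ Touch G C C' := by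
  classical
  unfold comps at hC hC'
  simp only [mem_filter, mem_powerset] at hC hC'
  have key : ¬ (Touch G C C' ∨ (C ∩ C').Nonempty) := by
    intro h
    have h1 := conn_union hC.2.1 hC'.2.1 h
    have h2 := hC.2.2 _ (union_subset hC.1 hC'.1) h1 subset_union_left
    have h3 := hC'.2.2 _ (union_subset hC.1 hC'.1) h1 subset_union_right
    exact hne (h2.symm.trans h3)
  push Not at key
  refine ⟨?_, key.1⟩
  rw [disjoint_iff_inter_eq_empty]
  exact key.2

theorem conn_biUnion {M : Finset (Finset V)} (hM : Conn (tokenGraph G) M)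
    (h : ∀ S ∈ M, Conn G S) : Conn G (M.biUnion id) := by
  classical
  refine ⟨?_, ?_⟩
  · obtain ⟨S, hS⟩ := hM.1
    obtain ⟨x, hx⟩ := (h S hS).1
    exact ⟨x, mem_biUnion.mpr ⟨S, hS, hx⟩⟩
  · intro W hW hne hcl
    have a1 : ∀ S ∈ M, (W ∩ S).Nonempty → S ⊆ W := by
      intro S hS hn
      have : W ∩ S = S := by
        refine (h S hS).2 _ inter_subset_right hn ?_
        intro x hx y hy
        simp only [mem_inter, mem_sdiff] at hx hy
        refine hcl x hx.1 y ?_
        simp only [mem_sdiff, mem_biUnion]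
        exact ⟨⟨S, hS, hy.1⟩, fun h' => hy.2 ⟨h', hy.1⟩⟩
      rw [← this]; exact inter_subset_left
    have hM' : M.filter (fun S => (W ∩ S).Nonempty) = M := by
      refine hM.2 _ (filter_subset _ _) ?_ ?_
      · obtain ⟨x, hx⟩ := hne
        obtain ⟨S, hS, hxS⟩ := mem_biUnion.mp (hW hx)
        exact ⟨S, mem_filter.mpr ⟨hS, x, mem_inter.mpr ⟨hx, hxS⟩⟩⟩
      · intro S hS S' hS' hadj
        rw [mem_filter] at hS
        rw [mem_sdiff, mem_filter] at hS'
        obtain ⟨_, u, hu, v, hv, huv⟩ := hadj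
        have huW := a1 S hS.1 hS.2 hu
        refine hcl u huW v (mem_sdiff.mpr ⟨mem_biUnion.mpr ⟨S', hS'.1, hv⟩, ?_⟩) huv
        intro hvW
        exact hS'.2 ⟨hS'.1, v, mem_inter.mpr ⟨hvW, hv⟩⟩
    refine Subset.antisymm hW ?_
    intro x hx
    obtain ⟨S, hS, hxS⟩ := mem_biUnion.mp hx
    rw [← hM', mem_filter] at hS
    exact a1 S hS.1 hS.2 hxS

/-- the token structure over a region `A` with boundary `B` -/
structure Tokens (G : SimpleGraph V) (b : ℕ) (A B : Finset V) (F H U : Finset (Finset V)) :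
    Prop where
  disjAB : Disjoint A B
  pack : Pack G b A F
  cardF : F.card = nu G b A
  FU : F ⊆ U
  HU : H ⊆ U
  cardH : H.card = B.card
  memH : ∀ S ∈ H, S ⊆ B ∧ S.card = 1
  conn : ∀ S ∈ U, Conn G S
  cov : ∀ S ∈ U, Cov G b S (3 * b + 1)
  sub : ∀ S ∈ U, S ⊆ A ∪ B
  disj : ∀ S ∈ U, ∀ S' ∈ U, S ≠ S' → Disjoint S S'
  cover : ∀ v ∈ A ∪ B, ∃ S ∈ U, v ∈ S
  soft : ∀ S ∈ U, ∀ S' ∈ U, S ∉ F ∪ H → S' ∉ F ∪ H → ¬ (tokenGraph G).Adj S S'
  subA : ∀ S ∈ U, S ∉ H → S ⊆ A

theorem exists_tokens (G : SimpleGraph V) (b : ℕ) {A B : Finset V} (hAB : Disjoint A B) :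
    ∃ F H U, Tokens G b A B F H U := by
  classical
  obtain ⟨F, hF, hc, hF1, hF2⟩ := exists_atoms G b A
  set K := comps G (A \ F.biUnion id) with hK
  have hKmem : ∀ C ∈ K, C ⊆ A \ F.biUnion id ∧ Conn G C := by
    intro C hC
    rw [hK] at hC
    unfold comps at hC
    simp only [mem_filter, mem_powerset] at hC
    exact ⟨hC.1, hC.2.1⟩
  set H := B.image (fun v => ({v} : Finset V)) with hH
  have hHmem : ∀ S ∈ H, ∃ v ∈ B, S = {v} := by
    intro S hS
    rw [hH, mem_image] at hS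
    obtain ⟨v, hv, h⟩ := hS
    exact ⟨v, hv, h.symm⟩
  refine ⟨F, H, F ∪ H ∪ K, ?_⟩
  have hFK : ∀ S ∈ F, ∀ C ∈ K, Disjoint S C := by
    intro S hS C hC
    rw [disjoint_left]
    intro x hx hxC
    have := (hKmem C hC).1 hxC
    rw [mem_sdiff, mem_biUnion] at this
    exact this.2 ⟨S, hS, hx⟩
  have hFH : ∀ S ∈ F, ∀ C ∈ H, Disjoint S C := by
    intro S hS C hC
    obtain ⟨v, hv, rfl⟩ := hHmem C hC
    exact (hAB.mono_left (hF.1 S hS).1).mono_right (singleton_subset_iff.mpr hv)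
  have hHK : ∀ S ∈ H, ∀ C ∈ K, Disjoint S C := by
    intro S hS C hC
    obtain ⟨v, hv, rfl⟩ := hHmem S hS
    exact ((hAB.mono_left ((hKmem C hC).1.trans sdiff_subset)).mono_right
      (singleton_subset_iff.mpr hv)).symm
  have hHH : ∀ S ∈ H, ∀ S' ∈ H, S ≠ S' → Disjoint S S' := by
    intro S hS S' hS' hne
    obtain ⟨v, hv, rfl⟩ := hHmem S hS
    obtain ⟨v', hv', rfl⟩ := hHmem S' hS'
    rw [disjoint_singleton]
    intro h
    exact hne (by rw [h])
  refine ⟨hAB, hF, hc, ?_, ?_, ?_, ?_, ?_, ?_, ?_, ?_, ?_, ?_, ?_⟩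
  · exact subset_union_left.trans subset_union_left
  · exact subset_union_right.trans subset_union_left
  · rw [hH]
    exact card_image_of_injective _ (singleton_injective)
  · intro S hS
    obtain ⟨v, hv, rfl⟩ := hHmem S hS
    exact ⟨singleton_subset_iff.mpr hv, card_singleton v⟩
  · intro S hS
    simp only [mem_union] at hS
    rcases hS with (h | h) | h
    · exact (hF.1 S h).2.1
    · obtain ⟨v, hv, rfl⟩ := hHmem S h
      exact conn_singleton v
    · exact (hKmem S h).2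
  · intro S hS
    simp only [mem_union] at hS
    rcases hS with (h | h) | h
    · exact hF1 S h
    · obtain ⟨v, hv, rfl⟩ := hHmem S h
      exact Cov.of_card (by rw [card_singleton]; omega)
    · exact (hF2 S (hKmem S h).2 (hKmem S h).1).mono (Subset.refl _) (by omega)
  · intro S hS
    simp only [mem_union] at hS
    rcases hS with (h | h) | h
    · exact (hF.1 S h).1.trans subset_union_left
    · obtain ⟨v, hv, rfl⟩ := hHmem S h
      exact singleton_subset_iff.mpr (mem_union_right _ hv)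
    · exact ((hKmem S h).1.trans sdiff_subset).trans subset_union_left
  · intro S hS S' hS' hne
    simp only [mem_union] at hS hS'
    rcases hS with (h | h) | h <;> rcases hS' with (h' | h') | h'
    · exact hF.2 S h S' h' hne
    · exact hFH S h S' h'
    · exact hFK S h S' h'
    · exact (hFH S' h' S h).symm
    · exact hHH S h S' h' hne
    · exact hHK S h S' h'
    · exact (hFK S' h' S h).symm
    · exact (hHK S' h' S h).symm
    · exact (comps_sep h h' hne).1
  · intro v hv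
    by_cases hvF : v ∈ F.biUnion id
    · obtain ⟨S, hS, hvS⟩ := mem_biUnion.mp hvF
      exact ⟨S, by simp only [mem_union]; tauto, hvS⟩
    · rcases mem_union.mp hv with h | h
      · obtain ⟨C, hC, hvC⟩ := exists_comps_mem (G := G) (mem_sdiff.mpr ⟨h, hvF⟩)
        exact ⟨C, mem_union_right _ hC, hvC⟩
      · refine ⟨{v}, ?_, mem_singleton_self v⟩
        apply mem_union_left
        apply mem_union_right
        rw [hH]
        exact mem_image_of_mem _ h
  · intro S hS S' hS' h h' hadj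
    simp only [mem_union] at hS hS' h h'
    have hSK : S ∈ K := by tauto
    have hSK' : S' ∈ K := by tauto
    exact (comps_sep hSK hSK' hadj.1).2 hadj.2
  · intro S hS hSH
    simp only [mem_union] at hS
    rcases hS with (h | h) | h
    · exact (hF.1 S h).1
    · exact absurd h hSH
    · exact (hKmem S h).1.trans sdiff_subset

/-- choice of a closed balanced part -/
theorem exists_balanced {T : Type*} [DecidableEq T] {Γ : SimpleGraph T} (W P Q : Finset T)
    (K q : ℕ) (hconn : ∀ C ⊆ W, Conn Γ C → (C ∩ P).card ≤ q)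
    (hK : K * (W ∩ Q).card ≤ 2 * (W ∩ P).card) (hq : q ≤ (W ∩ P).card) :
    ∃ Z ⊆ W, (∀ x ∈ Z, ∀ y ∈ W \ Z, ¬ Γ.Adj x y) ∧ K * (Z ∩ Q).card ≤ 2 * (Z ∩ P).card ∧
      q ≤ (Z ∩ P).card ∧ (Z ∩ P).card ≤ 2 * q := by
  classical
  set 𝒢 := W.powerset.filter (fun Z => (∀ x ∈ Z, ∀ y ∈ W \ Z, ¬ Γ.Adj x y) ∧
    K * (Z ∩ Q).card ≤ 2 * (Z ∩ P).card ∧ q ≤ (Z ∩ P).card) with h𝒢
  have hne : 𝒢.Nonempty := by
    refine ⟨W, ?_⟩
    rw [h𝒢, mem_filter, mem_powerset]
    refine ⟨Subset.refl _, ?_, hK, hq⟩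
    intro x _ y hy
    simp at hy
  obtain ⟨Z, hZ, hmin⟩ := exists_min_image _ card hne
  rw [h𝒢, mem_filter, mem_powerset] at hZ
  obtain ⟨hZW, hZc, hZK, hZq⟩ := hZ
  refine ⟨Z, hZW, hZc, hZK, hZq, ?_⟩
  by_contra hlt
  push Not at hlt
  -- splitting counts
  have split : ∀ C ⊆ Z, ∀ R : Finset T, (Z ∩ R).card = (C ∩ R).card + ((Z \ C) ∩ R).card := by
    intro C hC R
    rw [← card_union_of_disjoint]
    · congr 1
      ext x
      simp only [mem_inter, mem_union, mem_sdiff]
      have : x ∈ C → x ∈ Z := fun h => hC h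
      tauto
    · rw [disjoint_left]
      intro x hx hx'
      simp only [mem_inter, mem_sdiff] at hx hx'
      exact hx'.1.2 hx.1
  -- removing a small closed part
  have remove : ∀ C ⊆ Z, C.Nonempty → (∀ x ∈ C, ∀ y ∈ W \ C, ¬ Γ.Adj x y) →
      (C ∩ P).card ≤ q → ¬ (K * ((Z \ C) ∩ Q).card ≤ 2 * ((Z \ C) ∩ P).card) := by
    intro C hC hCne hCc hCq hbad
    have hmem : Z \ C ∈ 𝒢 := by
      rw [h𝒢, mem_filter, mem_powerset]
      refine ⟨sdiff_subset.trans hZW, ?_, hbad, ?_⟩
      · intro x hx y hy hadj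
        simp only [mem_sdiff, not_and, not_not] at hx hy
        by_cases hyZ : y ∈ Z
        · have hyC := hy.2 hyZ
          exact hCc y hyC x (mem_sdiff.mpr ⟨hZW hx.1, hx.2⟩) hadj.symm
        · exact hZc x hx.1 y (mem_sdiff.mpr ⟨hy.1, hyZ⟩) hadj
      · have := split C hC P
        omega
    have h1 := hmin _ hmem
    have h2 : (Z \ C).card < Z.card := by
      apply card_lt_card
      refine ⟨sdiff_subset, fun h => ?_⟩
      obtain ⟨x, hx⟩ := hCne
      have := h (hC hx)
      rw [mem_sdiff] at this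
      exact this.2 hx
    omega
  -- minimal closed subsets with a property closed under one of two parts are connected
  have minconn : ∀ (p : Finset T → Prop),
      (∀ C C', Disjoint C C' → C.Nonempty → C'.Nonempty → p (C ∪ C') → p C ∨ p C') →
      (∃ C ⊆ Z, C.Nonempty ∧ (∀ x ∈ C, ∀ y ∈ W \ C, ¬ Γ.Adj x y) ∧ p C) →
      ∃ C ⊆ Z, C.Nonempty ∧ (∀ x ∈ C, ∀ y ∈ W \ C, ¬ Γ.Adj x y) ∧ p C ∧ Conn Γ C := by
    intro p hp hex
    have hne' : (Z.powerset.filter (fun C => C.Nonempty ∧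
        (∀ x ∈ C, ∀ y ∈ W \ C, ¬ Γ.Adj x y) ∧ p C)).Nonempty := by
      obtain ⟨C, h1, h2, h3, h4⟩ := hex
      exact ⟨C, mem_filter.mpr ⟨mem_powerset.mpr h1, h2, h3, h4⟩⟩
    obtain ⟨C, hC, hCmin⟩ := exists_min_image _ card hne'
    rw [mem_filter, mem_powerset] at hC
    obtain ⟨c1, c2, c3, c4⟩ := hC
    refine ⟨C, c1, c2, c3, c4, c2, ?_⟩
    intro S hS hSne hScl
    by_contra hneq
    have hrest : (C \ S).Nonempty := by
      rw [sdiff_nonempty]
      intro h
      exact hneq (Subset.antisymm hS h)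
    have hSclosed : ∀ x ∈ S, ∀ y ∈ W \ S, ¬ Γ.Adj x y := by
      intro x hx y hy hadj
      rw [mem_sdiff] at hy
      by_cases hyC : y ∈ C
      · exact hScl x hx y (mem_sdiff.mpr ⟨hyC, hy.2⟩) hadj
      · exact c3 x (hS hx) y (mem_sdiff.mpr ⟨hy.1, hyC⟩) hadj
    have hRclosed : ∀ x ∈ C \ S, ∀ y ∈ W \ (C \ S), ¬ Γ.Adj x y := by
      intro x hx y hy hadj
      simp only [mem_sdiff, not_and, not_not] at hx hy
      by_cases hyC : y ∈ C
      · exact hScl y (hy.2 hyC) x (mem_sdiff.mpr ⟨hx.1, hx.2⟩) hadj.symm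
      · exact c3 x hx.1 y (mem_sdiff.mpr ⟨hy.1, hyC⟩) hadj
    have hpp : p (S ∪ (C \ S)) := by rwa [union_sdiff_of_subset hS]
    rcases hp S (C \ S) disjoint_sdiff hSne hrest hpp with h | h
    · have h1 := hCmin S (mem_filter.mpr ⟨mem_powerset.mpr (hS.trans c1), hSne, hSclosed, h⟩)
      have h2 := card_sdiff_add_card_eq_card hS
      have h3 := card_pos.mpr hrest
      omega
    · have h1 := hCmin (C \ S) (mem_filter.mpr ⟨mem_powerset.mpr (sdiff_subset.trans c1), hrest,
        hRclosed, h⟩)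
      have h2 := card_sdiff_add_card_eq_card hS
      have h3 := card_pos.mpr hSne
      omega
  have hZne : Z.Nonempty := by
    by_contra h
    rw [not_nonempty_iff_eq_empty] at h
    rw [h] at hlt
    simp at hlt
  have cardsplit : ∀ C C' R : Finset T, Disjoint C C' →
      ((C ∪ C') ∩ R).card = (C ∩ R).card + (C' ∩ R).card := by
    intro C C' R hd
    rw [union_inter_distrib_right, card_union_of_disjoint]
    exact (hd.mono_left inter_subset_left).mono_right inter_subset_left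
  by_cases hex : ∃ C ⊆ Z, C.Nonempty ∧ (∀ x ∈ C, ∀ y ∈ W \ C, ¬ Γ.Adj x y) ∧
      2 * (C ∩ P).card ≤ K * (C ∩ Q).card
  · obtain ⟨C, h1, h2, h3, h4, h5⟩ := minconn (fun C => 2 * (C ∩ P).card ≤ K * (C ∩ Q).card) (by
      intro C C' hd _ _ h
      rw [cardsplit C C' P hd, cardsplit C C' Q hd, Nat.mul_add, Nat.mul_add] at h
      by_contra hcon
      push Not at hcon
      omega) hex
    refine remove C h1 h2 h3 (hconn C (h1.trans hZW) h5) ?_
    have e1 := split C h1 P
    have e2 := split C h1 Q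
    rw [e1, e2, Nat.mul_add, Nat.mul_add] at hZK
    omega
  · push Not at hex
    obtain ⟨C, h1, h2, h3, h4, h5⟩ := minconn (fun _ => True) (by
      intro C C' _ _ _ _
      exact Or.inl trivial) ⟨Z, Subset.refl _, hZne, hZc, trivial⟩
    have hCq := hconn C (h1.trans hZW) h5
    refine remove C h1 h2 h3 hCq ?_
    have hrest : (Z \ C).Nonempty := by
      by_contra h
      rw [not_nonempty_iff_eq_empty] at h
      have e1 := split C h1 P
      rw [h] at e1
      simp at e1
      omega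
    have := hex (Z \ C) sdiff_subset hrest (by
      intro x hx y hy hadj
      simp only [mem_sdiff, not_and, not_not] at hx hy
      by_cases hyZ : y ∈ Z
      · exact h3 y (hy.2 hyZ) x (mem_sdiff.mpr ⟨hZW hx.1, hx.2⟩) hadj.symm
      · exact hZc x hx.1 y (mem_sdiff.mpr ⟨hy.1, hyZ⟩) hadj)
    exact this.le

end Pool.Agent.H66TW
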