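import Pool.Agent.Lib.H66TW.Core
import Pool.Agent.Lib.H66TW.Hit

/-!
# Tokens built from a minimum hitting set
-/

set_option autoImplicit false

namespace Pool.Agent.H66TW

open Finset

variable {V : Type*} [DecidableEq V] {G : SimpleGraph V}

/-- tokens over `(A', B')`: hard tokens are the single vertices of `(Y ∩ A') ∪ B'`, soft tokens are
the components of `A' \ Y` -/
structure Tok (G : SimpleGraph V) (b : ℕ) (A' B' Y : Finset V) (Hd U : Finset (Finset V)) :
    Prop where
  HU : Hd ⊆ U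
  memH : ∀ S ∈ Hd, ∃ v ∈ (Y ∩ A') ∪ B', S = {v}
  Hmem : ∀ v ∈ (Y ∩ A') ∪ B', {v} ∈ Hd
  sub : ∀ S ∈ U, S ⊆ A' ∪ B'
  conn : ∀ S ∈ U, Conn G S
  cov : ∀ S ∈ U, Cov G b S (3 * b + 1)
  disj : ∀ S ∈ U, ∀ S' ∈ U, S ≠ S' → Disjoint S S'
  cover : ∀ v ∈ A' ∪ B', ∃ S ∈ U, v ∈ S
  soft : ∀ S ∈ U, ∀ S' ∈ U, S ∉ Hd → S' ∉ Hd → ¬ (tokenGraph G).Adj S S'

theorem exists_tok {b : ℕ} {A A' B' Y : Finset V} (hY : Hits G b A Y) (hA : A' ⊆ A)
    (hAB : Disjoint A' B') :
    ∃ U, Tok G b A' B' Y (((Y ∩ A') ∪ B').image (fun v => ({v} : Finset V))) U := by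
  classical
  set Hd := ((Y ∩ A') ∪ B').image (fun v => ({v} : Finset V)) with hHd
  set K := comps G (A' \ Y) with hK
  have hHmem : ∀ S ∈ Hd, ∃ v ∈ (Y ∩ A') ∪ B', S = {v} := by
    intro S hS
    rw [hHd, mem_image] at hS
    obtain ⟨v, hv, h⟩ := hS
    exact ⟨v, hv, h.symm⟩
  have hKmem : ∀ C ∈ K, C ⊆ A' \ Y ∧ Conn G C := by
    intro C hC
    rw [hK] at hC
    unfold comps at hC
    simp only [mem_filter, mem_powerset] at hC
    exact ⟨hC.1, hC.2.1⟩
  have hHK : ∀ S ∈ Hd, ∀ C ∈ K, Disjoint S C := by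
    intro S hS C hC
    obtain ⟨v, hv, rfl⟩ := hHmem S hS
    rw [disjoint_singleton_left]
    intro hvC
    have h1 := mem_sdiff.mp ((hKmem C hC).1 hvC)
    rcases mem_union.mp hv with h | h
    · exact h1.2 (mem_inter.mp h).1
    · exact (disjoint_left.mp hAB h1.1) h
  refine ⟨Hd ∪ K, ⟨subset_union_left, hHmem, ?_, ?_, ?_, ?_, ?_, ?_, ?_⟩⟩
  · intro v hv
    rw [hHd]
    exact mem_image_of_mem _ hv
  · intro S hS
    rcases mem_union.mp hS with h | h
    · obtain ⟨v, hv, rfl⟩ := hHmem S h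
      rw [singleton_subset_iff]
      rcases mem_union.mp hv with h' | h'
      · exact mem_union_left _ (mem_inter.mp h').2
      · exact mem_union_right _ h'
    · exact ((hKmem S h).1.trans sdiff_subset).trans subset_union_left
  · intro S hS
    rcases mem_union.mp hS with h | h
    · obtain ⟨v, hv, rfl⟩ := hHmem S h
      exact conn_singleton v
    · exact (hKmem S h).2
  · intro S hS
    rcases mem_union.mp hS with h | h
    · obtain ⟨v, hv, rfl⟩ := hHmem S h
      exact Cov.of_card (by rw [card_singleton]; omega)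
    · have h1 := hKmem S h
      by_contra hcon
      have h2 : Cpx G b S := ⟨h1.2, fun hc => hcon (hc.mono (Subset.refl _) (by omega))⟩
      obtain ⟨x, hx⟩ := hY S ((h1.1.trans sdiff_subset).trans hA) h2
      rw [mem_inter] at hx
      exact (mem_sdiff.mp (h1.1 hx.1)).2 hx.2
  · intro S hS S' hS' hne
    rcases mem_union.mp hS with h | h <;> rcases mem_union.mp hS' with h' | h'
    · obtain ⟨v, hv, rfl⟩ := hHmem S h
      obtain ⟨v', hv', rfl⟩ := hHmem S' h'
      rw [disjoint_singleton]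
      intro h''
      exact hne (by rw [h''])
    · exact hHK S h S' h'
    · exact (hHK S' h' S h).symm
    · exact (comps_sep h h' hne).1
  · intro v hv
    by_cases hvY : v ∈ (Y ∩ A') ∪ B'
    · refine ⟨{v}, mem_union_left _ ?_, mem_singleton_self v⟩
      rw [hHd]
      exact mem_image_of_mem _ hvY
    · rw [mem_union, not_or] at hvY
      have hvA : v ∈ A' := (mem_union.mp hv).resolve_right hvY.2
      have hvY' : v ∉ Y := fun h => hvY.1 (mem_inter.mpr ⟨h, hvA⟩)
      obtain ⟨C, hC, hvC⟩ := exists_comps_mem (G := G) (mem_sdiff.mpr ⟨hvA, hvY'⟩)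
      exact ⟨C, mem_union_right _ hC, hvC⟩
  · intro S hS S' hS' h h' hadj
    have hSK := (mem_union.mp hS).resolve_left h
    have hSK' := (mem_union.mp hS').resolve_left h'
    exact (comps_sep hSK hSK' hadj.1).2 hadj.2

/-- union of an indexed family of connected sets along a connected index set -/
theorem conn_biUnion_idx {ι : Type*} [DecidableEq ι] {H₀ : SimpleGraph ι} {C : Finset ι}
    (hC : Conn H₀ C) (W : ι → Finset V) (hW : ∀ i ∈ C, Conn G (W i))
    (hadj : ∀ i ∈ C, ∀ j ∈ C, H₀.Adj i j → Touch G (W i) (W j)) : Conn G (C.biUnion W) := by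
  classical
  refine ⟨?_, ?_⟩
  · obtain ⟨i, hi⟩ := hC.1
    obtain ⟨x, hx⟩ := (hW i hi).1
    exact ⟨x, mem_biUnion.mpr ⟨i, hi, hx⟩⟩
  · intro T hT hne hcl
    have a1 : ∀ i ∈ C, (T ∩ W i).Nonempty → W i ⊆ T := by
      intro i hi hn
      have : T ∩ W i = W i := by
        refine (hW i hi).2 _ inter_subset_right hn ?_
        intro x hx y hy
        simp only [mem_inter, mem_sdiff] at hx hy
        refine hcl x hx.1 y ?_
        simp only [mem_sdiff, mem_biUnion]
        exact ⟨⟨i, hi, hy.1⟩, fun h' => hy.2 ⟨h', hy.1⟩⟩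
      rw [← this]; exact inter_subset_left
    have hM' : C.filter (fun i => (T ∩ W i).Nonempty) = C := by
      refine hC.2 _ (filter_subset _ _) ?_ ?_
      · obtain ⟨x, hx⟩ := hne
        obtain ⟨i, hi, hxi⟩ := mem_biUnion.mp (hT hx)
        exact ⟨i, mem_filter.mpr ⟨hi, x, mem_inter.mpr ⟨hx, hxi⟩⟩⟩
      · intro i hi j hj hij
        rw [mem_filter] at hi
        rw [mem_sdiff, mem_filter] at hj
        obtain ⟨u, hu, v, hv, huv⟩ := hadj i hi.1 j hj.1 hij
        have huT := a1 i hi.1 hi.2 hu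
        refine hcl u huT v (mem_sdiff.mpr ⟨mem_biUnion.mpr ⟨j, hj.1, hv⟩, ?_⟩) huv
        intro hvT
        exact hj.2 ⟨hj.1, v, mem_inter.mpr ⟨hvT, hv⟩⟩
    refine Subset.antisymm hT ?_
    intro x hx
    obtain ⟨i, hi, hxi⟩ := mem_biUnion.mp hx
    rw [← hM', mem_filter] at hi
    exact a1 i hi.1 hi.2 hxi

/-- a cheap model of an expanding graph `H₀` is impossible -/
theorem no_cheap_model_H [Fintype V] {t w s ω : ℕ} (hw' : ¬ TW G (w - 1) univ)
    (H : ∀ D, TW G t D ∨ TW G (w - s - 1) Dᶜ) {ι : Type*} [Fintype ι] [DecidableEq ι]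
    (H₀ : SimpleGraph ι) (hbr : ∀ X : Finset ι, X.card ≤ t →
      ∃ C : Finset ι, Disjoint C X ∧ Conn H₀ C ∧ Fintype.card ι < 2 * C.card)
    {A' B' Y : Finset V} {Hd U : Finset (Finset V)}
    (hT : Tok G t A' B' Y Hd U) (hω : (3 * t + 1) * (Fintype.card ι * ω) ≤ s) (hsw : s + t < w) :
    ¬ ∃ W : ι → Finset (Finset V), (∀ i, W i ⊆ U) ∧
      (∀ i, Conn (tokenGraph G) (W i)) ∧
      (∀ i j, i ≠ j → Disjoint (W i) (W j)) ∧
      (∀ i j, H₀.Adj i j → Touch (tokenGraph G) (W i) (W j)) ∧ ∀ i, (W i).card ≤ ω := by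
  classical
  rintro ⟨W, h1, h2, h3, h4, h5⟩
  set Tot := (univ : Finset ι).biUnion W with hTot
  have hTU : Tot ⊆ U := by
    intro S hS
    rw [hTot, mem_biUnion] at hS
    obtain ⟨i, _, hi⟩ := hS
    exact h1 i hi
  have hcard : Tot.card ≤ Fintype.card ι * ω := by
    have := card_biUnion_le_card_mul (univ : Finset ι) W ω (fun i _ => h5 i)
    simpa using this
  have hcov : Cov G t (Tot.biUnion id) (Tot.card * (3 * t + 1)) :=
    Cov.biUnion Tot (fun S hS => hT.cov S (hTU hS))
  have hle : Tot.card * (3 * t + 1) ≤ s := by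
    calc Tot.card * (3 * t + 1) ≤ (Fintype.card ι * ω) * (3 * t + 1) :=
          Nat.mul_le_mul_right _ hcard
      _ = (3 * t + 1) * (Fintype.card ι * ω) := Nat.mul_comm _ _
      _ ≤ s := hω
  obtain ⟨β, hTD⟩ := cov_TW hw' H hcov hle (by omega)
  -- the vertex sets of the branch sets
  set M : ι → Finset V := fun i => (W i).biUnion id with hM
  have hMc : ∀ i, Conn G (M i) := fun i => conn_biUnion (h2 i) (fun S hS => hT.conn S (h1 i hS))
  have hMd : ∀ i j, i ≠ j → Disjoint (M i) (M j) := by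
    intro i j hij
    rw [disjoint_left]
    intro v hv hv'
    rw [hM, mem_biUnion] at hv hv'
    obtain ⟨S, hS, hvS⟩ := hv
    obtain ⟨S', hS', hvS'⟩ := hv'
    have hne : S ≠ S' := by
      rintro rfl
      exact (disjoint_left.mp (h3 i j hij) hS) hS'
    exact (disjoint_left.mp (hT.disj S (h1 i hS) S' (h1 j hS') hne) hvS) hvS'
  have hMt : ∀ i j, H₀.Adj i j → Touch G (M i) (M j) := by
    intro i j hij
    obtain ⟨S, hS, S', hS', _, u, hu, v, hv, huv⟩ := h4 i j hij
    exact ⟨u, mem_biUnion.mpr ⟨S, hS, hu⟩, v, mem_biUnion.mpr ⟨S', hS', hv⟩, huv⟩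
  refine hTD.bramble (fun Z => ∃ C : Finset ι, Conn H₀ C ∧ Fintype.card ι < 2 * C.card ∧
    Z = C.biUnion M) ?_ ?_ ?_ ?_
  · rintro Z ⟨C, hC, _, rfl⟩
    exact conn_biUnion_idx hC M (fun i _ => hMc i) (fun i _ j _ hij => hMt i j hij)
  · rintro Z ⟨C, hC, _, rfl⟩ v hv
    rw [mem_biUnion] at hv
    obtain ⟨i, _, hi⟩ := hv
    rw [hM, mem_biUnion] at hi
    obtain ⟨S, hS, hvS⟩ := hi
    exact mem_biUnion.mpr ⟨S, mem_biUnion.mpr ⟨i, mem_univ i, hS⟩, hvS⟩
  · rintro Z Z' ⟨C, hC, hCc, rfl⟩ ⟨C', hC', hCc', rfl⟩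
    right
    -- `C` and `C'` meet
    have hmeet : ∃ i, i ∈ C ∧ i ∈ C' := by
      by_contra hcon
      push Not at hcon
      have hd : Disjoint C C' := disjoint_left.mpr hcon
      have := card_union_of_disjoint hd
      have h6 : (C ∪ C').card ≤ Fintype.card ι := card_le_univ _
      omega
    obtain ⟨i, hi, hi'⟩ := hmeet
    obtain ⟨x, hx⟩ := (hMc i).1
    intro hd
    exact (disjoint_left.mp hd (mem_biUnion.mpr ⟨i, hi, hx⟩)) (mem_biUnion.mpr ⟨i, hi', hx⟩)
  · intro X hX
    set XH := (univ : Finset ι).filter (fun i => ¬ Disjoint (M i) X) with hXH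
    have hXHc : XH.card ≤ X.card := by
      have hsel : ∀ i : ι, ∃ x : Option V, i ∈ XH → ∃ y, x = some y ∧ y ∈ M i ∧ y ∈ X := by
        intro i
        by_cases hi : i ∈ XH
        · rw [hXH, mem_filter, not_disjoint_iff] at hi
          obtain ⟨y, hy1, hy2⟩ := hi.2
          exact ⟨some y, fun _ => ⟨y, rfl, hy1, hy2⟩⟩
        · exact ⟨none, fun h => absurd h hi⟩
      choose f hf using hsel
      have h6 : XH.card ≤ (X.image (fun y => (some y : Option V))).card := by
        apply card_le_card_of_injOn f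
        · intro i hi
          obtain ⟨y, hy, _, hyX⟩ := hf i hi
          rw [hy]
          exact mem_image_of_mem _ hyX
        · intro i hi j hj hij
          by_contra hne
          obtain ⟨y, hy, hyi, _⟩ := hf i hi
          obtain ⟨y', hy', hyj, _⟩ := hf j hj
          have : y = y' := by
            have : (some y : Option V) = some y' := by rw [← hy, ← hy', hij]
            exact Option.some.inj this
          subst this
          exact (disjoint_left.mp (hMd i j hne) hyi) hyj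
      exact h6.trans card_image_le
    obtain ⟨C, hCd, hCc, hCn⟩ := hbr XH (hXHc.trans hX)
    refine ⟨C.biUnion M, ⟨C, hCc, hCn, rfl⟩, ?_⟩
    rw [disjoint_left]
    intro v hv hvX
    rw [mem_biUnion] at hv
    obtain ⟨i, hi, hvi⟩ := hv
    apply disjoint_left.mp hCd hi
    rw [hXH, mem_filter, not_disjoint_iff]
    exact ⟨mem_univ i, v, hvi, hvX⟩

/-- splitting a token set into closed parts of comparable size, choosing the better ratio -/
theorem exists_split {T : Type*} [DecidableEq T] {Γ : SimpleGraph T} (W P Q : Finset T)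
    (hconn : ∀ C ⊆ W, Conn Γ C → 5 * (C ∩ P).card ≤ 3 * (W ∩ P).card) :
    ∃ Z ⊆ W, (∀ x ∈ Z, ∀ y ∈ W \ Z, ¬ Γ.Adj x y) ∧ (W ∩ P).card ≤ 5 * (Z ∩ P).card ∧
      5 * (Z ∩ P).card ≤ 4 * (W ∩ P).card ∧
      (Z ∩ Q).card * (W ∩ P).card ≤ (Z ∩ P).card * (W ∩ Q).card := by
  classical
  set 𝒢 := W.powerset.filter (fun Z => (∀ x ∈ Z, ∀ y ∈ W \ Z, ¬ Γ.Adj x y) ∧
    (W ∩ P).card ≤ 5 * (Z ∩ P).card) with h𝒢
  have hne : 𝒢.Nonempty := by
    refine ⟨W, ?_⟩
    rw [h𝒢, mem_filter, mem_powerset]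
    refine ⟨Subset.refl _, ?_, by omega⟩
    intro x _ y hy
    simp at hy
  obtain ⟨Z, hZ, hmin⟩ := exists_min_image _ card hne
  rw [h𝒢, mem_filter, mem_powerset] at hZ
  obtain ⟨hZW, hZc, hZq⟩ := hZ
  have cardsplit : ∀ C ⊆ W, ∀ R : Finset T,
      (W ∩ R).card = (C ∩ R).card + ((W \ C) ∩ R).card := by
    intro C hC R
    rw [← card_union_of_disjoint]
    · congr 1
      ext x
      simp only [mem_inter, mem_union, mem_sdiff]
      have : x ∈ C → x ∈ W := fun h => hC h
      tauto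
    · rw [disjoint_left]
      intro x hx hx'
      simp only [mem_inter, mem_sdiff] at hx hx'
      exact hx'.1.2 hx.1
  have hup : 5 * (Z ∩ P).card ≤ 3 * (W ∩ P).card := by
    by_cases hZe : Z.Nonempty
    · by_cases hZconn : Conn Γ Z
      · exact hconn Z hZW hZconn
      · -- split
        have : ∃ S ⊆ Z, S.Nonempty ∧ (∀ u ∈ S, ∀ v ∈ Z \ S, ¬ Γ.Adj u v) ∧ S ≠ Z := by
          by_contra hcon
          push Not at hcon
          exact hZconn ⟨hZe, hcon⟩
        obtain ⟨S, hS, hSne, hScl, hSneq⟩ := this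
        have hrest : (Z \ S).Nonempty := by
          rw [sdiff_nonempty]
          intro h
          exact hSneq (Subset.antisymm hS h)
        have hSclosed : ∀ x ∈ S, ∀ y ∈ W \ S, ¬ Γ.Adj x y := by
          intro x hx y hy hadj
          rw [mem_sdiff] at hy
          by_cases hyC : y ∈ Z
          · exact hScl x hx y (mem_sdiff.mpr ⟨hyC, hy.2⟩) hadj
          · exact hZc x (hS hx) y (mem_sdiff.mpr ⟨hy.1, hyC⟩) hadj
        have hRclosed : ∀ x ∈ Z \ S, ∀ y ∈ W \ (Z \ S), ¬ Γ.Adj x y := by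
          intro x hx y hy hadj
          simp only [mem_sdiff, not_and, not_not] at hx hy
          by_cases hyC : y ∈ Z
          · exact hScl y (hy.2 hyC) x (mem_sdiff.mpr ⟨hx.1, hx.2⟩) hadj.symm
          · exact hZc x hx.1 y (mem_sdiff.mpr ⟨hy.1, hyC⟩) hadj
        have e0 := card_sdiff_add_card_eq_card hS
        have e1 : ¬ (W ∩ P).card ≤ 5 * (S ∩ P).card := by
          intro h
          have := hmin S (by
            rw [h𝒢, mem_filter, mem_powerset]
            exact ⟨hS.trans hZW, hSclosed, h⟩)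
          have h3 := card_pos.mpr hrest
          omega
        have e2 : ¬ (W ∩ P).card ≤ 5 * ((Z \ S) ∩ P).card := by
          intro h
          have := hmin (Z \ S) (by
            rw [h𝒢, mem_filter, mem_powerset]
            exact ⟨sdiff_subset.trans hZW, hRclosed, h⟩)
          have h3 := card_pos.mpr hSne
          omega
        have e3 : (Z ∩ P).card = (S ∩ P).card + ((Z \ S) ∩ P).card := by
          rw [← card_union_of_disjoint]
          · congr 1
            ext x
            simp only [mem_inter, mem_union, mem_sdiff]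
            have : x ∈ S → x ∈ Z := fun h => hS h
            tauto
          · rw [disjoint_left]
            intro x hx hx'
            simp only [mem_inter, mem_sdiff] at hx hx'
            exact hx'.1.2 hx.1
        omega
    · rw [not_nonempty_iff_eq_empty] at hZe
      rw [hZe]
      simp
  by_cases hrat : (Z ∩ Q).card * (W ∩ P).card ≤ (Z ∩ P).card * (W ∩ Q).card
  · exact ⟨Z, hZW, hZc, hZq, by omega, hrat⟩
  · refine ⟨W \ Z, sdiff_subset, ?_, ?_, ?_, ?_⟩
    · intro x hx y hy hadj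
      simp only [mem_sdiff, not_and, not_not] at hx hy
      exact hZc y (hy.2 hy.1) x (mem_sdiff.mpr hx) hadj.symm
    · have := cardsplit Z hZW P
      omega
    · have := cardsplit Z hZW P
      omega
    · push Not at hrat
      have f1 := cardsplit Z hZW P
      have f2 := cardsplit Z hZW Q
      set x := (Z ∩ P).card
      set y := (Z ∩ Q).card
      set x' := ((W \ Z) ∩ P).card
      set y' := ((W \ Z) ∩ Q).card
      rw [f1, f2] at hrat ⊢
      nlinarith

end Pool.Agent.H66TW
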